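import Mathlib

/-!
# Doubly periodic self-dual Chern-Simons vortices: definitions

The plane is `ℝ × ℝ`. A lattice is given by two generating vectors `a`, `b`, and functions on the
flat torus are doubly periodic functions on the plane.
-/

open MeasureTheory Set
open scoped ContDiff

noncomputable section

namespace Pool.Agent.H88.CS

/-- Partial derivative in the first variable. -/
def dx (φ : ℝ × ℝ → ℝ) (z : ℝ × ℝ) : ℝ := fderiv ℝ φ z (1, 0)

/-- Partial derivative in the second variable. -/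
def dy (φ : ℝ × ℝ → ℝ) (z : ℝ × ℝ) : ℝ := fderiv ℝ φ z (0, 1)

/-- The Laplacian of a smooth function on the plane. -/
def lap (φ : ℝ × ℝ → ℝ) (z : ℝ × ℝ) : ℝ := dx (dx φ) z + dy (dy φ) z

/-- `f` is doubly periodic with respect to the lattice generated by `a` and `b`. -/
def DoublyPeriodic (a b : ℝ × ℝ) (f : ℝ × ℝ → ℝ) : Prop :=
  (∀ z, f (z + a) = f z) ∧ (∀ z, f (z + b) = f z)

/-- The fundamental cell `Ω` of the lattice generated by `a` and `b`. -/
def cell (a b : ℝ × ℝ) : Set (ℝ × ℝ) :=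
  {z | ∃ s ∈ Ico (0 : ℝ) 1, ∃ t ∈ Ico (0 : ℝ) 1, z = s • a + t • b}

/-- The area `|Ω|`. -/
def area (a b : ℝ × ℝ) : ℝ := (volume (cell a b)).toReal

/-- Test functions on the torus: smooth doubly periodic functions. -/
def IsTest (a b : ℝ × ℝ) (φ : ℝ × ℝ → ℝ) : Prop := ContDiff ℝ ∞ φ ∧ DoublyPeriodic a b φ

/-- `u₀` is a background function for the vortices `p 0, ..., p (N-1)`: it is doubly periodic,
integrable on the cell, and `Δ u₀ = - 4 π N / |Ω| + 4 π ∑ⱼ δ_{pⱼ}` in the sense of distributions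
on the torus. -/
structure IsBackground (a b : ℝ × ℝ) {N : ℕ} (p : Fin N → ℝ × ℝ) (u₀ : ℝ × ℝ → ℝ) : Prop where
  periodic : DoublyPeriodic a b u₀
  integrable : IntegrableOn u₀ (cell a b)
  eqn : ∀ φ, IsTest a b φ →
    ∫ z in cell a b, u₀ z * lap φ z =
      -(4 * Real.pi * N / area a b) * (∫ z in cell a b, φ z) + 4 * Real.pi * ∑ j, φ (p j)

/-- `v` belongs to the periodic Sobolev space `W^{1,2}(Ω)`, with weak gradient `(g₁, g₂)`. -/
structure IsW12 (a b : ℝ × ℝ) (v g₁ g₂ : ℝ × ℝ → ℝ) : Prop where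
  periodic : DoublyPeriodic a b v
  periodic₁ : DoublyPeriodic a b g₁
  periodic₂ : DoublyPeriodic a b g₂
  memLp : MemLp v 2 (volume.restrict (cell a b))
  memLp₁ : MemLp g₁ 2 (volume.restrict (cell a b))
  memLp₂ : MemLp g₂ 2 (volume.restrict (cell a b))
  weak₁ : ∀ φ, IsTest a b φ → ∫ z in cell a b, v z * dx φ z = -∫ z in cell a b, g₁ z * φ z
  weak₂ : ∀ φ, IsTest a b φ → ∫ z in cell a b, v z * dy φ z = -∫ z in cell a b, g₂ z * φ z

/-- `u` solves `Δ u = (4/κ²) e^u (e^u - 1) + 4 π ∑ⱼ δ_{pⱼ}` on the torus: `u = u₀ + v` with `u₀` a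
background function and `v` a doubly periodic `W^{1,2}` function satisfying
`Δ v = (4/κ²) e^u (e^u - 1) + 4 π N / |Ω|` weakly. -/
def IsSolution (a b : ℝ × ℝ) {N : ℕ} (p : Fin N → ℝ × ℝ) (κ : ℝ) (u : ℝ × ℝ → ℝ) : Prop :=
  ∃ u₀ v g₁ g₂ : ℝ × ℝ → ℝ, IsBackground a b p u₀ ∧ IsW12 a b v g₁ g₂ ∧
    (∀ z, u z = u₀ z + v z) ∧
    IntegrableOn (fun z => Real.exp (u z) * (Real.exp (u z) - 1)) (cell a b) ∧
    ∀ φ, IsTest a b φ →
      ∫ z in cell a b, (g₁ z * dx φ z + g₂ z * dy φ z) =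
        -∫ z in cell a b, (4 / κ ^ 2 * (Real.exp (u z) * (Real.exp (u z) - 1)) +
          4 * Real.pi * N / area a b) * φ z

/-- The critical coupling `κ_c(Ω; p₁, ..., p_N)`: the supremum of all `κ > 0` for which a solution
with the prescribed vortices exists. -/
def criticalCoupling (a b : ℝ × ℝ) {N : ℕ} (p : Fin N → ℝ × ℝ) : ℝ :=
  sSup {κ : ℝ | 0 < κ ∧ ∃ u, IsSolution a b p κ u}

end Pool.Agent.H88.CS
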