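import Mathlib

open MeasureTheory Set Filter Topology
open scoped ComplexConjugate ENNReal

noncomputable section

namespace Pool.Agent.H88

/-- Normalised measure on the circle (total mass one). -/
@[reducible] def circleMS : MeasureSpace UnitAddCircle := ⟨AddCircle.haarAddCircle⟩

attribute [local instance] circleMS

theorem circleHaar : Measure.IsAddHaarMeasure (volume : Measure UnitAddCircle) :=
  inferInstanceAs (Measure.IsAddHaarMeasure AddCircle.haarAddCircle)

theorem circleProb : IsProbabilityMeasure (volume : Measure UnitAddCircle) :=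
  inferInstanceAs (IsProbabilityMeasure AddCircle.haarAddCircle)

attribute [local instance] circleHaar circleProb

abbrev T2 := UnitAddTorus (Fin 2)

/-- An integrable function whose integral against all nonnegative continuous functions is
nonnegative is almost everywhere nonnegative. -/
theorem ae_nonneg_of_forall_continuous {g : T2 → ℝ} (hg : Integrable g)
    (h : ∀ ψ : C(T2, ℝ), (∀ z, 0 ≤ ψ z) → 0 ≤ ∫ z, g z * ψ z) : 0 ≤ᵐ[volume] g := by
  refine ae_nonneg_of_forall_setIntegral_nonneg hg (fun s hs _ => ?_)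
  have hmem : MemLp (s.indicator (fun _ => (1 : ℝ))) 1 (volume : Measure T2) :=
    (memLp_const (1 : ℝ)).indicator hs
  have hex : ∀ n : ℕ, ∃ φ : BoundedContinuousFunction T2 ℝ,
      eLpNorm (s.indicator (fun _ => (1 : ℝ)) - ⇑φ) 1 volume ≤ ENNReal.ofReal (1 / (n + 1 : ℝ)) := by
    intro n
    obtain ⟨φ, h1, -⟩ := hmem.exists_boundedContinuous_eLpNorm_sub_le (by simp)
      (ε := ENNReal.ofReal (1 / (n + 1 : ℝ))) (by
        simp only [ne_eq, ENNReal.ofReal_eq_zero, not_le]; positivity)
    exact ⟨φ, h1⟩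
  choose φ hφ using hex
  have htend : TendstoInMeasure volume (fun n => (⇑(φ n) : T2 → ℝ)) atTop
      (s.indicator (fun _ => (1 : ℝ))) := by
    refine tendstoInMeasure_of_tendsto_eLpNorm (p := 1) one_ne_zero ?_ ?_ ?_
    · intro n; exact (φ n).continuous.aestronglyMeasurable
    · exact hmem.1
    · refine tendsto_of_tendsto_of_tendsto_of_le_of_le tendsto_const_nhds ?_ (fun n => zero_le)
        (fun n => ?_) (h := fun n : ℕ => ENNReal.ofReal (1 / (n + 1 : ℝ)))
      · rw [← ENNReal.ofReal_zero]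
        exact (ENNReal.continuous_ofReal.tendsto 0).comp tendsto_one_div_add_atTop_nhds_zero_nat
      · rw [eLpNorm_sub_comm]; exact hφ n
  obtain ⟨ns, -, hns⟩ := htend.exists_seq_tendsto_ae
  let χ : ℕ → C(T2, ℝ) := fun n => ⟨fun z => max 0 (min (φ (ns n) z) 1), by fun_prop⟩
  have hχ : ∀ᵐ z ∂(volume : Measure T2), Tendsto (fun n => g z * χ n z) atTop
      (𝓝 (s.indicator g z)) := by
    filter_upwards [hns] with z hz
    have h1 : Tendsto (fun n => χ n z) atTop
        (𝓝 (max 0 (min (s.indicator (fun _ => (1 : ℝ)) z) 1))) := by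
      have hc : Continuous (fun t : ℝ => max 0 (min t 1)) := by fun_prop
      exact (hc.tendsto _).comp hz
    have h2 := h1.const_mul (g z)
    convert h2 using 2
    by_cases hzs : z ∈ s <;> simp [hzs]
  have hlim := tendsto_integral_of_dominated_convergence (μ := (volume : Measure T2))
    (F := fun n z => g z * χ n z) (f := s.indicator g) (fun z => ‖g z‖)
    (fun n => hg.1.mul (χ n).continuous.aestronglyMeasurable) hg.norm
    (fun n => Eventually.of_forall (fun z => by
      rw [norm_mul]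
      refine mul_le_of_le_one_right (norm_nonneg _) ?_
      have h0 : 0 ≤ χ n z := le_max_left _ _
      rw [Real.norm_of_nonneg h0]
      exact max_le zero_le_one (min_le_right _ _))) hχ
  rw [integral_indicator hs] at hlim
  exact ge_of_tendsto' hlim (fun n => h (χ n) (fun z => le_max_left _ _))


/-- The trigonometric polynomial with coefficients `c`. -/
def trig (c : (Fin 2 → ℤ) →₀ ℂ) (z : T2) : ℂ :=
  c.sum (fun k a => a * UnitAddTorus.mFourier k z)

theorem continuous_trig (c : (Fin 2 → ℤ) →₀ ℂ) : Continuous (trig c) := by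
  unfold trig Finsupp.sum
  fun_prop

/-- Fourier coefficients of a real function on the torus. -/
def fc (g : T2 → ℝ) (k : Fin 2 → ℤ) : ℂ :=
  UnitAddTorus.mFourierCoeff (fun z => (g z : ℂ)) k

theorem fc_eq (g : T2 → ℝ) (k : Fin 2 → ℤ) :
    fc g k = ∫ z, UnitAddTorus.mFourier (-k) z * (g z : ℂ) := rfl

theorem integrable_mFourier_mul {g : T2 → ℝ} (hg : Integrable g) (k : Fin 2 → ℤ) :
    Integrable (fun z => UnitAddTorus.mFourier k z * (g z : ℂ)) := by
  refine hg.ofReal.bdd_mul (c := 1)
    (UnitAddTorus.mFourier k).continuous.aestronglyMeasurable ?_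
  refine Eventually.of_forall (fun z => ?_)
  calc ‖UnitAddTorus.mFourier k z‖ ≤ ‖UnitAddTorus.mFourier k‖ :=
        (UnitAddTorus.mFourier k).norm_coe_le_norm z
    _ = 1 := UnitAddTorus.mFourier_norm

theorem integral_trig_mul {g : T2 → ℝ} (hg : Integrable g) (c : (Fin 2 → ℤ) →₀ ℂ) :
    ∫ z, trig c z * (g z : ℂ) = c.sum (fun k a => a * fc g (-k)) := by
  unfold trig Finsupp.sum
  simp_rw [Finset.sum_mul, mul_assoc]
  rw [integral_finsetSum _ (fun k _ => (integrable_mFourier_mul hg k).const_mul _)]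
  refine Finset.sum_congr rfl (fun k _ => ?_)
  rw [integral_const_mul, fc_eq, neg_neg]

theorem integrable_trig_mul {g : T2 → ℝ} (hg : Integrable g) (c : (Fin 2 → ℤ) →₀ ℂ) :
    Integrable (fun z => trig c z * (g z : ℂ)) := by
  unfold trig Finsupp.sum
  simp_rw [Finset.sum_mul, mul_assoc]
  exact integrable_finsetSum _ (fun k _ => (integrable_mFourier_mul hg k).const_mul _)

theorem integral_mul_trig_re {g : T2 → ℝ} (hg : Integrable g) (c : (Fin 2 → ℤ) →₀ ℂ) :
    ∫ z, g z * (trig c z).re = (c.sum (fun k a => a * fc g (-k))).re := by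
  rw [← integral_trig_mul hg c]
  have := integral_re (integrable_trig_mul hg c)
  simp only [RCLike.re_eq_complex_re] at this
  rw [← this]
  refine integral_congr_ae (Eventually.of_forall (fun z => ?_))
  simp [mul_comm]

/-- Test against trigonometric polynomials with nonnegative real part. -/
theorem ae_nonneg_of_forall_trig {g : T2 → ℝ} (hg : Integrable g)
    (h : ∀ c : (Fin 2 → ℤ) →₀ ℂ, (∀ z, 0 ≤ (trig c z).re) → 0 ≤ ∫ z, g z * (trig c z).re) :
    0 ≤ᵐ[volume] g := by
  refine ae_nonneg_of_forall_continuous hg (fun ψ hψ => ?_)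
  have key : ∀ ε : ℝ, 0 < ε → -(2 * ε * ∫ z, |g z|) ≤ ∫ z, g z * ψ z := by
    intro ε hε
    let Ψ : C(T2, ℂ) := ⟨fun z => ((ψ z + ε : ℝ) : ℂ), by fun_prop⟩
    have hmem : Ψ ∈ (Submodule.span ℂ (range (UnitAddTorus.mFourier (d := Fin 2)))).topologicalClosure := by
      rw [UnitAddTorus.span_mFourier_closure_eq_top]; trivial
    have hmem' : Ψ ∈ closure ((Submodule.span ℂ (range (UnitAddTorus.mFourier (d := Fin 2))) :
        Submodule ℂ C(T2, ℂ)) : Set C(T2, ℂ)) := hmem
    obtain ⟨P, hP, hdist⟩ := Metric.mem_closure_iff.mp hmem' ε hε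
    obtain ⟨c, hc⟩ := Finsupp.mem_span_range_iff_exists_finsupp.mp hP
    have hPc : ∀ z, P z = trig c z := by
      intro z
      rw [← hc]
      simp [trig, Finsupp.sum]
    have hclose : ∀ z, |(trig c z).re - (ψ z + ε)| < ε := by
      intro z
      have h1 : ‖P z - Ψ z‖ < ε := by
        rw [← dist_eq_norm]
        exact lt_of_le_of_lt (ContinuousMap.dist_apply_le_dist z) (by rwa [dist_comm])
      have h2 : (P z - Ψ z).re = (trig c z).re - (ψ z + ε) := by
        rw [hPc]; simp [Ψ]
      rw [← h2]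
      exact lt_of_le_of_lt (Complex.abs_re_le_norm _) h1
    have hnn : ∀ z, 0 ≤ (trig c z).re := by
      intro z
      have := (abs_lt.mp (hclose z)).1
      have := hψ z
      linarith
    have h0 := h c hnn
    have hint1 : Integrable (fun z => g z * (trig c z).re) := by
      refine (hg.bdd_mul (c := ‖ψ‖ + 2 * ε) (f := fun z => (trig c z).re)
        ((Complex.continuous_re.comp (continuous_trig c)).aestronglyMeasurable) ?_).congr
        (Eventually.of_forall (fun z => mul_comm _ _))
      refine Eventually.of_forall (fun z => ?_)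
      rw [Real.norm_eq_abs, abs_of_nonneg (hnn z)]
      have h3 := (abs_lt.mp (hclose z)).2
      have h4 : ψ z ≤ ‖ψ‖ := (le_abs_self _).trans (ψ.norm_coe_le_norm z)
      linarith
    have hint2 : Integrable (fun z => g z * ψ z) := by
      refine (hg.bdd_mul (c := ‖ψ‖) (f := ψ) ψ.continuous.aestronglyMeasurable ?_).congr
        (Eventually.of_forall (fun z => mul_comm _ _))
      exact Eventually.of_forall (fun z => ψ.norm_coe_le_norm z)
    have hdiff : (∫ z, g z * (trig c z).re) - (∫ z, g z * ψ z) ≤ 2 * ε * ∫ z, |g z| := by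
      rw [← integral_sub hint1 hint2, ← integral_const_mul]
      refine integral_mono (hint1.sub hint2) (hg.abs.const_mul _) (fun z => ?_)
      simp only
      have h3 := abs_lt.mp (hclose z)
      calc g z * (trig c z).re - g z * ψ z = g z * ((trig c z).re - ψ z) := by ring
        _ ≤ |g z * ((trig c z).re - ψ z)| := le_abs_self _
        _ = |g z| * |(trig c z).re - ψ z| := abs_mul _ _
        _ ≤ |g z| * (2 * ε) := by
            refine mul_le_mul_of_nonneg_left ?_ (abs_nonneg _)
            rw [abs_le]; constructor <;> linarith [h3.1, h3.2]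
        _ = 2 * ε * |g z| := by ring
    linarith
  by_contra hneg
  rw [not_le] at hneg
  have hI : 0 ≤ ∫ z, |g z| := integral_nonneg (fun z => abs_nonneg _)
  have := key (-(∫ z, g z * ψ z) / (4 * (∫ z, |g z|) + 4)) (by
    apply div_pos <;> linarith)
  have hpos : 0 < 4 * (∫ z, |g z|) + 4 := by linarith
  have e : 2 * (-(∫ z, g z * ψ z) / (4 * (∫ z, |g z|) + 4)) * ∫ z, |g z|
      = (-(∫ z, g z * ψ z)) * ((2 * ∫ z, |g z|) / (4 * (∫ z, |g z|) + 4)) := by
    field_simp
  rw [e] at this
  have hle : (2 * ∫ z, |g z|) / (4 * (∫ z, |g z|) + 4) ≤ 1 / 2 := by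
    rw [div_le_div_iff₀ hpos (by norm_num)]; linarith
  nlinarith


/-- The symbol of the (anisotropic) operator `-(α ∂_0^2 + ∂_1^2)` on the unit torus. -/
def sym (α : ℝ) (k : Fin 2 → ℤ) : ℝ := 4 * Real.pi ^ 2 * (α * (k 0 : ℝ) ^ 2 + (k 1 : ℝ) ^ 2)

theorem sym_nonneg {α : ℝ} (hα : 0 ≤ α) (k : Fin 2 → ℤ) : 0 ≤ sym α k := by
  unfold sym; positivity

theorem sym_neg (α : ℝ) (k : Fin 2 → ℤ) : sym α (-k) = sym α k := by
  simp [sym]

theorem mFourier_shift (k : Fin 2 → ℤ) (z : T2) (i : Fin 2) (τ : ℝ) :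
    UnitAddTorus.mFourier k (z + Pi.single i (τ : UnitAddCircle)) =
      UnitAddTorus.mFourier k z * Complex.exp (2 * Real.pi * Complex.I * (k i) * τ) := by
  have h : ∀ (n : ℤ) (x : UnitAddCircle) (t : ℝ),
      fourier n (x + (t : UnitAddCircle)) = fourier n x * Complex.exp (2 * Real.pi * Complex.I * n * t) := by
    intro n x t
    have : fourier n (x + (t : UnitAddCircle)) = fourier n x * fourier n (t : UnitAddCircle) := by
      simp only [fourier_apply, smul_add, AddCircle.toCircle_add, Circle.coe_mul]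
    rw [this, fourier_coe_apply]
    simp
  have hF : ∀ w : T2, UnitAddTorus.mFourier k w = fourier (k 0) (w 0) * fourier (k 1) (w 1) := by
    intro w
    change ∏ i, fourier (k i) (w i) = _
    rw [Fin.prod_univ_two]
  rw [hF, hF]
  have hi : i = 0 ∨ i = 1 := by fin_cases i <;> simp
  rcases hi with rfl | rfl
  · have e0 : (z + Pi.single (0 : Fin 2) (τ : UnitAddCircle) : Fin 2 → UnitAddCircle) 0 = z 0 + (τ : UnitAddCircle) := by simp
    have e1 : (z + Pi.single (0 : Fin 2) (τ : UnitAddCircle) : Fin 2 → UnitAddCircle) 1 = z 1 := by simp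
    rw [e0, e1, h]
    ring
  · have e0 : (z + Pi.single (1 : Fin 2) (τ : UnitAddCircle) : Fin 2 → UnitAddCircle) 0 = z 0 := by simp
    have e1 : (z + Pi.single (1 : Fin 2) (τ : UnitAddCircle) : Fin 2 → UnitAddCircle) 1 = z 1 + (τ : UnitAddCircle) := by simp
    rw [e0, e1, h]
    ring

theorem mFourier_second_diff (k : Fin 2 → ℤ) (z : T2) (i : Fin 2) (τ : ℝ) :
    UnitAddTorus.mFourier k (z + Pi.single i (τ : UnitAddCircle)) +
      UnitAddTorus.mFourier k (z + Pi.single i ((-τ : ℝ) : UnitAddCircle)) -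
      2 * UnitAddTorus.mFourier k z =
      UnitAddTorus.mFourier k z * ((2 * Real.cos (2 * Real.pi * (k i) * τ) - 2 : ℝ) : ℂ) := by
  rw [mFourier_shift, mFourier_shift]
  have h1 : Complex.exp (2 * Real.pi * Complex.I * (k i) * τ) =
      Complex.cos (2 * Real.pi * (k i) * τ) + Complex.sin (2 * Real.pi * (k i) * τ) * Complex.I := by
    rw [← Complex.exp_mul_I]; ring_nf
  have h2 : Complex.exp (2 * Real.pi * Complex.I * (k i) * ((-τ : ℝ) : ℂ)) =
      Complex.cos (2 * Real.pi * (k i) * τ) - Complex.sin (2 * Real.pi * (k i) * τ) * Complex.I := by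
    have : (2 * Real.pi * Complex.I * (k i) * ((-τ : ℝ) : ℂ)) =
      (-(2 * Real.pi * (k i) * τ)) * Complex.I := by push_cast; ring
    rw [this, Complex.exp_mul_I, Complex.cos_neg, Complex.sin_neg]; ring
  rw [h1, h2]
  push_cast
  ring

theorem tendsto_cos_diff (a : ℝ) :
    Tendsto (fun τ : ℝ => (2 * Real.cos (a * τ) - 2) / τ ^ 2) (𝓝[≠] 0) (𝓝 (-a ^ 2)) := by
  have hd : HasDerivAt (fun τ : ℝ => Real.sin (a / 2 * τ)) (a / 2) 0 := by
    have h := (Real.hasDerivAt_sin (a / 2 * 0)).comp (0 : ℝ)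
      ((hasDerivAt_id (0 : ℝ)).const_mul (a / 2))
    simpa [Function.comp_def] using h
  have h1 := hd.tendsto_slope_zero
  have h2 := (h1.pow 2).const_mul (-4)
  have e : -4 * (a / 2) ^ 2 = -a ^ 2 := by ring
  rw [e] at h2
  refine h2.congr' ?_
  filter_upwards [self_mem_nhdsWithin] with τ hτ
  have hτ' : τ ≠ 0 := hτ
  have hcos : Real.cos (a * τ) = 1 - 2 * Real.sin (a / 2 * τ) ^ 2 := by
    have : a * τ = 2 * (a / 2 * τ) := by ring
    rw [this, Real.cos_two_mul, Real.cos_sq']; ring
  simp only [zero_add, mul_zero, Real.sin_zero, sub_zero, smul_eq_mul]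
  rw [hcos]
  field_simp
  ring

/-- The trigonometric polynomial obtained by applying the resolvent `(K + sym)⁻¹`. -/
def trigS (α K : ℝ) (c : (Fin 2 → ℤ) →₀ ℂ) : (Fin 2 → ℤ) →₀ ℂ :=
  Finsupp.onFinset c.support (fun k => c k / ((K + sym α k : ℝ) : ℂ)) (by
    intro k hk
    rw [Finsupp.mem_support_iff]
    intro h0
    apply hk
    simp [h0])

theorem trigS_apply (α K : ℝ) (c : (Fin 2 → ℤ) →₀ ℂ) (k : Fin 2 → ℤ) :
    trigS α K c k = c k / ((K + sym α k : ℝ) : ℂ) := rfl

theorem trig_eq_sum (c : (Fin 2 → ℤ) →₀ ℂ) (s : Finset (Fin 2 → ℤ)) (hs : c.support ⊆ s) (z : T2) :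
    trig c z = ∑ k ∈ s, c k * UnitAddTorus.mFourier k z := by
  unfold trig
  exact Finsupp.sum_of_support_subset c hs _ (by simp)

theorem trigS_support (α K : ℝ) (c : (Fin 2 → ℤ) →₀ ℂ) : (trigS α K c).support ⊆ c.support := by
  unfold trigS
  exact Finsupp.support_onFinset_subset

/-- Minimum principle: the resolvent of a trigonometric polynomial with nonnegative real part
has nonnegative real part. -/
theorem trigS_nonneg {α K : ℝ} (hα : 0 ≤ α) (hK : 0 < K) (c : (Fin 2 → ℤ) →₀ ℂ)
    (h : ∀ z, 0 ≤ (trig c z).re) (z : T2) : 0 ≤ (trig (trigS α K c) z).re := by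
  obtain ⟨z0, -, hz0⟩ := isCompact_univ.exists_isMinOn (univ_nonempty)
    (Complex.continuous_re.comp (continuous_trig (trigS α K c))).continuousOn
  have hmin : ∀ z, (trig (trigS α K c) z0).re ≤ (trig (trigS α K c) z).re := by
    intro z
    exact hz0 (mem_univ z)
  refine le_trans ?_ (hmin z)
  set d := trigS α K c with hd
  have hsum : ∀ z, trig d z = ∑ k ∈ c.support, d k * UnitAddTorus.mFourier k z :=
    fun z => trig_eq_sum d _ (trigS_support α K c) z
  -- second differences at the minimum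
  have hdiff : ∀ i : Fin 2, 0 ≤ (∑ k ∈ c.support, d k * UnitAddTorus.mFourier k z0 *
      (-(2 * Real.pi * (k i)) ^ 2 : ℝ)).re := by
    intro i
    have hnn : ∀ τ : ℝ, 0 ≤ (∑ k ∈ c.support, d k * UnitAddTorus.mFourier k z0 *
      (((2 * Real.cos (2 * Real.pi * (k i) * τ) - 2) / τ ^ 2 : ℝ) : ℂ)).re := by
      intro τ
      have e1 : (∑ k ∈ c.support, d k * UnitAddTorus.mFourier k z0 *
          (((2 * Real.cos (2 * Real.pi * (k i) * τ) - 2) / τ ^ 2 : ℝ) : ℂ)) =
          ((1 / τ ^ 2 : ℝ) : ℂ) * (trig d (z0 + Pi.single i (τ : UnitAddCircle)) +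
          trig d (z0 + Pi.single i ((-τ : ℝ) : UnitAddCircle)) - 2 * trig d z0) := by
        rw [hsum, hsum, hsum, Finset.mul_sum, ← Finset.sum_add_distrib, ← Finset.sum_sub_distrib,
          Finset.mul_sum]
        refine Finset.sum_congr rfl (fun k _ => ?_)
        have := mFourier_second_diff k z0 i τ
        have e2 : d k * UnitAddTorus.mFourier k (z0 + Pi.single i (τ : UnitAddCircle)) +
            d k * UnitAddTorus.mFourier k (z0 + Pi.single i ((-τ : ℝ) : UnitAddCircle)) -
            2 * (d k * UnitAddTorus.mFourier k z0) = d k * (UnitAddTorus.mFourier k z0 *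
            ((2 * Real.cos (2 * Real.pi * (k i) * τ) - 2 : ℝ) : ℂ)) := by
          rw [← this]; ring
        rw [e2]
        push_cast
        ring
      rw [e1, Complex.re_ofReal_mul]
      refine mul_nonneg (by positivity) ?_
      have h1 := hmin (z0 + Pi.single i (τ : UnitAddCircle))
      have h2 := hmin (z0 + Pi.single i ((-τ : ℝ) : UnitAddCircle))
      simp only [Complex.sub_re, Complex.add_re, Complex.mul_re, Complex.re_ofNat, Complex.im_ofNat,
        zero_mul, sub_zero]
      linarith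
    have hlim : Tendsto (fun τ : ℝ => (∑ k ∈ c.support, d k * UnitAddTorus.mFourier k z0 *
      (((2 * Real.cos (2 * Real.pi * (k i) * τ) - 2) / τ ^ 2 : ℝ) : ℂ)).re) (𝓝[≠] 0)
      (𝓝 ((∑ k ∈ c.support, d k * UnitAddTorus.mFourier k z0 *
      (-(2 * Real.pi * (k i)) ^ 2 : ℝ)).re)) := by
      refine (Complex.continuous_re.tendsto _).comp ?_
      refine tendsto_finsetSum _ (fun k _ => ?_)
      refine Tendsto.const_mul _ ?_
      exact (Complex.continuous_ofReal.tendsto _).comp (tendsto_cos_diff (2 * Real.pi * (k i)))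
    exact ge_of_tendsto hlim (Eventually.of_forall hnn)
  have h0 := hdiff 0
  have h1 := hdiff 1
  have hc := h z0
  have hid : trig c z0 = (K : ℂ) * trig d z0 - (α : ℂ) * (∑ k ∈ c.support, d k * UnitAddTorus.mFourier k z0 *
      (-(2 * Real.pi * (k 0)) ^ 2 : ℝ)) - (∑ k ∈ c.support, d k * UnitAddTorus.mFourier k z0 *
      (-(2 * Real.pi * (k 1)) ^ 2 : ℝ)) := by
    rw [hsum, trig_eq_sum c c.support subset_rfl, Finset.mul_sum, Finset.mul_sum,
      ← Finset.sum_sub_distrib, ← Finset.sum_sub_distrib]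
    refine Finset.sum_congr rfl (fun k _ => ?_)
    have hne : ((K + sym α k : ℝ) : ℂ) ≠ 0 := by
      have : 0 < K + sym α k := by have := sym_nonneg hα k; linarith
      exact_mod_cast this.ne'
    have : c k = d k * ((K + sym α k : ℝ) : ℂ) := by
      rw [hd, trigS_apply]; field_simp
    rw [this]
    unfold sym
    push_cast
    ring
  rw [hid] at hc
  simp only [Complex.sub_re, Complex.re_ofReal_mul] at hc
  have : 0 ≤ K * (trig d z0).re := by nlinarith [mul_nonneg hα h0]
  exact nonneg_of_mul_nonneg_right this hK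


theorem mFourier_apply_zero (k : Fin 2 → ℤ) : UnitAddTorus.mFourier k (0 : T2) = 1 := by
  simp [UnitAddTorus.mFourier]

/-- Positivity of the resolvent, including a nonnegative point mass at the origin. -/
theorem pos_of_resolvent {α K : ℝ} (hα : 0 ≤ α) (hK : 0 < K) {g h : T2 → ℝ}
    (hg : Integrable g) (hh : Integrable h) (hh0 : 0 ≤ᵐ[volume] h) {a : ℝ} (ha : 0 ≤ a)
    (hrel : ∀ k, ((K + sym α k : ℝ) : ℂ) * fc g k = fc h k + a) : 0 ≤ᵐ[volume] g := by
  refine ae_nonneg_of_forall_trig hg (fun c hc => ?_)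
  rw [integral_mul_trig_re hg]
  have hS := trigS_nonneg hα hK c hc
  have e : (c.sum (fun k b => b * fc g (-k))) =
      (trigS α K c).sum (fun k b => b * fc h (-k)) + a * trig (trigS α K c) 0 := by
    rw [trig_eq_sum _ c.support (trigS_support α K c) 0,
      Finsupp.sum_of_support_subset _ (trigS_support α K c) _ (by simp), Finsupp.sum,
      Finset.mul_sum, ← Finset.sum_add_distrib]
    refine Finset.sum_congr rfl (fun k _ => ?_)
    have hne : ((K + sym α k : ℝ) : ℂ) ≠ 0 := by
      have : 0 < K + sym α k := by have := sym_nonneg hα k; linarith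
      exact_mod_cast this.ne'
    have h1 := hrel (-k)
    rw [sym_neg] at h1
    rw [trigS_apply, mFourier_apply_zero]
    have h2 : fc g (-k) = (fc h (-k) + a) / ((K + sym α k : ℝ) : ℂ) := by
      rw [← h1]; field_simp
    rw [h2]
    ring
  rw [e, Complex.add_re, Complex.re_ofReal_mul, ← integral_mul_trig_re hh]
  refine add_nonneg ?_ (mul_nonneg ha (hS 0))
  refine integral_nonneg_of_ae ?_
  filter_upwards [hh0] with z hz
  exact mul_nonneg hz (hS z)

theorem fc_sub {g h : T2 → ℝ} (hg : Integrable g) (hh : Integrable h) (k : Fin 2 → ℤ) :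
    fc (fun z => g z - h z) k = fc g k - fc h k := by
  simp only [fc_eq]
  rw [← integral_sub (integrable_mFourier_mul hg _) (integrable_mFourier_mul hh _)]
  refine integral_congr_ae (Eventually.of_forall (fun z => ?_))
  push_cast; ring

theorem fc_add {g h : T2 → ℝ} (hg : Integrable g) (hh : Integrable h) (k : Fin 2 → ℤ) :
    fc (fun z => g z + h z) k = fc g k + fc h k := by
  simp only [fc_eq]
  rw [← integral_add (integrable_mFourier_mul hg _) (integrable_mFourier_mul hh _)]
  refine integral_congr_ae (Eventually.of_forall (fun z => ?_))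
  push_cast; ring

theorem fc_const_mul (r : ℝ) (g : T2 → ℝ) (k : Fin 2 → ℤ) :
    fc (fun z => r * g z) k = r * fc g k := by
  simp only [fc_eq]
  rw [← integral_const_mul]
  refine integral_congr_ae (Eventually.of_forall (fun z => ?_))
  push_cast; ring

theorem fc_neg (g : T2 → ℝ) (k : Fin 2 → ℤ) :
    fc (fun z => - g z) k = - fc g k := by
  simp only [fc_eq]
  rw [← integral_neg]
  refine integral_congr_ae (Eventually.of_forall (fun z => ?_))
  push_cast; ring

theorem fc_congr_ae {g h : T2 → ℝ} (hgh : g =ᵐ[volume] h) (k : Fin 2 → ℤ) :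
    fc g k = fc h k := by
  simp only [fc_eq]
  refine integral_congr_ae ?_
  filter_upwards [hgh] with z hz
  rw [hz]

theorem fc_zero_freq (g : T2 → ℝ) : fc g 0 = ((∫ z, g z : ℝ) : ℂ) := by
  simp only [fc_eq, neg_zero, UnitAddTorus.mFourier_zero]
  simp only [ContinuousMap.one_apply, one_mul]
  exact integral_ofReal

theorem fc_const (r : ℝ) (k : Fin 2 → ℤ) :
    fc (fun _ => r) k = if k = 0 then (r : ℂ) else 0 := by
  split_ifs with hk
  · rw [hk, fc_zero_freq]; simp
  · rw [fc_eq]
    have h := (orthonormal_iff_ite.mp (UnitAddTorus.orthonormal_mFourier (d := Fin 2))) k 0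
    rw [if_neg hk, ContinuousMap.inner_toLp] at h
    have h2 : ∫ z : T2, UnitAddTorus.mFourier (-k) z * (r : ℂ) =
        (∫ z : T2, UnitAddTorus.mFourier (-k) z) * (r : ℂ) := integral_mul_const _ _
    rw [h2]
    have h3 : ∫ z : T2, UnitAddTorus.mFourier (-k) z = 0 := by
      rw [← h]
      refine integral_congr_ae (Eventually.of_forall (fun z => ?_))
      simp only [UnitAddTorus.mFourier_neg, UnitAddTorus.mFourier_zero]
      simp
    rw [h3, zero_mul]

theorem ae_eq_of_fc_eq {g h : T2 → ℝ} (hg : Integrable g) (hh : Integrable h)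
    (hrel : ∀ k, fc g k = fc h k) : g =ᵐ[volume] h := by
  have h1 : 0 ≤ᵐ[volume] (fun z => g z - h z) := by
    refine ae_nonneg_of_forall_trig (hg.sub hh) (fun c _ => ?_)
    rw [integral_mul_trig_re (g := fun z => g z - h z) (hg.sub hh)]
    refine le_of_eq ?_
    symm
    have : (c.sum fun k a => a * fc (fun z => g z - h z) (-k)) = 0 := by
      unfold Finsupp.sum
      refine Finset.sum_eq_zero (fun k _ => ?_)
      simp only [fc_sub hg hh, hrel, sub_self, mul_zero]
    rw [this, Complex.zero_re]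
  have h2 : 0 ≤ᵐ[volume] (fun z => h z - g z) := by
    refine ae_nonneg_of_forall_trig (hh.sub hg) (fun c _ => ?_)
    rw [integral_mul_trig_re (g := fun z => h z - g z) (hh.sub hg)]
    refine le_of_eq ?_
    symm
    have : (c.sum fun k a => a * fc (fun z => h z - g z) (-k)) = 0 := by
      unfold Finsupp.sum
      refine Finset.sum_eq_zero (fun k _ => ?_)
      simp only [fc_sub hh hg, hrel, sub_self, mul_zero]
    rw [this, Complex.zero_re]
  filter_upwards [h1, h2] with z hz1 hz2
  simp only [Pi.zero_apply] at hz1 hz2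
  linarith

/-- The complex `L²` class of a real square-integrable function. -/
def toL2 (g : T2 → ℝ) (hg : MemLp g 2 (volume : Measure T2)) : Lp ℂ 2 (volume : Measure T2) :=
  MemLp.toLp (fun z => (g z : ℂ)) hg.ofReal

theorem coeFn_toL2 (g : T2 → ℝ) (hg : MemLp g 2 (volume : Measure T2)) :
    (toL2 g hg : T2 → ℂ) =ᵐ[volume] fun z => (g z : ℂ) := MemLp.coeFn_toLp _

theorem mFourierCoeff_toL2 (g : T2 → ℝ) (hg : MemLp g 2 (volume : Measure T2)) (k : Fin 2 → ℤ) :
    UnitAddTorus.mFourierCoeff (toL2 g hg) k = fc g k := by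
  unfold fc UnitAddTorus.mFourierCoeff
  refine integral_congr_ae ?_
  filter_upwards [coeFn_toL2 g hg] with z hz
  rw [hz]

theorem hasSum_sq_fc {g : T2 → ℝ} (hg : MemLp g 2 (volume : Measure T2)) :
    HasSum (fun k => ‖fc g k‖ ^ 2) (∫ z, g z ^ 2) := by
  have h := UnitAddTorus.hasSum_sq_mFourierCoeff (toL2 g hg)
  simp only [mFourierCoeff_toL2] at h
  convert h using 1
  refine integral_congr_ae ?_
  filter_upwards [coeFn_toL2 g hg] with z hz
  rw [hz, Complex.norm_real, Real.norm_eq_abs, sq_abs]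

theorem hasSum_inner_fc {g h : T2 → ℝ} (hg : MemLp g 2 (volume : Measure T2))
    (hh : MemLp h 2 (volume : Measure T2)) :
    HasSum (fun k => conj (fc g k) * fc h k) ((∫ z, g z * h z : ℝ) : ℂ) := by
  have H := UnitAddTorus.hasSum_prod_mFourierCoeff (toL2 g hg) (toL2 h hh)
  simp only [mFourierCoeff_toL2] at H
  convert H using 1
  have e : ((∫ z, g z * h z : ℝ) : ℂ) = ∫ z, ((g z * h z : ℝ) : ℂ) := integral_ofReal.symm
  rw [e]
  refine integral_congr_ae ?_
  filter_upwards [coeFn_toL2 g hg, coeFn_toL2 h hh] with z hz1 hz2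
  rw [hz1, hz2, Complex.conj_ofReal]
  push_cast; rfl

/-- Existence of a real square-integrable function with prescribed Fourier coefficients. -/
theorem exists_of_fc (a : (Fin 2 → ℤ) → ℂ) (ha : Summable (fun k => ‖a k‖ ^ 2))
    (hreal : ∀ k, a (-k) = conj (a k)) :
    ∃ g : T2 → ℝ, StronglyMeasurable g ∧ MemLp g 2 (volume : Measure T2) ∧ ∀ k, fc g k = a k := by
  have hmem : Memℓp a 2 := by
    apply memℓp_gen
    simpa using ha
  let x : lp (fun _ : (Fin 2 → ℤ) => ℂ) 2 := ⟨a, hmem⟩
  let f : Lp ℂ 2 (volume : Measure T2) := (UnitAddTorus.mFourierBasis (d := Fin 2)).repr.symm x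
  have hf : ∀ k, UnitAddTorus.mFourierCoeff f k = a k := by
    intro k
    rw [← UnitAddTorus.mFourierBasis_repr]
    simp [f, x]
  have hfi : Integrable f (volume : Measure T2) := (Lp.memLp f).integrable (by norm_num)
  refine ⟨fun z => (f z).re, Complex.measurable_re.comp (Lp.stronglyMeasurable f).measurable
    |>.stronglyMeasurable, (Lp.memLp f).re, fun k => ?_⟩
  rw [fc_eq]
  have h1 : ∀ z, UnitAddTorus.mFourier (-k) z * (((f z).re : ℝ) : ℂ) =
      (1 / 2 : ℂ) * (UnitAddTorus.mFourier (-k) z * f z) +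
      (1 / 2 : ℂ) * conj (UnitAddTorus.mFourier k z * f z) := by
    intro z
    rw [Complex.re_eq_add_conj, map_mul, ← UnitAddTorus.mFourier_neg]
    ring
  simp_rw [h1]
  have hint : ∀ m : Fin 2 → ℤ, Integrable (fun z => UnitAddTorus.mFourier m z * f z) := by
    intro m
    refine hfi.bdd_mul (c := 1) (UnitAddTorus.mFourier m).continuous.aestronglyMeasurable ?_
    refine Eventually.of_forall (fun z => ?_)
    calc ‖UnitAddTorus.mFourier m z‖ ≤ ‖UnitAddTorus.mFourier m‖ :=
          (UnitAddTorus.mFourier m).norm_coe_le_norm z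
      _ = 1 := UnitAddTorus.mFourier_norm
  have hintc : Integrable (fun z => conj (UnitAddTorus.mFourier k z * f z)) := by
    exact (Complex.conjCLE.toContinuousLinearMap.integrable_comp (hint k))
  rw [integral_add ((hint _).const_mul _) (hintc.const_mul _), integral_const_mul,
    integral_const_mul, integral_conj]
  have e1 : ∫ z, UnitAddTorus.mFourier (-k) z * f z = a k := hf k
  have e2 : ∫ z, UnitAddTorus.mFourier k z * f z = a (-k) := by
    have := hf (-k)
    unfold UnitAddTorus.mFourierCoeff at this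
    rw [neg_neg] at this
    exact this
  rw [e1, e2, hreal, Complex.conj_conj]
  ring

/-- A square-integrable function with absolutely summable Fourier coefficients is bounded. -/
theorem ae_abs_le_of_summable {g : T2 → ℝ} (hg : MemLp g 2 (volume : Measure T2))
    (hs : Summable (fun k => ‖fc g k‖)) : ∀ᵐ z ∂(volume : Measure T2), |g z| ≤ ∑' k, ‖fc g k‖ := by
  have hsC : Summable (fun k => fc g k • UnitAddTorus.mFourier k : (Fin 2 → ℤ) → C(T2, ℂ)) := by
    refine Summable.of_norm ?_
    simpa only [norm_smul, UnitAddTorus.mFourier_norm, mul_one] using hs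
  obtain ⟨h, hh⟩ := hsC
  have h1 := UnitAddTorus.hasSum_mFourier_series_L2 (toL2 g hg)
  simp only [mFourierCoeff_toL2] at h1
  have h2 := (ContinuousMap.toLp (E := ℂ) 2 (volume : Measure T2) ℂ).hasSum hh
  simp only [map_smul] at h2
  have h3 : ContinuousMap.toLp (E := ℂ) 2 (volume : Measure T2) ℂ h = toL2 g hg :=
    h2.unique h1
  have h4 : (fun z => (g z : ℂ)) =ᵐ[volume] h := by
    refine (coeFn_toL2 g hg).symm.trans ?_
    rw [← h3]
    exact ContinuousMap.coeFn_toLp _ _
  have h5 : ‖h‖ ≤ ∑' k, ‖fc g k‖ := by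
    rw [← hh.tsum_eq]
    refine (norm_tsum_le_tsum_norm ?_).trans (le_of_eq ?_)
    · simpa only [norm_smul, UnitAddTorus.mFourier_norm, mul_one] using hs
    · simp only [norm_smul, UnitAddTorus.mFourier_norm, mul_one]
  filter_upwards [h4] with z hz
  calc |g z| = ‖(g z : ℂ)‖ := by rw [Complex.norm_real, Real.norm_eq_abs]
    _ = ‖h z‖ := by rw [hz]
    _ ≤ ‖h‖ := h.norm_coe_le_norm z
    _ ≤ _ := h5

end Pool.Agent.H88
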