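import Mathlib
import Pool.Agent.H88.Torus

open MeasureTheory Set Filter Topology
open scoped ComplexConjugate ENNReal

noncomputable section

namespace Pool.Agent.H88

attribute [local instance] circleMS circleHaar circleProb

/-- The representative in `[0,1)` of a point of the circle. -/
def rep (x : UnitAddCircle) : ℝ := (AddCircle.equivIco 1 0 x : ℝ)

theorem rep_mem (x : UnitAddCircle) : rep x ∈ Ico (0 : ℝ) 1 := by
  have h := (AddCircle.equivIco 1 0 x).2
  exact ⟨h.1, lt_of_lt_of_eq h.2 (zero_add 1)⟩

theorem coe_rep (x : UnitAddCircle) : ((rep x : ℝ) : UnitAddCircle) = x :=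
  AddCircle.coe_equivIco

theorem rep_coe {x : ℝ} (hx : x ∈ Ico (0 : ℝ) 1) : rep (x : UnitAddCircle) = x := by
  unfold rep
  rw [AddCircle.equivIco_coe_of_mem]
  rwa [zero_add]

theorem measurable_rep : Measurable rep :=
  measurable_subtype_coe.comp (AddCircle.measurableEquivIco 1 0).measurable

theorem measurePreserving_rep :
    MeasurePreserving rep (volume : Measure UnitAddCircle) (volume.restrict (Ico (0 : ℝ) 1)) := by
  refine ⟨measurable_rep, ?_⟩
  have h1 := (AddCircle.measurePreserving_mk 1 0).map_eq
  have h2 : (volume : Measure UnitAddCircle) =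
      Measure.map (fun x : ℝ => (x : UnitAddCircle)) (volume.restrict (Ico (0 : ℝ) 1)) := by
    rw [AddCircle.volume_eq_smul_haarAddCircle, ENNReal.ofReal_one, one_smul, zero_add] at h1
    rw [Measure.restrict_congr_set Ico_ae_eq_Ioc]
    exact h1.symm
  rw [h2, Measure.map_map measurable_rep AddCircle.measurable_mk']
  have h3 : (rep ∘ fun x : ℝ => (x : UnitAddCircle)) =ᵐ[volume.restrict (Ico (0 : ℝ) 1)] id := by
    filter_upwards [ae_restrict_mem measurableSet_Ico] with x hx
    exact rep_coe hx
  rw [Measure.map_congr h3, Measure.map_id]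

theorem measurableEmbedding_rep : MeasurableEmbedding rep :=
  (MeasurableEmbedding.subtype_coe measurableSet_Ico).comp
    (AddCircle.measurableEquivIco 1 0).measurableEmbedding

/-- The section of the covering of the torus with values in the unit square. -/
def sec (z : T2) : ℝ × ℝ := (rep (z 0), rep (z 1))

theorem measurePreserving_sec :
    MeasurePreserving sec (volume : Measure T2)
      (volume.restrict (Ico (0 : ℝ) 1 ×ˢ Ico (0 : ℝ) 1)) := by
  have h1 : MeasurePreserving (Prod.map rep rep)
      ((volume : Measure UnitAddCircle).prod (volume : Measure UnitAddCircle))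
      ((volume.restrict (Ico (0 : ℝ) 1)).prod (volume.restrict (Ico (0 : ℝ) 1))) :=
    measurePreserving_rep.prod measurePreserving_rep
  have h2 := volume_preserving_finTwoArrow UnitAddCircle
  rw [Measure.prod_restrict] at h1
  exact h1.comp h2

theorem measurableEmbedding_sec : MeasurableEmbedding sec :=
  (measurableEmbedding_rep.prodMap measurableEmbedding_rep).comp
    (MeasurableEquiv.finTwoArrow (α := UnitAddCircle)).measurableEmbedding

end Pool.Agent.H88
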