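import Mathlib
import Pool.Agent.H88.Torus
import Pool.Agent.H88.Section

open MeasureTheory Set Filter Topology
open scoped ComplexConjugate ENNReal

noncomputable section

namespace Pool.Agent.H88

attribute [local instance] circleMS circleHaar circleProb

/-- First coordinate of a point of the torus, as a number in `[0,1)`. -/
def s0 (z : T2) : ℝ := rep (z 0)

theorem measurePreserving_s0 :
    MeasurePreserving s0 (volume : Measure T2) (volume.restrict (Ico (0 : ℝ) 1)) := by
  have h := measurePreserving_eval (fun _ : Fin 2 => (volume : Measure UnitAddCircle)) 0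
  exact measurePreserving_rep.comp h

theorem s0_mem (z : T2) : s0 z ∈ Ico (0 : ℝ) 1 := rep_mem _

theorem mFourier_eq_exp (k : Fin 2 → ℤ) (z : T2) :
    UnitAddTorus.mFourier k z =
      Complex.exp (2 * Real.pi * Complex.I * (k 0) * (rep (z 0))) *
      Complex.exp (2 * Real.pi * Complex.I * (k 1) * (rep (z 1))) := by
  change ∏ i, fourier (k i) (z i) = _
  rw [Fin.prod_univ_two]
  conv_lhs => rw [← coe_rep (z 0), ← coe_rep (z 1)]
  rw [fourier_coe_apply, fourier_coe_apply]
  simp

/-- The cumulative mass function. -/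
def cumul (lam : ℝ) (f : T2 → ℝ) (x : ℝ) : ℝ := lam * ∫ z in {z : T2 | s0 z < x}, f z

theorem measurableSet_s0_lt (x : ℝ) : MeasurableSet {z : T2 | s0 z < x} :=
  measurableSet_lt measurePreserving_s0.measurable measurable_const

theorem cumul_mono {lam : ℝ} (hlam : 0 ≤ lam) {f : T2 → ℝ} (hf : Integrable f)
    (hf0 : 0 ≤ᵐ[volume] f) : Monotone (cumul lam f) := by
  intro x y hxy
  unfold cumul
  refine mul_le_mul_of_nonneg_left ?_ hlam
  refine setIntegral_mono_set hf.integrableOn (ae_restrict_of_ae hf0) ?_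
  have hsub : {z : T2 | s0 z < x} ⊆ {z : T2 | s0 z < y} := by
    intro z hz
    exact lt_of_lt_of_le hz hxy
  exact LE.le.eventuallyLE hsub

theorem cumul_sub_eq {lam : ℝ} {f : T2 → ℝ} (hf : Integrable f) {x y : ℝ} (hxy : x ≤ y) :
    cumul lam f y - cumul lam f x = lam * ∫ z in {z : T2 | x ≤ s0 z ∧ s0 z < y}, f z := by
  unfold cumul
  rw [← mul_sub]
  congr 1
  have hdisj : Disjoint {z : T2 | s0 z < x} {z : T2 | x ≤ s0 z ∧ s0 z < y} := by
    rw [Set.disjoint_left]
    intro z hz1 hz2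
    exact absurd hz1 (not_lt.mpr hz2.1)
  have hU : {z : T2 | s0 z < y} = {z : T2 | s0 z < x} ∪ {z : T2 | x ≤ s0 z ∧ s0 z < y} := by
    ext z
    simp only [mem_ofPred_eq, mem_union]
    constructor
    · intro h
      rcases lt_or_ge (s0 z) x with h1 | h1
      · exact Or.inl h1
      · exact Or.inr ⟨h1, h⟩
    · rintro (h | h)
      · exact lt_of_lt_of_le h hxy
      · exact h.2
  rw [hU, setIntegral_union hdisj ((measurableSet_le measurable_const
    measurePreserving_s0.measurable).inter (measurableSet_s0_lt y)) hf.integrableOn hf.integrableOn]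
  ring

theorem measure_strip (x y : ℝ) :
    (volume : Measure T2).real {z : T2 | x ≤ s0 z ∧ s0 z < y} ≤ max (y - x) 0 := by
  have h1 : (volume : Measure T2) {z : T2 | x ≤ s0 z ∧ s0 z < y} =
      (volume.restrict (Ico (0 : ℝ) 1)) (Ico x y) := by
    rw [← measurePreserving_s0.measure_preimage measurableSet_Ico.nullMeasurableSet]
    rfl
  have h2 : (volume : Measure T2) {z : T2 | x ≤ s0 z ∧ s0 z < y} ≤ ENNReal.ofReal (y - x) := by
    rw [h1]
    refine (Measure.restrict_apply_le _ _).trans ?_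
    rw [Real.volume_Ico]
  unfold Measure.real
  refine (ENNReal.toReal_mono ENNReal.ofReal_ne_top h2).trans ?_
  rw [ENNReal.toReal_ofReal']

theorem cumul_lip {lam : ℝ} (hlam : 0 ≤ lam) {f : T2 → ℝ} (hf : Integrable f)
    (hf1 : ∀ᵐ z ∂(volume : Measure T2), f z ≤ 1 / 4) {x y : ℝ} (hxy : x ≤ y) :
    cumul lam f y - cumul lam f x ≤ lam / 4 * (y - x) := by
  rw [cumul_sub_eq hf hxy]
  have h1 : ∫ z in {z : T2 | x ≤ s0 z ∧ s0 z < y}, f z ≤ 1 / 4 * (y - x) := by
    calc ∫ z in {z : T2 | x ≤ s0 z ∧ s0 z < y}, f z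
        ≤ ∫ z in {z : T2 | x ≤ s0 z ∧ s0 z < y}, (1 / 4 : ℝ) := by
          refine setIntegral_mono_ae hf.integrableOn (integrable_const _).integrableOn hf1
      _ = (volume : Measure T2).real {z : T2 | x ≤ s0 z ∧ s0 z < y} * (1 / 4) := by
          rw [setIntegral_const, smul_eq_mul]
      _ ≤ max (y - x) 0 * (1 / 4) := mul_le_mul_of_nonneg_right (measure_strip x y) (by norm_num)
      _ = 1 / 4 * (y - x) := by rw [max_eq_left (by linarith)]; ring
  calc lam * ∫ z in {z : T2 | x ≤ s0 z ∧ s0 z < y}, f z ≤ lam * (1 / 4 * (y - x)) :=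
        mul_le_mul_of_nonneg_left h1 hlam
    _ = _ := by ring

theorem cumul_continuous {lam : ℝ} (hlam : 0 ≤ lam) {f : T2 → ℝ} (hf : Integrable f)
    (hf0 : 0 ≤ᵐ[volume] f)
    (hf1 : ∀ᵐ z ∂(volume : Measure T2), f z ≤ 1 / 4) : Continuous (cumul lam f) := by
  have hL : LipschitzWith (Real.toNNReal (lam / 4)) (cumul lam f) := by
    refine LipschitzWith.of_dist_le_mul (fun x y => ?_)
    rw [Real.coe_toNNReal _ (by linarith), Real.dist_eq, Real.dist_eq]
    rcases le_total x y with h | h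
    · have h1 := cumul_lip hlam hf hf1 h
      have h2 := cumul_mono hlam hf hf0 h
      rw [abs_sub_comm, abs_sub_comm x y, abs_of_nonneg (by linarith), abs_of_nonneg (by linarith)]
      exact h1
    · have h1 := cumul_lip hlam hf hf1 h
      have h2 := cumul_mono hlam hf hf0 h
      rw [abs_of_nonneg (by linarith), abs_of_nonneg (by linarith)]
      exact h1
  exact hL.continuous

theorem cumul_zero {lam : ℝ} {f : T2 → ℝ} : cumul lam f 0 = 0 := by
  unfold cumul
  have : {z : T2 | s0 z < 0} = ∅ := by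
    ext z
    simp only [mem_ofPred_eq, mem_empty_iff_false, iff_false, not_lt]
    exact (s0_mem z).1
  rw [this]; simp

theorem cumul_one {lam : ℝ} {f : T2 → ℝ} : cumul lam f 1 = lam * ∫ z, f z := by
  unfold cumul
  have : {z : T2 | s0 z < 1} = univ := by
    ext z
    simp only [mem_ofPred_eq, mem_univ, iff_true]
    exact (s0_mem z).2
  rw [this]; simp

/-- Fourier-type integral of the cumulative mass function. -/
theorem integral_exp_cumul {lam : ℝ} {f : T2 → ℝ} (hf : Integrable f) {w : ℂ} (hw : w ≠ 0) :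
    ∫ x in (0 : ℝ)..1, Complex.exp (w * x) * (cumul lam f x : ℂ) =
      (lam : ℂ) / w * ∫ z, (f z : ℂ) * (Complex.exp w - Complex.exp (w * (s0 z))) := by
  have hm : MeasurableSet {p : ℝ × T2 | s0 p.2 < p.1} :=
    measurableSet_lt (measurePreserving_s0.measurable.comp measurable_snd) measurable_fst
  -- product integrand
  let F : ℝ → T2 → ℂ := fun x z => Complex.exp (w * x) *
    ({p : ℝ × T2 | s0 p.2 < p.1}.indicator (fun p => (f p.2 : ℂ)) (x, z))
  have hFint : Integrable (Function.uncurry F) ((volume.restrict (Ioc (0 : ℝ) 1)).prod volume) := by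
    have h1 : Integrable (fun p : ℝ × T2 => ({p : ℝ × T2 | s0 p.2 < p.1}.indicator
        (fun p => (f p.2 : ℂ)) p)) ((volume.restrict (Ioc (0 : ℝ) 1)).prod volume) := by
      refine Integrable.indicator ?_ hm
      have hfc : Integrable (fun z => (f z : ℂ)) (volume : Measure T2) := hf.ofReal
      exact hfc.comp_snd _
    have hbound : ∀ᵐ p ∂((volume.restrict (Ioc (0 : ℝ) 1)).prod (volume : Measure T2)),
        ‖Complex.exp (w * (p.1 : ℝ))‖ ≤ Real.exp ‖w‖ := by
      have hae : ∀ᵐ p ∂((volume.restrict (Ioc (0 : ℝ) 1)).prod (volume : Measure T2)),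
          p.1 ∈ Ioc (0 : ℝ) 1 := by
        have : ∀ᵐ x ∂(volume.restrict (Ioc (0 : ℝ) 1)), x ∈ Ioc (0 : ℝ) 1 :=
          ae_restrict_mem measurableSet_Ioc
        exact Measure.quasiMeasurePreserving_fst.ae this
      filter_upwards [hae] with p hp
      rw [Complex.norm_exp]
      refine Real.exp_le_exp.mpr ?_
      calc (w * (p.1 : ℝ)).re ≤ ‖w * (p.1 : ℝ)‖ := Complex.re_le_norm _
        _ = ‖w‖ * |p.1| := by rw [norm_mul, Complex.norm_real, Real.norm_eq_abs]
        _ ≤ ‖w‖ * 1 := by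
            refine mul_le_mul_of_nonneg_left ?_ (norm_nonneg _)
            rw [abs_of_pos hp.1]; exact hp.2
        _ = ‖w‖ := mul_one _
    have h2 := h1.bdd_mul (c := Real.exp ‖w‖) (f := fun p : ℝ × T2 => Complex.exp (w * (p.1 : ℝ)))
      (by fun_prop) hbound
    exact h2
  have hswap := integral_integral_swap hFint
  have hL : ∫ x in (0 : ℝ)..1, Complex.exp (w * x) * (cumul lam f x : ℂ) =
      (lam : ℂ) * ∫ x in Ioc (0 : ℝ) 1, ∫ z, F x z := by
    rw [intervalIntegral.integral_of_le zero_le_one, ← integral_const_mul]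
    refine integral_congr_ae (Eventually.of_forall (fun x => ?_))
    simp only [F]
    rw [integral_const_mul]
    have h3 : ∫ z : T2, ({p : ℝ × T2 | s0 p.2 < p.1}.indicator (fun p => (f p.2 : ℂ)) (x, z)) =
        ((∫ z in {z : T2 | s0 z < x}, f z : ℝ) : ℂ) := by
      have e : ((∫ z in {z : T2 | s0 z < x}, f z : ℝ) : ℂ) =
          ∫ z in {z : T2 | s0 z < x}, (f z : ℂ) := integral_ofReal.symm
      rw [e, ← integral_indicator (measurableSet_s0_lt x)]
      refine integral_congr_ae (Eventually.of_forall (fun z => ?_))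
      simp only [indicator, mem_ofPred_eq]
    rw [h3]
    unfold cumul
    push_cast
    ring
  rw [hL, hswap, div_mul_eq_mul_div, mul_div_assoc, ← integral_div]
  congr 1
  refine integral_congr_ae (Eventually.of_forall (fun z => ?_))
  simp only [F]
  have h4 : ∫ x in Ioc (0 : ℝ) 1, Complex.exp (w * x) *
      ({p : ℝ × T2 | s0 p.2 < p.1}.indicator (fun p => (f p.2 : ℂ)) (x, z)) =
      ∫ x in Ioc (s0 z) 1, Complex.exp (w * x) * (f z : ℂ) := by
    have hz := s0_mem z
    rw [← integral_indicator measurableSet_Ioc, ← integral_indicator measurableSet_Ioc]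
    refine integral_congr_ae (Eventually.of_forall (fun x => ?_))
    simp only [indicator, mem_Ioc, mem_ofPred_eq]
    by_cases h5 : s0 z < x
    · by_cases h6 : x ≤ 1
      · have h7 : 0 < x := lt_of_le_of_lt hz.1 h5
        simp [h5, h6, h7]
      · simp [h6]
    · simp [h5]
  rw [h4, integral_mul_const, ← intervalIntegral.integral_of_le (s0_mem z).2.le,
    integral_exp_mul_complex hw]
  simp only [Complex.ofReal_one, mul_one]
  ring


theorem integral_torus_eq {E : Type*} [NormedAddCommGroup E] [NormedSpace ℝ E] (F : ℝ × ℝ → E) :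
    ∫ z : T2, F (sec z) = ∫ p in Ico (0 : ℝ) 1 ×ˢ Ico (0 : ℝ) 1, F p :=
  measurePreserving_sec.integral_comp measurableEmbedding_sec F

theorem integral_exp_unit {w : ℂ} (hw : w ≠ 0) (he : Complex.exp w = 1) :
    ∫ x in (0 : ℝ)..1, Complex.exp (w * x) = 0 := by
  rw [integral_exp_mul_complex hw]
  simp [he]

theorem fc_s0 {γ : ℝ → ℝ} (k : Fin 2 → ℤ) :
    fc (fun z => γ (s0 z)) k = if k 1 = 0 then
      ∫ x in (0 : ℝ)..1, Complex.exp (-(2 * Real.pi * Complex.I * (k 0)) * x) * (γ x : ℂ) else 0 := by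
  have h1 : fc (fun z => γ (s0 z)) k = ∫ z : T2, (fun p : ℝ × ℝ =>
      (Complex.exp (-(2 * Real.pi * Complex.I * (k 0)) * p.1) * (γ p.1 : ℂ)) *
      Complex.exp (-(2 * Real.pi * Complex.I * (k 1)) * p.2)) (sec z) := by
    rw [fc_eq]
    refine integral_congr_ae (Eventually.of_forall (fun z => ?_))
    simp only [mFourier_eq_exp, sec, s0, Pi.neg_apply, Int.cast_neg]
    ring_nf
  have h2 := integral_torus_eq (fun p : ℝ × ℝ =>
      (Complex.exp (-(2 * Real.pi * Complex.I * (k 0)) * p.1) * (γ p.1 : ℂ)) *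
      Complex.exp (-(2 * Real.pi * Complex.I * (k 1)) * p.2))
  rw [h1, h2, Measure.volume_eq_prod, setIntegral_prod_mul (fun x : ℝ =>
    Complex.exp (-(2 * Real.pi * Complex.I * (k 0)) * x) * (γ x : ℂ))
    (fun y : ℝ => Complex.exp (-(2 * Real.pi * Complex.I * (k 1)) * y)),
    integral_Ico_eq_integral_Ioc, integral_Ico_eq_integral_Ioc,
    ← intervalIntegral.integral_of_le zero_le_one, ← intervalIntegral.integral_of_le zero_le_one]
  split_ifs with hk
  · rw [hk]; simp
  · rw [integral_exp_unit, mul_zero]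
    · rw [neg_ne_zero]
      have : (k 1 : ℂ) ≠ 0 := by exact_mod_cast hk
      have hpi : (Real.pi : ℂ) ≠ 0 := by exact_mod_cast Real.pi_ne_zero
      simp [this, hpi, Complex.I_ne_zero]
    · rw [Complex.exp_eq_one_iff]
      exact ⟨-(k 1), by push_cast; ring⟩

/-- The primitive of the cumulative mass function. -/
def cumul2 (lam : ℝ) (f : T2 → ℝ) (x : ℝ) : ℝ := ∫ t in (0 : ℝ)..x, cumul lam f t

theorem hasDerivAt_cumul2 {lam : ℝ} {f : T2 → ℝ} (hc : Continuous (cumul lam f)) (x : ℝ) :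
    HasDerivAt (cumul2 lam f) (cumul lam f x) x :=
  intervalIntegral.integral_hasDerivAt_right (hc.intervalIntegrable _ _)
    hc.aestronglyMeasurable.stronglyMeasurableAtFilter hc.continuousAt

theorem fc_cumul2 {lam : ℝ} {f : T2 → ℝ} (hf : Integrable f) (hc : Continuous (cumul lam f))
    {k : Fin 2 → ℤ} (hk1 : k 1 = 0) (hk0 : k 0 ≠ 0) :
    fc (fun z => cumul2 lam f (s0 z) - cumul2 lam f 1 * s0 z) k =
      ((1 / (2 * Real.pi * (k 0)) ^ 2 : ℝ) : ℂ) * (lam * fc f 0 - lam * fc f k) := by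
  rw [fc_s0 (γ := fun x => cumul2 lam f x - cumul2 lam f 1 * x), if_pos hk1]
  set w : ℂ := -(2 * Real.pi * Complex.I * (k 0)) with hwdef
  have hk0' : (k 0 : ℂ) ≠ 0 := by exact_mod_cast hk0
  have hpi : (Real.pi : ℂ) ≠ 0 := by exact_mod_cast Real.pi_ne_zero
  have hw : w ≠ 0 := by
    rw [hwdef, neg_ne_zero]
    simp [hk0', hpi, Complex.I_ne_zero]
  have he : Complex.exp w = 1 := by
    rw [Complex.exp_eq_one_iff]
    exact ⟨-(k 0), by rw [hwdef]; push_cast; ring⟩
  have hΦ : ∀ x, HasDerivAt (cumul2 lam f) (cumul lam f x) x := hasDerivAt_cumul2 hc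
  set β : ℝ := cumul2 lam f 1 with hβ
  have hu : ∀ x ∈ uIcc (0 : ℝ) 1, HasDerivAt (fun x : ℝ => ((cumul2 lam f x - β * x : ℝ) : ℂ))
      ((cumul lam f x - β : ℝ) : ℂ) x := by
    intro x _
    have h1 : HasDerivAt (fun x : ℝ => cumul2 lam f x - β * x) (cumul lam f x - β * 1) x :=
      (hΦ x).sub ((hasDerivAt_id x).const_mul β)
    rw [mul_one] at h1
    exact h1.ofReal_comp
  have hv : ∀ x ∈ uIcc (0 : ℝ) 1, HasDerivAt (fun x : ℝ => Complex.exp (w * x) / w)
      (Complex.exp (w * x)) x := by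
    intro x _
    have h1 : HasDerivAt (fun x : ℝ => w * (x : ℂ)) w x := by
      simpa using (Complex.ofRealCLM.hasDerivAt (x := x)).const_mul w
    have h2 := h1.cexp.div_const w
    rwa [mul_div_assoc, div_self hw, mul_one] at h2
  have hint1 : IntervalIntegrable (fun x : ℝ => ((cumul lam f x - β : ℝ) : ℂ)) volume 0 1 := by
    apply Continuous.intervalIntegrable; fun_prop
  have hint2 : IntervalIntegrable (fun x : ℝ => Complex.exp (w * x)) volume 0 1 := by
    apply Continuous.intervalIntegrable; fun_prop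
  have hibp := intervalIntegral.integral_mul_deriv_eq_deriv_mul hu hv hint1 hint2
  have h00 : cumul2 lam f 0 = 0 := by simp [cumul2]
  have hbdry : ((cumul2 lam f 1 - β * 1 : ℝ) : ℂ) = 0 := by rw [← hβ]; simp
  have hbdry0 : ((cumul2 lam f 0 - β * 0 : ℝ) : ℂ) = 0 := by rw [h00]; simp
  rw [hbdry, hbdry0, zero_mul, zero_mul, sub_zero, zero_sub] at hibp
  have e1 : ∫ x in (0 : ℝ)..1, Complex.exp (w * x) * ((cumul2 lam f x - β * x : ℝ) : ℂ) =
      ∫ x in (0 : ℝ)..1, ((cumul2 lam f x - β * x : ℝ) : ℂ) * Complex.exp (w * x) := by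
    congr 1; funext x; ring
  rw [e1, hibp]
  have hint3 : IntervalIntegrable (fun x : ℝ => Complex.exp (w * x) * (cumul lam f x : ℂ)) volume 0 1 := by
    apply Continuous.intervalIntegrable; fun_prop
  have e2 : ∫ x in (0 : ℝ)..1, ((cumul lam f x - β : ℝ) : ℂ) * (Complex.exp (w * x) / w) =
      (1 / w) * ((∫ x in (0 : ℝ)..1, Complex.exp (w * x) * (cumul lam f x : ℂ)) -
        β * ∫ x in (0 : ℝ)..1, Complex.exp (w * x)) := by
    rw [← intervalIntegral.integral_const_mul, ← intervalIntegral.integral_sub hint3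
      (hint2.const_mul _), ← intervalIntegral.integral_const_mul]
    congr 1; funext x; push_cast; ring
  rw [e2, integral_exp_unit hw he, integral_exp_cumul hf hw, he]
  have e3 : ∫ z, (f z : ℂ) * (1 - Complex.exp (w * (s0 z))) = fc f 0 - fc f k := by
    rw [fc_eq, fc_eq, ← integral_sub (integrable_mFourier_mul hf _) (integrable_mFourier_mul hf _)]
    refine integral_congr_ae (Eventually.of_forall (fun z => ?_))
    simp only [neg_zero, UnitAddTorus.mFourier_zero, ContinuousMap.one_apply]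
    rw [mFourier_eq_exp]
    simp only [Pi.neg_apply, hk1, Int.cast_neg, neg_zero, Int.cast_zero, mul_zero, zero_mul,
      Complex.exp_zero, mul_one]
    have : 2 * Real.pi * Complex.I * (-(k 0 : ℂ)) * (rep (z 0)) = w * (s0 z) := by
      rw [hwdef]; unfold s0; ring
    rw [this]
    ring
  rw [e3]
  have hw2 : w ^ 2 = -((2 * Real.pi * (k 0)) ^ 2 : ℂ) := by
    rw [hwdef]; ring_nf; rw [Complex.I_sq]; ring
  have h5 : ((2 * Real.pi * (k 0)) ^ 2 : ℂ) ≠ 0 := by
    have : (2 * Real.pi * (k 0) : ℂ) ≠ 0 := by simp [hpi, hk0']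
    exact pow_ne_zero 2 this
  have h6 : (1 / w) * ((lam : ℂ) / w * (fc f 0 - fc f k)) = (1 / w ^ 2) * (lam * (fc f 0 - fc f k)) := by
    field_simp
  rw [mul_zero, sub_zero, h6, hw2]
  push_cast
  field_simp

end Pool.Agent.H88
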