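import Mathlib
import Pool.Agent.H88.CSDefs
import Pool.Agent.H88.Torus
import Pool.Agent.H88.Section
import Pool.Agent.H88.OneDim

open MeasureTheory Set Filter Topology
open scoped ComplexConjugate ENNReal ContDiff

noncomputable section

namespace Pool.Agent.H88.CS

attribute [local instance] circleMS circleHaar circleProb

theorem IsTest.dx {a b : ℝ × ℝ} {φ : ℝ × ℝ → ℝ} (h : IsTest a b φ) : IsTest a b (dx φ) := by
  obtain ⟨hs, hp⟩ := h
  refine ⟨?_, ?_⟩
  · unfold CS.dx
    exact (hs.fderiv_right (m := ∞) (by norm_cast)).clm_apply contDiff_const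
  · have key : ∀ c : ℝ × ℝ, (∀ z, φ (z + c) = φ z) → ∀ z, CS.dx φ (z + c) = CS.dx φ z := by
      intro c hc z
      unfold CS.dx
      have h1 : fderiv ℝ (fun w => φ (w + c)) z = fderiv ℝ φ (z + c) := fderiv_comp_add_right c
      have h2 : (fun w => φ (w + c)) = φ := funext hc
      rw [← h1, h2]
    exact ⟨key a hp.1, key b hp.2⟩

theorem IsTest.dy {a b : ℝ × ℝ} {φ : ℝ × ℝ → ℝ} (h : IsTest a b φ) : IsTest a b (dy φ) := by
  obtain ⟨hs, hp⟩ := h
  refine ⟨?_, ?_⟩
  · unfold CS.dy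
    exact (hs.fderiv_right (m := ∞) (by norm_cast)).clm_apply contDiff_const
  · have key : ∀ c : ℝ × ℝ, (∀ z, φ (z + c) = φ z) → ∀ z, CS.dy φ (z + c) = CS.dy φ z := by
      intro c hc z
      unfold CS.dy
      have h1 : fderiv ℝ (fun w => φ (w + c)) z = fderiv ℝ φ (z + c) := fderiv_comp_add_right c
      have h2 : (fun w => φ (w + c)) = φ := funext hc
      rw [← h1, h2]
    exact ⟨key a hp.1, key b hp.2⟩

theorem IsTest.continuous {a b : ℝ × ℝ} {φ : ℝ × ℝ → ℝ} (h : IsTest a b φ) : Continuous φ :=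
  h.1.continuous

theorem IsTest.lap {a b : ℝ × ℝ} {φ : ℝ × ℝ → ℝ} (h : IsTest a b φ) : IsTest a b (lap φ) := by
  have h1 := h.dx.dx
  have h2 := h.dy.dy
  refine ⟨h1.1.add h2.1, ?_, ?_⟩
  · intro z; unfold CS.lap; rw [h1.2.1, h2.2.1]
  · intro z; unfold CS.lap; rw [h1.2.2, h2.2.2]

theorem cell_eq {r : ℝ} (hr : 0 < r) : cell (r, 0) (0, 1) = Ico 0 r ×ˢ Ico 0 1 := by
  ext ⟨x, y⟩
  simp only [cell, mem_ofPred_eq, mem_prod, mem_Ico, Prod.smul_mk, smul_eq_mul, mul_zero, mul_one,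
    Prod.mk_add_mk, add_zero, zero_add, Prod.mk.injEq]
  constructor
  · rintro ⟨s, ⟨hs0, hs1⟩, t, ⟨ht0, ht1⟩, rfl, rfl⟩
    exact ⟨⟨by positivity, by nlinarith⟩, ht0, ht1⟩
  · rintro ⟨⟨hx0, hx1⟩, hy0, hy1⟩
    refine ⟨x / r, ⟨by positivity, by rwa [div_lt_one hr]⟩, y, ⟨hy0, hy1⟩, ?_, rfl⟩
    field_simp

theorem area_eq {r : ℝ} (hr : 0 < r) : area (r, 0) (0, 1) = r := by
  unfold area
  rw [cell_eq hr, Measure.volume_eq_prod, Measure.prod_prod, Real.volume_Ico, Real.volume_Ico]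
  simp [hr.le]

theorem measurableSet_cell {r : ℝ} (hr : 0 < r) : MeasurableSet (cell (r, 0) (0, 1)) := by
  rw [cell_eq hr]
  exact measurableSet_Ico.prod measurableSet_Ico

/-- The scaled section of the covering of the torus, with values in `[0,r) × [0,1)`. -/
def secr (r : ℝ) (z : T2) : ℝ × ℝ := (r * rep (z 0), rep (z 1))

theorem measurePreserving_mul {r : ℝ} (hr : 0 < r) :
    MeasurePreserving (fun x : ℝ => r * x) (volume.restrict (Ico (0 : ℝ) 1))
      (ENNReal.ofReal (r⁻¹) • volume.restrict (Ico (0 : ℝ) r)) := by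
  have h1 : MeasurePreserving (fun x : ℝ => r * x) volume (ENNReal.ofReal (r⁻¹) • volume) := by
    refine ⟨by fun_prop, ?_⟩
    rw [Real.map_volume_mul_left hr.ne', abs_of_pos (inv_pos.mpr hr)]
  have h2 := h1.restrict_preimage (s := Ico (0 : ℝ) r) measurableSet_Ico
  have h3 : (fun x : ℝ => r * x) ⁻¹' (Ico (0 : ℝ) r) = Ico (0 : ℝ) 1 := by
    ext x
    simp only [mem_preimage, mem_Ico]
    constructor
    · rintro ⟨ha, hb⟩
      exact ⟨nonneg_of_mul_nonneg_right ha hr, by nlinarith⟩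
    · rintro ⟨ha, hb⟩
      exact ⟨by positivity, by nlinarith⟩
  rw [h3, Measure.restrict_smul] at h2
  exact h2

theorem measurePreserving_secr {r : ℝ} (hr : 0 < r) :
    MeasurePreserving (secr r) (volume : Measure T2)
      (ENNReal.ofReal (r⁻¹) • volume.restrict (cell (r, 0) (0, 1))) := by
  have h1 : MeasurePreserving (Prod.map (fun x : ℝ => r * x) (id : ℝ → ℝ))
      ((volume.restrict (Ico (0 : ℝ) 1)).prod (volume.restrict (Ico (0 : ℝ) 1)))
      ((ENNReal.ofReal (r⁻¹) • volume.restrict (Ico (0 : ℝ) r)).prod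
        (volume.restrict (Ico (0 : ℝ) 1))) :=
    (measurePreserving_mul hr).prod (MeasurePreserving.id _)
  rw [Measure.prod_smul_left, Measure.prod_restrict, Measure.prod_restrict,
    ← Measure.volume_eq_prod, ← cell_eq hr] at h1
  exact h1.comp measurePreserving_sec

theorem measurableEmbedding_secr {r : ℝ} (hr : 0 < r) : MeasurableEmbedding (secr r) := by
  have h1 : MeasurableEmbedding (fun x : ℝ => r * x) :=
    (Homeomorph.mulLeft₀ r hr.ne').measurableEmbedding
  have h2 : MeasurableEmbedding (Prod.map (fun x : ℝ => r * x) (id : ℝ → ℝ)) :=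
    h1.prodMap MeasurableEmbedding.id
  exact h2.comp measurableEmbedding_sec

theorem integral_secr {E : Type*} [NormedAddCommGroup E] [NormedSpace ℝ E] {r : ℝ} (hr : 0 < r)
    (F : ℝ × ℝ → E) : ∫ z : T2, F (secr r z) = r⁻¹ • ∫ p in cell (r, 0) (0, 1), F p := by
  rw [(measurePreserving_secr hr).integral_comp (measurableEmbedding_secr hr) F,
    integral_smul_measure, ENNReal.toReal_ofReal (inv_pos.mpr hr).le]

theorem integrable_secr {E : Type*} [NormedAddCommGroup E] {r : ℝ} (hr : 0 < r)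
    {F : ℝ × ℝ → E} (hF : IntegrableOn F (cell (r, 0) (0, 1))) :
    Integrable (fun z : T2 => F (secr r z)) := by
  refine ((measurePreserving_secr hr).integrable_comp_emb (measurableEmbedding_secr hr)).mpr ?_
  exact hF.smul_measure ENNReal.ofReal_ne_top

/-- A test function is bounded on the cell. -/
theorem IsTest.exists_bound {r : ℝ} (hr : 0 < r) {φ : ℝ × ℝ → ℝ} (h : Continuous φ) :
    ∃ C, ∀ z ∈ cell (r, 0) (0, 1), ‖φ z‖ ≤ C := by
  have hK : IsCompact (Icc (0 : ℝ) r ×ˢ Icc (0 : ℝ) 1) := isCompact_Icc.prod isCompact_Icc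
  obtain ⟨C, hC⟩ := hK.exists_bound_of_continuousOn h.continuousOn
  refine ⟨C, fun z hz => hC z ?_⟩
  rw [cell_eq hr] at hz
  exact ⟨Ico_subset_Icc_self hz.1, Ico_subset_Icc_self hz.2⟩

theorem integrableOn_mul_cont {r : ℝ} (hr : 0 < r) {g φ : ℝ × ℝ → ℝ}
    (hg : IntegrableOn g (cell (r, 0) (0, 1))) (h : Continuous φ) :
    IntegrableOn (fun z => g z * φ z) (cell (r, 0) (0, 1)) := by
  obtain ⟨C, hC⟩ := IsTest.exists_bound hr h
  refine (hg.bdd_mul (c := C) (f := φ) h.aestronglyMeasurable ?_).congr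
    (Eventually.of_forall (fun z => mul_comm _ _))
  filter_upwards [ae_restrict_mem (measurableSet_cell hr)] with z hz
  exact hC z hz

instance isFiniteMeasure_cell (r : ℝ) [Fact (0 < r)] :
    IsFiniteMeasure (volume.restrict (cell (r, 0) (0, 1))) := by
  have hr : 0 < r := Fact.out
  refine ⟨?_⟩
  rw [Measure.restrict_apply_univ, cell_eq hr, Measure.volume_eq_prod, Measure.prod_prod,
    Real.volume_Ico, Real.volume_Ico]
  exact ENNReal.mul_lt_top ENNReal.ofReal_lt_top ENNReal.ofReal_lt_top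

/-- The equation for a solution tested against a test function. -/
theorem IsSolution.distrib {r : ℝ} (hr : 0 < r) {N : ℕ} {p : Fin N → ℝ × ℝ} {κ : ℝ}
    {u : ℝ × ℝ → ℝ} (h : IsSolution (r, 0) (0, 1) p κ u) :
    IntegrableOn u (cell (r, 0) (0, 1)) ∧
    IntegrableOn (fun z => Real.exp (u z) * (Real.exp (u z) - 1)) (cell (r, 0) (0, 1)) ∧
    ∀ φ, IsTest (r, 0) (0, 1) φ → ∫ z in cell (r, 0) (0, 1), u z * CS.lap φ z =
      4 / κ ^ 2 * (∫ z in cell (r, 0) (0, 1), (Real.exp (u z) * (Real.exp (u z) - 1)) * φ z) +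
      4 * Real.pi * ∑ j, φ (p j) := by
  obtain ⟨u₀, v, g₁, g₂, hb, hw, hu, hG, hweak⟩ := h
  have : Fact (0 < r) := ⟨hr⟩
  have hvi : IntegrableOn v (cell (r, 0) (0, 1)) := hw.memLp.integrable (by norm_num)
  have hg1i : IntegrableOn g₁ (cell (r, 0) (0, 1)) := hw.memLp₁.integrable (by norm_num)
  have hg2i : IntegrableOn g₂ (cell (r, 0) (0, 1)) := hw.memLp₂.integrable (by norm_num)
  have hue : u = fun z => u₀ z + v z := funext hu
  refine ⟨?_, hG, fun φ hφ => ?_⟩
  · rw [hue]; exact hb.integrable.add hvi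
  have e1 : ∫ z in cell (r, 0) (0, 1), u z * CS.lap φ z =
      (∫ z in cell (r, 0) (0, 1), u₀ z * CS.lap φ z) +
      ∫ z in cell (r, 0) (0, 1), v z * CS.lap φ z := by
    rw [← integral_add (integrableOn_mul_cont hr hb.integrable hφ.lap.continuous)
      (integrableOn_mul_cont hr hvi hφ.lap.continuous)]
    refine integral_congr_ae (Eventually.of_forall (fun z => ?_))
    simp only [hu]; ring
  have e2 : ∫ z in cell (r, 0) (0, 1), v z * CS.lap φ z =
      (∫ z in cell (r, 0) (0, 1), v z * CS.dx (CS.dx φ) z) +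
      ∫ z in cell (r, 0) (0, 1), v z * CS.dy (CS.dy φ) z := by
    rw [← integral_add (integrableOn_mul_cont hr hvi hφ.dx.dx.continuous)
      (integrableOn_mul_cont hr hvi hφ.dy.dy.continuous)]
    refine integral_congr_ae (Eventually.of_forall (fun z => ?_))
    simp only [CS.lap]; ring
  have e3 : ∫ z in cell (r, 0) (0, 1), (g₁ z * CS.dx φ z + g₂ z * CS.dy φ z) =
      (∫ z in cell (r, 0) (0, 1), g₁ z * CS.dx φ z) +
      ∫ z in cell (r, 0) (0, 1), g₂ z * CS.dy φ z :=
    integral_add (integrableOn_mul_cont hr hg1i hφ.dx.continuous)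
      (integrableOn_mul_cont hr hg2i hφ.dy.continuous)
  have e4 : ∫ z in cell (r, 0) (0, 1), (4 / κ ^ 2 * (Real.exp (u z) * (Real.exp (u z) - 1)) +
          4 * Real.pi * N / area (r, 0) (0, 1)) * φ z =
      4 / κ ^ 2 * (∫ z in cell (r, 0) (0, 1), (Real.exp (u z) * (Real.exp (u z) - 1)) * φ z) +
      4 * Real.pi * N / area (r, 0) (0, 1) * ∫ z in cell (r, 0) (0, 1), φ z := by
    have hφi : IntegrableOn φ (cell (r, 0) (0, 1)) := by
      have h1 : IntegrableOn (fun _ : ℝ × ℝ => (1 : ℝ)) (cell (r, 0) (0, 1)) := integrable_const _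
      have := integrableOn_mul_cont hr h1 hφ.continuous
      simpa using this
    rw [← integral_const_mul, ← integral_const_mul, ← integral_add
      ((integrableOn_mul_cont hr hG hφ.continuous).const_mul _) (hφi.const_mul _)]
    refine integral_congr_ae (Eventually.of_forall (fun z => ?_))
    simp only; ring
  have h5 := hweak φ hφ
  rw [e3, e4] at h5
  have h6 := hw.weak₁ _ hφ.dx
  have h7 := hw.weak₂ _ hφ.dy
  rw [e1, e2, hb.eqn φ hφ, h6, h7]
  linarith

/-- The phase of an exponential on the rectangular torus. -/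
def phase (r : ℝ) (k : Fin 2 → ℤ) (z : ℝ × ℝ) : ℝ :=
  2 * Real.pi * ((k 0 : ℝ) / r * z.1 + (k 1 : ℝ) * z.2)

theorem hasFDerivAt_phase (r : ℝ) (k : Fin 2 → ℤ) (z : ℝ × ℝ) :
    HasFDerivAt (phase r k) ((2 * Real.pi) • (((k 0 : ℝ) / r) • ContinuousLinearMap.fst ℝ ℝ ℝ +
      (k 1 : ℝ) • ContinuousLinearMap.snd ℝ ℝ ℝ)) z := by
  unfold phase
  exact ((hasFDerivAt_fst.const_mul _).add (hasFDerivAt_snd.const_mul _)).const_mul _

theorem dx_cos (r : ℝ) (k : Fin 2 → ℤ) : dx (fun z => Real.cos (phase r k z)) =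
    fun z => (2 * Real.pi * ((k 0 : ℝ) / r)) * (-Real.sin (phase r k z)) := by
  funext z
  unfold dx
  rw [((hasFDerivAt_phase r k z).cos).fderiv]
  simp
  ring

theorem dx_sin (r : ℝ) (k : Fin 2 → ℤ) : dx (fun z => Real.sin (phase r k z)) =
    fun z => (2 * Real.pi * ((k 0 : ℝ) / r)) * Real.cos (phase r k z) := by
  funext z
  unfold dx
  rw [((hasFDerivAt_phase r k z).sin).fderiv]
  simp
  ring

theorem dy_cos (r : ℝ) (k : Fin 2 → ℤ) : dy (fun z => Real.cos (phase r k z)) =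
    fun z => (2 * Real.pi * (k 1 : ℝ)) * (-Real.sin (phase r k z)) := by
  funext z
  unfold dy
  rw [((hasFDerivAt_phase r k z).cos).fderiv]
  simp
  ring

theorem dy_sin (r : ℝ) (k : Fin 2 → ℤ) : dy (fun z => Real.sin (phase r k z)) =
    fun z => (2 * Real.pi * (k 1 : ℝ)) * Real.cos (phase r k z) := by
  funext z
  unfold dy
  rw [((hasFDerivAt_phase r k z).sin).fderiv]
  simp
  ring

theorem differentiableAt_cos_phase (r : ℝ) (k : Fin 2 → ℤ) (z : ℝ × ℝ) :
    DifferentiableAt ℝ (fun z => Real.cos (phase r k z)) z :=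
  ((hasFDerivAt_phase r k z).cos).differentiableAt

theorem differentiableAt_sin_phase (r : ℝ) (k : Fin 2 → ℤ) (z : ℝ × ℝ) :
    DifferentiableAt ℝ (fun z => Real.sin (phase r k z)) z :=
  ((hasFDerivAt_phase r k z).sin).differentiableAt

theorem dx_const_mul (c : ℝ) {f : ℝ × ℝ → ℝ} {z : ℝ × ℝ} (hf : DifferentiableAt ℝ f z) :
    dx (fun z => c * f z) z = c * dx f z := by
  unfold dx
  rw [fderiv_const_mul hf]
  simp

theorem dy_const_mul (c : ℝ) {f : ℝ × ℝ → ℝ} {z : ℝ × ℝ} (hf : DifferentiableAt ℝ f z) :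
    dy (fun z => c * f z) z = c * dy f z := by
  unfold dy
  rw [fderiv_const_mul hf]
  simp

theorem lap_cos (r : ℝ) (k : Fin 2 → ℤ) (z : ℝ × ℝ) :
    lap (fun z => Real.cos (phase r k z)) z = -sym (1 / r ^ 2) k * Real.cos (phase r k z) := by
  unfold lap
  rw [dx_cos, dy_cos]
  rw [dx_const_mul (f := fun z => -Real.sin (phase r k z)) _ (differentiableAt_sin_phase r k z).neg,
    dy_const_mul (f := fun z => -Real.sin (phase r k z)) _ (differentiableAt_sin_phase r k z).neg]
  have e1 : dx (fun z => -Real.sin (phase r k z)) z =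
      -((2 * Real.pi * ((k 0 : ℝ) / r)) * Real.cos (phase r k z)) := by
    have := dx_const_mul (-1) (differentiableAt_sin_phase r k z)
    rw [dx_sin] at this
    simpa using this
  have e2 : dy (fun z => -Real.sin (phase r k z)) z =
      -((2 * Real.pi * (k 1 : ℝ)) * Real.cos (phase r k z)) := by
    have := dy_const_mul (-1) (differentiableAt_sin_phase r k z)
    rw [dy_sin] at this
    simpa using this
  rw [e1, e2]
  unfold sym
  ring

theorem lap_sin (r : ℝ) (k : Fin 2 → ℤ) (z : ℝ × ℝ) :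
    lap (fun z => Real.sin (phase r k z)) z = -sym (1 / r ^ 2) k * Real.sin (phase r k z) := by
  unfold lap
  rw [dx_sin, dy_sin]
  rw [dx_const_mul _ (differentiableAt_cos_phase r k z),
    dy_const_mul _ (differentiableAt_cos_phase r k z), dx_cos, dy_cos]
  unfold sym
  ring

theorem contDiff_phase (r : ℝ) (k : Fin 2 → ℤ) : ContDiff ℝ ∞ (phase r k) := by
  unfold phase; fun_prop

theorem phase_add_a {r : ℝ} (hr : r ≠ 0) (k : Fin 2 → ℤ) (z : ℝ × ℝ) :
    phase r k (z + (r, 0)) = phase r k z + (k 0 : ℝ) * (2 * Real.pi) := by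
  unfold phase
  simp only [Prod.fst_add, Prod.snd_add]
  field_simp
  ring

theorem phase_add_b (r : ℝ) (k : Fin 2 → ℤ) (z : ℝ × ℝ) :
    phase r k (z + (0, 1)) = phase r k z + (k 1 : ℝ) * (2 * Real.pi) := by
  unfold phase
  simp only [Prod.fst_add, Prod.snd_add]
  ring

theorem isTest_cos {r : ℝ} (hr : r ≠ 0) (k : Fin 2 → ℤ) :
    IsTest (r, 0) (0, 1) (fun z => Real.cos (phase r k z)) := by
  refine ⟨Real.contDiff_cos.comp (contDiff_phase r k), ?_, ?_⟩
  · intro z; simp only [phase_add_a hr]; exact Real.cos_add_int_mul_two_pi _ _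
  · intro z; simp only [phase_add_b]; exact Real.cos_add_int_mul_two_pi _ _

theorem isTest_sin {r : ℝ} (hr : r ≠ 0) (k : Fin 2 → ℤ) :
    IsTest (r, 0) (0, 1) (fun z => Real.sin (phase r k z)) := by
  refine ⟨Real.contDiff_sin.comp (contDiff_phase r k), ?_, ?_⟩
  · intro z; simp only [phase_add_a hr]; exact Real.sin_add_int_mul_two_pi _ _
  · intro z; simp only [phase_add_b]; exact Real.sin_add_int_mul_two_pi _ _

theorem mFourier_neg_secr {r : ℝ} (hr : r ≠ 0) (k : Fin 2 → ℤ) (z : T2) :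
    UnitAddTorus.mFourier (-k) z =
      (Real.cos (phase r k (secr r z)) : ℂ) - (Real.sin (phase r k (secr r z)) : ℂ) * Complex.I := by
  rw [mFourier_eq_exp, ← Complex.exp_add]
  have h1 : 2 * Real.pi * Complex.I * ((-k) 0 : ℤ) * (rep (z 0)) +
      2 * Real.pi * Complex.I * ((-k) 1 : ℤ) * (rep (z 1)) =
      ((-(phase r k (secr r z)) : ℝ) : ℂ) * Complex.I := by
    unfold phase secr
    simp only [Pi.neg_apply, Int.cast_neg]
    push_cast
    have : (r : ℂ) ≠ 0 := by exact_mod_cast hr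
    field_simp
    ring
  rw [h1, Complex.exp_mul_I]
  push_cast
  rw [Complex.cos_neg, Complex.sin_neg]
  ring

theorem fc_secr {r : ℝ} (hr : 0 < r) {g : ℝ × ℝ → ℝ} (hg : IntegrableOn g (cell (r, 0) (0, 1)))
    (k : Fin 2 → ℤ) :
    fc (fun z => g (secr r z)) k = ((r⁻¹ : ℝ) : ℂ) *
      (((∫ z in cell (r, 0) (0, 1), g z * Real.cos (phase r k z) : ℝ) : ℂ) -
      ((∫ z in cell (r, 0) (0, 1), g z * Real.sin (phase r k z) : ℝ) : ℂ) * Complex.I) := by
  have h1 : fc (fun z => g (secr r z)) k = ∫ z : T2, (fun p : ℝ × ℝ =>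
      ((g p * Real.cos (phase r k p) : ℝ) : ℂ) - ((g p * Real.sin (phase r k p) : ℝ) : ℂ) * Complex.I)
      (secr r z) := by
    rw [fc_eq]
    refine integral_congr_ae (Eventually.of_forall (fun z => ?_))
    simp only [mFourier_neg_secr hr.ne']
    push_cast
    ring
  have hi1 := integrableOn_mul_cont hr hg (isTest_cos hr.ne' k).continuous
  have hi2 := integrableOn_mul_cont hr hg (isTest_sin hr.ne' k).continuous
  have e1 : ∫ z in cell (r, 0) (0, 1), ((g z * Real.cos (phase r k z) : ℝ) : ℂ) =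
      ((∫ z in cell (r, 0) (0, 1), g z * Real.cos (phase r k z) : ℝ) : ℂ) := integral_ofReal
  have e2 : ∫ z in cell (r, 0) (0, 1), ((g z * Real.sin (phase r k z) : ℝ) : ℂ) =
      ((∫ z in cell (r, 0) (0, 1), g z * Real.sin (phase r k z) : ℝ) : ℂ) := integral_ofReal
  have hi1' : IntegrableOn (fun z => ((g z * Real.cos (phase r k z) : ℝ) : ℂ))
    (cell (r, 0) (0, 1)) := hi1.ofReal
  have hi2' : IntegrableOn (fun z => ((g z * Real.sin (phase r k z) : ℝ) : ℂ))
    (cell (r, 0) (0, 1)) := hi2.ofReal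
  rw [h1, integral_secr hr (fun p : ℝ × ℝ =>
      ((g p * Real.cos (phase r k p) : ℝ) : ℂ) - ((g p * Real.sin (phase r k p) : ℝ) : ℂ) * Complex.I),
    integral_sub hi1' (hi2'.mul_const _), integral_mul_const, e1, e2]
  rw [Complex.real_smul]

theorem phase_zero (r : ℝ) (k : Fin 2 → ℤ) : phase r k (0, 0) = 0 := by
  simp [phase]

/-- The Fourier relation for a solution with all vortices at the origin. -/
theorem IsSolution.fourier {r : ℝ} (hr : 0 < r) {N : ℕ} {κ : ℝ}
    {u : ℝ × ℝ → ℝ} (h : IsSolution (r, 0) (0, 1) (fun _ : Fin N => (0, 0)) κ u) :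
    Integrable (fun z : T2 => u (secr r z)) ∧
    Integrable (fun z : T2 => Real.exp (u (secr r z)) * (1 - Real.exp (u (secr r z)))) ∧
    ∀ k, ((sym (1 / r ^ 2) k : ℝ) : ℂ) * fc (fun z => u (secr r z)) k =
      ((4 / κ ^ 2 : ℝ) : ℂ) * fc (fun z => Real.exp (u (secr r z)) * (1 - Real.exp (u (secr r z)))) k -
      ((4 * Real.pi * N / r : ℝ) : ℂ) := by
  obtain ⟨hui, hGi, hd⟩ := h.distrib hr
  have hfi : IntegrableOn (fun z => Real.exp (u z) * (1 - Real.exp (u z))) (cell (r, 0) (0, 1)) := by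
    refine (hGi.neg).congr (Eventually.of_forall (fun z => ?_))
    simp only [Pi.neg_apply]; ring
  refine ⟨integrable_secr hr hui, integrable_secr hr hfi, fun k => ?_⟩
  rw [fc_secr hr hui, fc_secr hr hfi (g := fun z => Real.exp (u z) * (1 - Real.exp (u z)))]
  have hc := hd _ (isTest_cos hr.ne' k)
  have hs := hd _ (isTest_sin hr.ne' k)
  simp only [lap_cos, phase_zero, Real.cos_zero] at hc
  simp only [lap_sin, phase_zero, Real.sin_zero] at hs
  simp only [Finset.sum_const, Finset.card_univ, Fintype.card_fin, nsmul_eq_mul, mul_one,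
    smul_zero, mul_zero, add_zero] at hc hs
  have c1 : ∫ z in cell (r, 0) (0, 1), u z * (-sym (1 / r ^ 2) k * Real.cos (phase r k z)) =
      -sym (1 / r ^ 2) k * ∫ z in cell (r, 0) (0, 1), u z * Real.cos (phase r k z) := by
    rw [← integral_const_mul]
    refine integral_congr_ae (Eventually.of_forall (fun z => ?_))
    simp only; ring
  have s1 : ∫ z in cell (r, 0) (0, 1), u z * (-sym (1 / r ^ 2) k * Real.sin (phase r k z)) =
      -sym (1 / r ^ 2) k * ∫ z in cell (r, 0) (0, 1), u z * Real.sin (phase r k z) := by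
    rw [← integral_const_mul]
    refine integral_congr_ae (Eventually.of_forall (fun z => ?_))
    simp only; ring
  have c2 : ∫ z in cell (r, 0) (0, 1), (Real.exp (u z) * (Real.exp (u z) - 1)) * Real.cos (phase r k z) =
      -∫ z in cell (r, 0) (0, 1), (Real.exp (u z) * (1 - Real.exp (u z))) * Real.cos (phase r k z) := by
    rw [← integral_neg]
    refine integral_congr_ae (Eventually.of_forall (fun z => ?_))
    simp only; ring
  have s2 : ∫ z in cell (r, 0) (0, 1), (Real.exp (u z) * (Real.exp (u z) - 1)) * Real.sin (phase r k z) =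
      -∫ z in cell (r, 0) (0, 1), (Real.exp (u z) * (1 - Real.exp (u z))) * Real.sin (phase r k z) := by
    rw [← integral_neg]
    refine integral_congr_ae (Eventually.of_forall (fun z => ?_))
    simp only; ring
  rw [c1, c2] at hc
  rw [s1, s2] at hs
  set Ic := ∫ z in cell (r, 0) (0, 1), u z * Real.cos (phase r k z)
  set Is := ∫ z in cell (r, 0) (0, 1), u z * Real.sin (phase r k z)
  set Jc := ∫ z in cell (r, 0) (0, 1), (Real.exp (u z) * (1 - Real.exp (u z))) * Real.cos (phase r k z)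
  set Js := ∫ z in cell (r, 0) (0, 1), (Real.exp (u z) * (1 - Real.exp (u z))) * Real.sin (phase r k z)
  have hc' : sym (1 / r ^ 2) k * Ic = 4 / κ ^ 2 * Jc - 4 * Real.pi * N := by linarith
  have hs' : sym (1 / r ^ 2) k * Is = 4 / κ ^ 2 * Js := by linarith
  have hcC : ((sym (1 / r ^ 2) k : ℝ) : ℂ) * (Ic : ℂ) =
      ((4 / κ ^ 2 : ℝ) : ℂ) * (Jc : ℂ) - ((4 * Real.pi * N : ℝ) : ℂ) := by
    rw [← Complex.ofReal_mul, hc']; push_cast; ring
  have hsC : ((sym (1 / r ^ 2) k : ℝ) : ℂ) * (Is : ℂ) = ((4 / κ ^ 2 : ℝ) : ℂ) * (Js : ℂ) := by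
    rw [← Complex.ofReal_mul, hs']; push_cast; ring
  have hdiv : ((4 * Real.pi * N / r : ℝ) : ℂ) = ((r⁻¹ : ℝ) : ℂ) * ((4 * Real.pi * N : ℝ) : ℂ) := by
    push_cast; rw [div_eq_mul_inv]; ring
  rw [hdiv]
  linear_combination ((r⁻¹ : ℝ) : ℂ) * hcC - ((r⁻¹ : ℝ) : ℂ) * Complex.I * hsC

end Pool.Agent.H88.CS
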