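import Mathlib
import Pool.Agent.H88.Torus

open MeasureTheory Set Filter Topology
open scoped ComplexConjugate ENNReal

noncomputable section

namespace Pool.Agent.H88

attribute [local instance] circleMS circleHaar circleProb

/-- The summable weight on the dual lattice. -/
def wt (k : Fin 2 → ℤ) : ℝ := (1 / (1 + (k 0 : ℝ) ^ 2)) * (1 / (1 + (k 1 : ℝ) ^ 2))

theorem wt_pos (k : Fin 2 → ℤ) : 0 < wt k := by unfold wt; positivity

theorem summable_one_dim : Summable (fun n : ℤ => 1 / (1 + (n : ℝ) ^ 2)) := by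
  have h : Summable (fun n : ℤ => 2 * (1 / ((n : ℝ)) ^ 2)) :=
    (Real.summable_one_div_int_pow.mpr one_lt_two).mul_left 2
  refine Summable.of_norm_bounded_eventually (g := fun n : ℤ => 2 * (1 / ((n : ℝ)) ^ 2)) h ?_
  filter_upwards [(Set.finite_singleton (0 : ℤ)).compl_mem_cofinite] with n hn
  have hn' : n ≠ 0 := hn
  have h1 : (1 : ℝ) ≤ (n : ℝ) ^ 2 := by
    have : (1 : ℤ) ≤ n ^ 2 := by
      have := Int.one_le_abs hn'
      nlinarith [sq_abs n]
    exact_mod_cast this
  rw [Real.norm_of_nonneg (by positivity)]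
  rw [mul_one_div, div_le_div_iff₀ (by positivity) (by positivity)]
  linarith

theorem summable_wt : Summable wt := by
  have h := summable_one_dim.mul_of_nonneg summable_one_dim (fun n => by positivity)
    (fun n => by positivity)
  have h2 := (finTwoArrowEquiv ℤ).summable_iff (f := fun x : ℤ × ℤ =>
    1 / (1 + (x.1 : ℝ) ^ 2) * (1 / (1 + (x.2 : ℝ) ^ 2)))
  exact h2.mpr h

theorem one_le_of_ne_zero {k : Fin 2 → ℤ} (hk : k ≠ 0) : (1 : ℝ) ≤ (k 0 : ℝ) ^ 2 + (k 1 : ℝ) ^ 2 := by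
  have h : k 0 ≠ 0 ∨ k 1 ≠ 0 := by
    by_contra hcon
    rw [not_or, not_not, not_not] at hcon
    apply hk
    funext i
    have hi : i = 0 ∨ i = 1 := by fin_cases i <;> simp
    rcases hi with rfl | rfl
    · exact hcon.1
    · exact hcon.2
  have key : (1 : ℤ) ≤ (k 0) ^ 2 + (k 1) ^ 2 := by
    rcases h with h | h
    · have := Int.one_le_abs h
      nlinarith [sq_abs (k 0), sq_nonneg (k 1)]
    · have := Int.one_le_abs h
      nlinarith [sq_abs (k 1), sq_nonneg (k 0)]
  exact_mod_cast key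

theorem one_add_le_sym' {α : ℝ} (hα : 0 < α) (hα1 : α ≤ 1) {k : Fin 2 → ℤ} (hk : k ≠ 0) :
    α * (1 + (k 0 : ℝ) ^ 2 + (k 1 : ℝ) ^ 2) ≤ sym α k := by
  have h := one_le_of_ne_zero hk
  unfold sym
  have hpi : 1 ≤ Real.pi ^ 2 := by nlinarith [Real.pi_gt_three]
  have h1 : α * ((k 0 : ℝ) ^ 2 + (k 1 : ℝ) ^ 2) ≤ α * (k 0 : ℝ) ^ 2 + (k 1 : ℝ) ^ 2 := by
    nlinarith [sq_nonneg (k 1 : ℝ)]
  have h2 : 0 ≤ α * (k 0 : ℝ) ^ 2 + (k 1 : ℝ) ^ 2 := by positivity
  nlinarith [mul_le_mul_of_nonneg_right hpi h2]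

theorem sym_pos' {α : ℝ} (hα : 0 < α) (hα1 : α ≤ 1) {k : Fin 2 → ℤ} (hk : k ≠ 0) :
    0 < sym α k := by
  refine lt_of_lt_of_le ?_ (one_add_le_sym' hα hα1 hk)
  positivity

theorem sym_pos {k : Fin 2 → ℤ} (hk : k ≠ 0) : 0 < sym 1 k := sym_pos' one_pos le_rfl hk

theorem one_add_le_sym {k : Fin 2 → ℤ} (hk : k ≠ 0) :
    1 + (k 0 : ℝ) ^ 2 + (k 1 : ℝ) ^ 2 ≤ sym 1 k := by
  have := one_add_le_sym' one_pos le_rfl hk
  linarith

theorem inv_sq_le_wt {x : ℝ} {k : Fin 2 → ℤ} (hx : 1 + (k 0 : ℝ) ^ 2 + (k 1 : ℝ) ^ 2 ≤ x) :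
    1 / x ^ 2 ≤ wt k := by
  have h0 : 0 < 1 + (k 0 : ℝ) ^ 2 + (k 1 : ℝ) ^ 2 := by positivity
  have hx0 : 0 < x := lt_of_lt_of_le h0 hx
  unfold wt
  rw [one_div_mul_one_div]
  apply one_div_le_one_div_of_le (by positivity)
  nlinarith [mul_nonneg (sq_nonneg (k 0 : ℝ)) (sq_nonneg (k 1 : ℝ)), sq_nonneg ((k 0 : ℝ) ^ 2),
    sq_nonneg ((k 1 : ℝ) ^ 2), mul_self_le_mul_self h0.le hx]

theorem inv_sq_le_wt' {α x : ℝ} (hα : 0 < α) {k : Fin 2 → ℤ}
    (hx : α * (1 + (k 0 : ℝ) ^ 2 + (k 1 : ℝ) ^ 2) ≤ x) :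
    1 / x ^ 2 ≤ (1 / α ^ 2) * wt k := by
  have h0 : 0 < 1 + (k 0 : ℝ) ^ 2 + (k 1 : ℝ) ^ 2 := by positivity
  have hx0 : 0 < x := lt_of_lt_of_le (by positivity) hx
  have h1 : 1 + (k 0 : ℝ) ^ 2 + (k 1 : ℝ) ^ 2 ≤ x / α := by
    rw [le_div_iff₀ hα]; linarith
  have h2 := inv_sq_le_wt h1
  calc 1 / x ^ 2 = (1 / α ^ 2) * (1 / (x / α) ^ 2) := by field_simp
    _ ≤ (1 / α ^ 2) * wt k := mul_le_mul_of_nonneg_left h2 (by positivity)

theorem one_add_le_add_sym' {α : ℝ} (hα : 0 < α) (hα1 : α ≤ 1) (k : Fin 2 → ℤ) :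
    α * (1 + (k 0 : ℝ) ^ 2 + (k 1 : ℝ) ^ 2) ≤ 1 + sym α k := by
  unfold sym
  have hpi : 1 ≤ Real.pi ^ 2 := by nlinarith [Real.pi_gt_three]
  have h1 : α * ((k 0 : ℝ) ^ 2 + (k 1 : ℝ) ^ 2) ≤ α * (k 0 : ℝ) ^ 2 + (k 1 : ℝ) ^ 2 := by
    nlinarith [sq_nonneg (k 1 : ℝ)]
  have h2 : 0 ≤ α * (k 0 : ℝ) ^ 2 + (k 1 : ℝ) ^ 2 := by positivity
  nlinarith [mul_le_mul_of_nonneg_right hpi h2]

theorem fc_conj (g : T2 → ℝ) (k : Fin 2 → ℤ) : fc g (-k) = conj (fc g k) := by
  rw [fc_eq, fc_eq, ← integral_conj]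
  refine integral_congr_ae (Eventually.of_forall (fun z => ?_))
  simp only [map_mul, Complex.conj_ofReal, ← UnitAddTorus.mFourier_neg]

/-- The nonlinearity `t + e^t (1 - e^t)`. -/
def Fn (t : ℝ) : ℝ := t + Real.exp t * (1 - Real.exp t)

theorem Fn_nonpos (t : ℝ) : Fn t ≤ 0 := by
  unfold Fn
  rcases le_or_gt t 0 with h | h
  · have h1 := Real.add_one_le_exp t
    have h2 : Real.exp t ≤ 1 := Real.exp_le_one_iff.mpr h
    have h3 := Real.exp_pos t
    nlinarith
  · have h1 := Real.add_one_le_exp t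
    have h3 : 1 ≤ Real.exp t := by linarith
    nlinarith

theorem le_Fn {t : ℝ} (h : t ≤ 0) : t ≤ Fn t := by
  unfold Fn
  have h2 : Real.exp t ≤ 1 := Real.exp_le_one_iff.mpr h
  have h3 := Real.exp_pos t
  nlinarith

theorem Fn_mono {s t : ℝ} (hst : s ≤ t) (ht : t ≤ 0) : Fn s ≤ Fn t := by
  have hmono : MonotoneOn Fn (Iic 0) := by
    apply monotoneOn_of_deriv_nonneg (convex_Iic 0)
    · unfold Fn; fun_prop
    · unfold Fn; fun_prop
    · intro x hx
      rw [interior_Iic] at hx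
      have hd : HasDerivAt Fn (1 + (Real.exp x * (1 - Real.exp x) + Real.exp x * (-Real.exp x))) x := by
        unfold Fn
        have h1 := Real.hasDerivAt_exp x
        exact (hasDerivAt_id x).add (h1.mul (h1.const_sub 1))
      rw [hd.deriv]
      have h2 : Real.exp x ≤ 1 := Real.exp_le_one_iff.mpr (le_of_lt hx)
      have h3 := Real.exp_pos x
      nlinarith
  exact hmono (hst.trans ht) ht hst

theorem measurable_Fn : Measurable Fn := by
  unfold Fn; fun_prop

theorem continuous_Fn : Continuous Fn := by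
  unfold Fn; fun_prop

theorem abs_Fn_le {t : ℝ} (h : t ≤ 0) : |Fn t| ≤ |t| := by
  rw [abs_of_nonpos (Fn_nonpos t), abs_of_nonpos h]
  have := le_Fn h
  linarith

theorem memLp_Fn {v : T2 → ℝ} (hv : MemLp v 2 (volume : Measure T2)) (hv0 : ∀ᵐ z ∂(volume : Measure T2), v z ≤ 0) :
    MemLp (fun z => Fn (v z)) 2 (volume : Measure T2) := by
  refine hv.mono (continuous_Fn.comp_aestronglyMeasurable hv.1) ?_
  filter_upwards [hv0] with z hz
  simpa only [Real.norm_eq_abs] using abs_Fn_le hz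

theorem wt_le_one (k : Fin 2 → ℤ) : wt k ≤ 1 := by
  unfold wt
  have ha : 1 / (1 + (k 0 : ℝ) ^ 2) ≤ 1 := by
    rw [div_le_one (by positivity)]; nlinarith [sq_nonneg (k 0 : ℝ)]
  have hb : 1 / (1 + (k 1 : ℝ) ^ 2) ≤ 1 := by
    rw [div_le_one (by positivity)]; nlinarith [sq_nonneg (k 1 : ℝ)]
  exact mul_le_one₀ ha (by positivity) hb

/-- The background function: it has Fourier coefficients `-4π/sym` and is bounded above. -/
theorem exists_background {α : ℝ} (hα : 0 < α) (hα1 : α ≤ 1) : ∃ (w : T2 → ℝ) (C : ℝ),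
    StronglyMeasurable w ∧ MemLp w 2 (volume : Measure T2) ∧
    fc w 0 = 0 ∧ (∀ k, k ≠ 0 → ((sym α k : ℝ) : ℂ) * fc w k = -(4 * Real.pi : ℝ)) ∧
    (∀ᵐ z ∂(volume : Measure T2), w z ≤ C) := by
  -- the resolvent kernel
  have hsum1 : Summable (fun k : Fin 2 → ℤ => ‖((1 / (1 + sym α k) : ℝ) : ℂ)‖ ^ 2) := by
    refine Summable.of_nonneg_of_le (fun k => by positivity) (fun k => ?_)
      (summable_wt.mul_left (1 / α ^ 2))
    rw [Complex.norm_real, Real.norm_eq_abs, sq_abs, div_pow, one_pow]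
    exact inv_sq_le_wt' hα (one_add_le_add_sym' hα hα1 k)
  obtain ⟨Γ, hΓm, hΓ2, hΓ⟩ := exists_of_fc (fun k => ((1 / (1 + sym α k) : ℝ) : ℂ)) hsum1
    (fun k => by rw [sym_neg, Complex.conj_ofReal])
  have hΓi : Integrable Γ := hΓ2.integrable (by norm_num)
  have hΓ0 : 0 ≤ᵐ[volume] Γ := by
    refine pos_of_resolvent (α := α) (K := 1) hα.le one_pos hΓi
      (integrable_zero _ _ _) (h := fun _ => (0 : ℝ)) (ae_of_all _ (fun _ => le_refl _)) (a := 1)
      zero_le_one (fun k => ?_)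
    rw [hΓ, fc_const]
    have : 0 < 1 + sym α k := by have := sym_nonneg hα.le k; linarith
    rw [← Complex.ofReal_mul, mul_one_div, div_self this.ne']
    simp
  -- the regular part
  have hbd : ∀ k : Fin 2 → ℤ, k ≠ 0 → 1 / (sym α k * (1 + sym α k)) ≤ (1 / α ^ 2) * wt k := by
    intro k hk
    have h1 := sym_pos' hα hα1 hk
    have h2 := inv_sq_le_wt' hα (one_add_le_sym' hα hα1 hk)
    refine le_trans ?_ h2
    apply one_div_le_one_div_of_le (by positivity)
    nlinarith
  have hsum2 : Summable (fun k : Fin 2 → ℤ =>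
      ‖(((if k = 0 then 0 else 1 / (sym α k * (1 + sym α k))) : ℝ) : ℂ)‖) := by
    refine Summable.of_nonneg_of_le (fun k => by positivity) (fun k => ?_)
      (summable_wt.mul_left (1 / α ^ 2))
    rw [Complex.norm_real, Real.norm_eq_abs]
    have hw := (wt_pos k).le
    split_ifs with hk
    · rw [abs_zero]; positivity
    · have h1 := sym_pos' hα hα1 hk
      rw [abs_of_nonneg (by positivity)]
      exact hbd k hk
  have hsum3 : Summable (fun k : Fin 2 → ℤ =>
      ‖(((if k = 0 then 0 else 1 / (sym α k * (1 + sym α k))) : ℝ) : ℂ)‖ ^ 2) := by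
    refine Summable.of_nonneg_of_le (fun k => by positivity) (fun k => ?_)
      (hsum2.mul_left (1 / α ^ 2))
    have h0 : ‖(((if k = 0 then 0 else 1 / (sym α k * (1 + sym α k))) : ℝ) : ℂ)‖ ≤ 1 / α ^ 2 := by
      rw [Complex.norm_real, Real.norm_eq_abs]
      split_ifs with hk
      · rw [abs_zero]; positivity
      · have h1 := sym_pos' hα hα1 hk
        rw [abs_of_nonneg (by positivity)]
        refine (hbd k hk).trans ?_
        exact mul_le_of_le_one_right (by positivity) (wt_le_one k)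
    nlinarith [norm_nonneg (((if k = 0 then 0 else 1 / (sym α k * (1 + sym α k))) : ℝ) : ℂ)]
  obtain ⟨R, hRm, hR2, hR⟩ := exists_of_fc (fun k =>
    (((if k = 0 then 0 else 1 / (sym α k * (1 + sym α k))) : ℝ) : ℂ)) hsum3 (fun k => by
      rw [sym_neg, Complex.conj_ofReal]
      simp only [neg_eq_zero])
  have hRi : Integrable R := hR2.integrable (by norm_num)
  have hRb := ae_abs_le_of_summable hR2 (by simpa only [hR] using hsum2)
  set CR := ∑' k, ‖fc R k‖ with hCR
  have hI1 : Integrable (fun z => (-(4 * Real.pi)) * Γ z) := hΓi.const_mul _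
  have hI2 : Integrable (fun z => 4 * Real.pi * R z) := hRi.const_mul _
  have hI3 : Integrable (fun _ : T2 => 4 * Real.pi) := integrable_const _
  have hI4 : Integrable (fun z => 4 * Real.pi - 4 * Real.pi * R z) := hI3.sub hI2
  refine ⟨fun z => (-(4 * Real.pi)) * Γ z + (4 * Real.pi - 4 * Real.pi * R z), 4 * Real.pi + 4 * Real.pi * CR,
    ?_, ?_, ?_, ?_, ?_⟩
  · exact (hΓm.const_mul _).add (stronglyMeasurable_const.sub (hRm.const_mul _))
  · exact (hΓ2.const_mul _).add ((memLp_const _).sub (hR2.const_mul _))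
  · rw [fc_add hI1 hI4, fc_sub hI3 hI2, fc_const_mul (-(4 * Real.pi)) Γ, fc_const_mul (4 * Real.pi) R, fc_const (4 * Real.pi), hΓ, hR]
    simp [sym]
  · intro k hk
    rw [fc_add hI1 hI4, fc_sub hI3 hI2, fc_const_mul (-(4 * Real.pi)) Γ, fc_const_mul (4 * Real.pi) R, fc_const (4 * Real.pi), hΓ, hR,
      if_neg hk, if_neg hk]
    have h1 := sym_pos' hα hα1 hk
    have h2 : (sym α k : ℂ) ≠ 0 := by exact_mod_cast h1.ne'
    have h3 : (1 + sym α k : ℂ) ≠ 0 := by
      have : 0 < 1 + sym α k := by linarith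
      exact_mod_cast this.ne'
    push_cast
    field_simp
    ring
  · filter_upwards [hΓ0, hRb] with z hz1 hz2
    have hpi := Real.pi_pos
    have hz1' : 0 ≤ Γ z := hz1
    have hz3 := (abs_le.mp hz2).1
    nlinarith [mul_nonneg hpi.le hz1', mul_le_mul_of_nonneg_left hz3 hpi.le]

/-- Solving the resolvent equation with a square-integrable right side plus a point mass. -/
theorem exists_resolvent {α : ℝ} (hα : 0 < α) (hα1 : α ≤ 1) {lam : ℝ} (hlam : 1 ≤ lam) (a : ℝ)
    {h : T2 → ℝ} (hh : MemLp h 2 (volume : Measure T2)) :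
    ∃ g : T2 → ℝ, StronglyMeasurable g ∧ MemLp g 2 (volume : Measure T2) ∧
      ∀ k, ((lam + sym α k : ℝ) : ℂ) * fc g k = fc h k + a := by
  have hpos : ∀ k, 0 < lam + sym α k := fun k => by
    have := sym_nonneg hα.le k; linarith
  have hinv : ∀ k, 1 / (lam + sym α k) ^ 2 ≤ (1 / α ^ 2) * wt k := fun k =>
    inv_sq_le_wt' hα ((one_add_le_add_sym' hα hα1 k).trans (by linarith))
  have hinv1 : ∀ k, 1 / (lam + sym α k) ^ 2 ≤ 1 := fun k => by
    have h1 := sym_nonneg hα.le k
    rw [div_le_one (by have := hpos k; positivity)]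
    nlinarith
  have hsum : Summable (fun k => ‖(fc h k + a) / ((lam + sym α k : ℝ) : ℂ)‖ ^ 2) := by
    have hs : Summable (fun k => 2 * ‖fc h k‖ ^ 2 + 2 * a ^ 2 * ((1 / α ^ 2) * wt k)) :=
      ((hasSum_sq_fc hh).summable.mul_left 2).add ((summable_wt.mul_left _).mul_left _)
    refine Summable.of_nonneg_of_le (fun k => by positivity) (fun k => ?_) hs
    rw [norm_div, div_pow, Complex.norm_real, Real.norm_eq_abs, sq_abs, div_eq_mul_one_div]
    have h1 : ‖fc h k + a‖ ^ 2 ≤ 2 * ‖fc h k‖ ^ 2 + 2 * a ^ 2 := by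
      have h2 : ‖fc h k + a‖ ≤ ‖fc h k‖ + |a| := by
        refine (norm_add_le _ _).trans ?_
        rw [Complex.norm_real, Real.norm_eq_abs]
      have h3 : ‖fc h k + a‖ ^ 2 ≤ (‖fc h k‖ + |a|) ^ 2 := by
        exact pow_le_pow_left₀ (norm_nonneg _) h2 2
      nlinarith [sq_nonneg (‖fc h k‖ - |a|), sq_abs a]
    calc ‖fc h k + a‖ ^ 2 * (1 / (lam + sym α k) ^ 2)
        ≤ (2 * ‖fc h k‖ ^ 2 + 2 * a ^ 2) * (1 / (lam + sym α k) ^ 2) :=
          mul_le_mul_of_nonneg_right h1 (by have := hpos k; positivity)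
      _ = 2 * ‖fc h k‖ ^ 2 * (1 / (lam + sym α k) ^ 2) +
          2 * a ^ 2 * (1 / (lam + sym α k) ^ 2) := by ring
      _ ≤ 2 * ‖fc h k‖ ^ 2 * 1 + 2 * a ^ 2 * ((1 / α ^ 2) * wt k) := by
          refine add_le_add ?_ ?_
          · exact mul_le_mul_of_nonneg_left (hinv1 k) (by positivity)
          · exact mul_le_mul_of_nonneg_left (hinv k) (by positivity)
      _ = _ := by ring
  obtain ⟨g, hgm, hg2, hg⟩ := exists_of_fc _ hsum (fun k => by
    rw [fc_conj, sym_neg, map_div₀, map_add, Complex.conj_ofReal, Complex.conj_ofReal])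
  refine ⟨g, hgm, hg2, fun k => ?_⟩
  rw [hg]
  have : ((lam + sym α k : ℝ) : ℂ) ≠ 0 := by exact_mod_cast (hpos k).ne'
  field_simp

/-- The subsolution: Laplacian `-ψ + 4π δ` with `0 ≤ ψ ≤ lam e^u (1-e^u)`. -/
theorem exists_subsolution {α : ℝ} (hα : 0 < α) (hα1 : α ≤ 1) :
    ∃ (lam : ℝ) (u ψ : T2 → ℝ), 1 ≤ lam ∧ MemLp u 2 (volume : Measure T2) ∧
    MemLp ψ 2 (volume : Measure T2) ∧ (∀ᵐ z ∂(volume : Measure T2), u z ≤ 0) ∧
    (∀ᵐ z ∂(volume : Measure T2), ψ z ≤ lam * (Real.exp (u z) * (1 - Real.exp (u z)))) ∧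
    ∀ k, ((sym α k : ℝ) : ℂ) * fc u k = fc ψ k - (4 * Real.pi : ℝ) := by
  obtain ⟨w, C, hwm, hw2, hw0, hwk, hwC⟩ := exists_background hα hα1
  have hpi := Real.pi_pos
  -- the set where w is not too negative
  have hM : ∃ M : ℝ, (1 / 2 : ℝ) ≤ (volume : Measure T2).real {z | -M ≤ w z} := by
    have hmono : Monotone (fun n : ℕ => {z : T2 | -(n : ℝ) ≤ w z}) := by
      intro a b hab z hz
      simp only [mem_ofPred_eq] at hz ⊢
      have : (a : ℝ) ≤ b := by exact_mod_cast hab
      linarith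
    have hU : (⋃ n : ℕ, {z : T2 | -(n : ℝ) ≤ w z}) = univ := by
      ext z
      simp only [mem_iUnion, mem_ofPred_eq, mem_univ, iff_true]
      obtain ⟨n, hn⟩ := exists_nat_ge (-(w z))
      exact ⟨n, by linarith⟩
    have ht := tendsto_measure_iUnion_atTop (μ := (volume : Measure T2)) hmono
    rw [hU] at ht
    have ht2 : Tendsto (fun n : ℕ => (volume : Measure T2).real {z : T2 | -(n : ℝ) ≤ w z}) atTop
        (𝓝 1) := by
      have := (ENNReal.tendsto_toReal (measure_ne_top (volume : Measure T2) univ)).comp ht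
      simpa [Measure.real, Function.comp_def] using this
    obtain ⟨n, hn⟩ := (ht2.eventually (lt_mem_nhds (by norm_num : (1 / 2 : ℝ) < 1))).exists
    exact ⟨n, hn.le⟩
  obtain ⟨M, hM⟩ := hM
  set E : Set T2 := {z | -M ≤ w z} with hE
  have hEm : MeasurableSet E := measurableSet_le measurable_const hwm.measurable
  set e := (volume : Measure T2).real E with he
  have hepos : 0 < e := by linarith
  set ψ : T2 → ℝ := E.indicator (fun _ => 4 * Real.pi / e) with hψ
  have hψ2 : MemLp ψ 2 (volume : Measure T2) := (memLp_const _).indicator hEm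
  have hψi : Integrable ψ := hψ2.integrable (by norm_num)
  have hψint : ∫ z, ψ z = 4 * Real.pi := by
    rw [hψ, integral_indicator_const _ hEm, smul_eq_mul, ← he]
    field_simp
  -- the correction Ψ
  have hbd : ∀ k : Fin 2 → ℤ, k ≠ 0 → ‖fc ψ k / ((sym α k : ℝ) : ℂ)‖ ≤
      ‖fc ψ k‖ ^ 2 + (1 / α ^ 2) * wt k := by
    intro k hk
    have h1 := sym_pos' hα hα1 hk
    have h2 := inv_sq_le_wt' hα (one_add_le_sym' hα hα1 hk)
    rw [norm_div, Complex.norm_real, Real.norm_eq_abs, abs_of_pos h1, div_eq_mul_one_div]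
    have h3 : (1 / sym α k) ^ 2 ≤ (1 / α ^ 2) * wt k := by rwa [div_pow, one_pow]
    nlinarith [sq_nonneg (‖fc ψ k‖ - 1 / sym α k), sq_nonneg (‖fc ψ k‖), sq_nonneg (1 / sym α k),
      norm_nonneg (fc ψ k), sq_nonneg (‖fc ψ k‖ + 1 / sym α k)]
  have hsum2 : Summable (fun k : Fin 2 → ℤ => ‖(if k = 0 then 0 else fc ψ k / ((sym α k : ℝ) : ℂ))‖) := by
    have hs : Summable (fun k => ‖fc ψ k‖ ^ 2 + (1 / α ^ 2) * wt k) :=
      (hasSum_sq_fc hψ2).summable.add (summable_wt.mul_left _)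
    refine Summable.of_nonneg_of_le (fun k => by positivity) (fun k => ?_) hs
    split_ifs with hk
    · rw [norm_zero]; have := (wt_pos k).le; positivity
    · exact hbd k hk
  have hsum3 : Summable (fun k : Fin 2 → ℤ => ‖(if k = 0 then 0 else fc ψ k / ((sym α k : ℝ) : ℂ))‖ ^ 2) := by
    have hs : Summable (fun k => (1 / α ^ 2) * ‖fc ψ k‖ ^ 2) := (hasSum_sq_fc hψ2).summable.mul_left _
    refine Summable.of_nonneg_of_le (fun k => by positivity) (fun k => ?_) hs
    split_ifs with hk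
    · rw [norm_zero, zero_pow two_ne_zero]; positivity
    · have h1 := sym_pos' hα hα1 hk
      rw [norm_div, Complex.norm_real, Real.norm_eq_abs, abs_of_pos h1, div_pow,
        div_eq_mul_one_div, mul_comm]
      refine mul_le_mul_of_nonneg_right ?_ (by positivity)
      apply one_div_le_one_div_of_le (by positivity)
      refine pow_le_pow_left₀ hα.le ?_ 2
      have := one_add_le_sym' hα hα1 hk
      nlinarith [sq_nonneg (k 0 : ℝ), sq_nonneg (k 1 : ℝ), mul_nonneg hα.le (sq_nonneg (k 0 : ℝ)),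
        mul_nonneg hα.le (sq_nonneg (k 1 : ℝ))]
  obtain ⟨Ψ, hΨm, hΨ2, hΨ⟩ := exists_of_fc (fun k => if k = 0 then 0 else fc ψ k / ((sym α k : ℝ) : ℂ))
    hsum3 (fun k => by
      simp only [neg_eq_zero]
      split_ifs with hk
      · simp
      · rw [fc_conj, sym_neg, map_div₀, Complex.conj_ofReal])
  have hΨb := ae_abs_le_of_summable hΨ2 (by simpa only [hΨ] using hsum2)
  set CΨ := ∑' k, ‖fc Ψ k‖ with hCΨ
  have hCΨ0 : 0 ≤ CΨ := tsum_nonneg (fun k => norm_nonneg _)
  set c0 : ℝ := -(|C| + CΨ + Real.log 2) with hc0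
  set M2 : ℝ := |c0| + |M| + CΨ with hM2
  have hM2n : 0 ≤ M2 := by positivity
  have hwi : Integrable w := hw2.integrable (by norm_num)
  have hΨi : Integrable Ψ := hΨ2.integrable (by norm_num)
  have hI1 : Integrable (fun _ : T2 => c0) := integrable_const _
  have hI2 : Integrable (fun z => w z + Ψ z) := hwi.add hΨi
  refine ⟨16 * Real.pi * Real.exp M2, fun z => c0 + (w z + Ψ z), ψ, ?_, ?_, hψ2, ?_, ?_, ?_⟩
  · have h1 : 1 ≤ Real.exp M2 := Real.one_le_exp hM2n
    nlinarith [Real.pi_gt_three]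
  · have hm1 : MemLp (fun _ : T2 => c0) 2 (volume : Measure T2) := memLp_const c0
    have hm2 : MemLp (fun z => w z + Ψ z) 2 (volume : Measure T2) := hw2.add hΨ2
    exact hm1.add hm2
  · filter_upwards [hwC, hΨb] with z hz1 hz2
    have h1 := (abs_le.mp hz2).2
    have h2 := le_abs_self C
    have h3 := Real.log_pos one_lt_two
    rw [hc0]; linarith
  · filter_upwards [hwC, hΨb] with z hz1 hz2
    have h1 := abs_le.mp hz2
    have h2 := le_abs_self C
    have hup : c0 + (w z + Ψ z) ≤ -Real.log 2 := by rw [hc0]; linarith [h1.2]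
    have hexp : Real.exp (c0 + (w z + Ψ z)) ≤ 1 / 2 := by
      have := Real.exp_le_exp.mpr hup
      rwa [Real.exp_neg, Real.exp_log (by norm_num), ← one_div] at this
    have hexp0 := Real.exp_pos (c0 + (w z + Ψ z))
    by_cases hzE : z ∈ E
    · rw [hψ, indicator_of_mem hzE]
      have hlow : -M2 ≤ c0 + (w z + Ψ z) := by
        have h5 : -M ≤ w z := hzE
        have h6 := neg_abs_le c0
        have h7 := neg_abs_le M
        have h8 := le_abs_self M
        rw [hM2]; linarith [h1.1]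
      have hexp1 : Real.exp (-M2) ≤ Real.exp (c0 + (w z + Ψ z)) := Real.exp_le_exp.mpr hlow
      have h9 : 4 * Real.pi / e ≤ 8 * Real.pi := by
        rw [div_le_iff₀ hepos]; nlinarith
      have h10 : Real.exp M2 * Real.exp (-M2) = 1 := by rw [← Real.exp_add]; simp
      have h11 : Real.exp (-M2) * (1 / 2) ≤
          Real.exp (c0 + (w z + Ψ z)) * (1 - Real.exp (c0 + (w z + Ψ z))) := by
        refine mul_le_mul hexp1 (by linarith) (by norm_num) hexp0.le
      calc 4 * Real.pi / e ≤ 8 * Real.pi := h9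
        _ = 16 * Real.pi * Real.exp M2 * (Real.exp (-M2) * (1 / 2)) := by
            have : 16 * Real.pi * Real.exp M2 * (Real.exp (-M2) * (1 / 2)) =
              8 * Real.pi * (Real.exp M2 * Real.exp (-M2)) := by ring
            rw [this, h10]; ring
        _ ≤ _ := mul_le_mul_of_nonneg_left h11 (by positivity)
    · rw [hψ, indicator_of_notMem hzE]
      have : 0 ≤ 1 - Real.exp (c0 + (w z + Ψ z)) := by linarith
      positivity
  · intro k
    rw [fc_add hI1 hI2, fc_add hwi hΨi, fc_const, hΨ]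
    by_cases hk : k = 0
    · subst hk
      rw [fc_zero_freq ψ, hψint]
      simp [sym]
    · rw [if_neg hk, if_neg hk, zero_add, mul_add, hwk k hk]
      have h1 : (sym α k : ℂ) ≠ 0 := by exact_mod_cast (sym_pos' hα hα1 hk).ne'
      field_simp
      ring

/-- The state space of the monotone iteration. -/
def V0 : Type := {v : T2 → ℝ // StronglyMeasurable v ∧ MemLp v 2 (volume : Measure T2) ∧
  ∀ᵐ z ∂(volume : Measure T2), v z ≤ 0}

theorem exists_step {α : ℝ} (hα : 0 < α) (hα1 : α ≤ 1) {lam : ℝ} (hlam : 1 ≤ lam) (v : V0) :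
    ∃ v' : V0, ∀ k, ((lam + sym α k : ℝ) : ℂ) * fc v'.1 k =
      lam * fc (fun z => Fn (v.1 z)) k - (4 * Real.pi : ℝ) := by
  obtain ⟨v, hvm, hv2, hv0⟩ := v
  have hF2 : MemLp (fun z => lam * Fn (v z)) 2 (volume : Measure T2) := (memLp_Fn hv2 hv0).const_mul lam
  obtain ⟨g, hgm, hg2, hg⟩ := exists_resolvent hα hα1 hlam (-(4 * Real.pi)) hF2
  have hgi : Integrable g := hg2.integrable (by norm_num)
  have hneg : 0 ≤ᵐ[volume] (fun z => -g z) := by
    refine pos_of_resolvent (α := α) (K := lam) hα.le (by linarith) hgi.neg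
      (h := fun z => -(lam * Fn (v z))) ((hF2.integrable (by norm_num)).neg) ?_ (a := 4 * Real.pi)
      (by positivity) (fun k => ?_)
    · refine ae_of_all _ (fun z => ?_)
      have := Fn_nonpos (v z)
      simp only [Pi.zero_apply]
      nlinarith
    · rw [fc_neg, fc_neg, mul_neg, hg]
      push_cast
      ring
  refine ⟨⟨g, hgm, hg2, ?_⟩, fun k => ?_⟩
  · filter_upwards [hneg] with z hz
    have hz' : 0 ≤ - g z := hz
    linarith
  · simp only [hg, fc_const_mul]
    push_cast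
    ring

/-- Existence of a weak solution on the unit torus with one vortex at the origin. -/
theorem exists_solution_torus {α : ℝ} (hα : 0 < α) (hα1 : α ≤ 1) :
    ∃ (lam : ℝ) (w v : T2 → ℝ), 0 < lam ∧
    MemLp w 2 (volume : Measure T2) ∧ MemLp v 2 (volume : Measure T2) ∧
    (∀ᵐ z ∂(volume : Measure T2), v z ≤ 0) ∧
    fc w 0 = 0 ∧ (∀ k, k ≠ 0 → ((sym α k : ℝ) : ℂ) * fc w k = -(4 * Real.pi : ℝ)) ∧
    ∀ k, ((sym α k : ℝ) : ℂ) * fc v k =
      lam * fc (fun z => Real.exp (v z) * (1 - Real.exp (v z))) k - (4 * Real.pi : ℝ) := by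
  obtain ⟨w, C, hwm, hw2, hw0, hwk, hwC⟩ := exists_background hα hα1
  obtain ⟨lam, u, ψ, hlam, hu2, hψ2, hu0, hψu, hu⟩ := exists_subsolution hα hα1
  have hlam0 : 0 < lam := by linarith
  choose step hstep using (fun v : V0 => exists_step hα hα1 hlam v)
  let z0 : V0 := ⟨fun _ => 0, stronglyMeasurable_const, memLp_const 0, ae_of_all _ (fun _ => le_refl _)⟩
  let s : ℕ → V0 := fun n => step^[n] z0
  have hs0 : s 0 = z0 := rfl
  have hs1 : ∀ n, s (n + 1) = step (s n) := fun n => Function.iterate_succ_apply' step n z0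
  have hsk : ∀ n k, ((lam + sym α k : ℝ) : ℂ) * fc (s (n + 1)).1 k =
      lam * fc (fun z => Fn ((s n).1 z)) k - (4 * Real.pi : ℝ) := fun n k => by
    rw [hs1]; exact hstep (s n) k
  have hsi : ∀ n, Integrable (s n).1 := fun n => (s n).2.2.1.integrable (by norm_num)
  have hsF : ∀ n, Integrable (fun z => Fn ((s n).1 z)) := fun n =>
    (memLp_Fn (s n).2.2.1 (s n).2.2.2).integrable (by norm_num)
  have hui : Integrable u := hu2.integrable (by norm_num)
  have huF : Integrable (fun z => Fn (u z)) := (memLp_Fn hu2 hu0).integrable (by norm_num)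
  have hψi : Integrable ψ := hψ2.integrable (by norm_num)
  -- general comparison
  have hcmp : ∀ (g h : T2 → ℝ), Integrable g → Integrable h → 0 ≤ᵐ[volume] h →
      (∀ k, ((lam + sym α k : ℝ) : ℂ) * fc g k = fc h k) → 0 ≤ᵐ[volume] g := by
    intro g h hg hh hh0 hrel
    refine pos_of_resolvent (α := α) (K := lam) hα.le hlam0 hg hh hh0 (a := 0) le_rfl
      (fun k => ?_)
    rw [hrel]; simp
  -- antitone
  have hanti : ∀ n, ∀ᵐ z ∂(volume : Measure T2), (s (n + 1)).1 z ≤ (s n).1 z := by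
    intro n
    induction n with
    | zero => exact (s 1).2.2.2
    | succ n ih =>
      have h1 : 0 ≤ᵐ[volume] (fun z => (s (n + 1)).1 z - (s (n + 2)).1 z) := by
        refine hcmp _ (fun z => lam * (Fn ((s n).1 z) - Fn ((s (n + 1)).1 z)))
          ((hsi _).sub (hsi _)) (((hsF n).sub (hsF (n + 1))).const_mul lam) ?_ (fun k => ?_)
        · filter_upwards [ih, (s n).2.2.2] with z hz1 hz2
          have := Fn_mono hz1 hz2
          simp only [Pi.zero_apply]
          nlinarith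
        · rw [fc_sub (hsi _) (hsi _), fc_const_mul, fc_sub (hsF _) (hsF _), mul_sub, hsk, hsk]
          ring
      filter_upwards [h1] with z hz
      have hz' : 0 ≤ (s (n + 1)).1 z - (s (n + 2)).1 z := hz
      linarith
  -- lower bound
  have hlow : ∀ n, ∀ᵐ z ∂(volume : Measure T2), u z ≤ (s n).1 z := by
    intro n
    induction n with
    | zero => exact hu0
    | succ n ih =>
      have hI1 : Integrable (fun z => Fn ((s n).1 z) - u z) := (hsF n).sub hui
      have hI2 : Integrable (fun z => lam * (Fn ((s n).1 z) - u z)) := hI1.const_mul lam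
      have h1 : 0 ≤ᵐ[volume] (fun z => (s (n + 1)).1 z - u z) := by
        refine hcmp _ (fun z => lam * (Fn ((s n).1 z) - u z) - ψ z)
          ((hsi _).sub hui) (hI2.sub hψi) ?_ (fun k => ?_)
        · filter_upwards [ih, (s n).2.2.2, hψu] with z hz1 hz2 hz3
          have h4 := Fn_mono hz1 hz2
          have h5 : Real.exp (u z) * (1 - Real.exp (u z)) = Fn (u z) - u z := by
            unfold Fn; ring
          rw [h5] at hz3
          simp only [Pi.zero_apply]
          nlinarith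
        · rw [fc_sub (hsi _) hui, fc_sub hI2 hψi, fc_const_mul, fc_sub (hsF _) hui, mul_sub, hsk]
          have := hu k
          push_cast at this ⊢
          linear_combination (-1) * this
      filter_upwards [h1] with z hz
      have hz' : 0 ≤ (s (n + 1)).1 z - u z := hz
      linarith
  -- the limit
  have hall : ∀ᵐ z ∂(volume : Measure T2), (∀ n, (s (n + 1)).1 z ≤ (s n).1 z) ∧
      (∀ n, u z ≤ (s n).1 z) ∧ (∀ n, (s n).1 z ≤ 0) :=
    (ae_all_iff.mpr hanti).and ((ae_all_iff.mpr hlow).and (ae_all_iff.mpr (fun n => (s n).2.2.2)))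
  let v : T2 → ℝ := fun z => ⨅ n, (s n).1 z
  have htend : ∀ᵐ z ∂(volume : Measure T2), Tendsto (fun n => (s n).1 z) atTop (𝓝 (v z)) := by
    filter_upwards [hall] with z hz
    refine tendsto_atTop_ciInf (antitone_nat_of_succ_le hz.1) ⟨u z, ?_⟩
    rintro _ ⟨n, rfl⟩
    exact hz.2.1 n
  have hvm : AEStronglyMeasurable v (volume : Measure T2) :=
    aestronglyMeasurable_of_tendsto_ae atTop (fun n => (s n).2.1.aestronglyMeasurable) htend
  have hvu : ∀ᵐ z ∂(volume : Measure T2), u z ≤ v z ∧ v z ≤ 0 := by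
    filter_upwards [hall, htend] with z hz hz2
    exact ⟨ge_of_tendsto' hz2 hz.2.1, le_of_tendsto' hz2 hz.2.2⟩
  have hv2 : MemLp v 2 (volume : Measure T2) := by
    refine hu2.mono hvm ?_
    filter_upwards [hvu] with z hz
    rw [Real.norm_eq_abs, Real.norm_eq_abs, abs_of_nonpos hz.2, abs_of_nonpos (hz.1.trans hz.2)]
    linarith [hz.1]
  have hv0 : ∀ᵐ z ∂(volume : Measure T2), v z ≤ 0 := by
    filter_upwards [hvu] with z hz using hz.2
  have hvi : Integrable v := hv2.integrable (by norm_num)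
  have hvF : Integrable (fun z => Fn (v z)) := (memLp_Fn hv2 hv0).integrable (by norm_num)
  -- convergence of Fourier coefficients
  have hfc1 : ∀ k, Tendsto (fun n => fc (s n).1 k) atTop (𝓝 (fc v k)) := by
    intro k
    simp only [fc_eq]
    refine tendsto_integral_of_dominated_convergence (fun z => ‖u z‖) ?_ hui.norm ?_ ?_
    · intro n
      exact (integrable_mFourier_mul (hsi n) _).1
    · intro n
      filter_upwards [hall] with z hz
      rw [norm_mul, Complex.norm_real]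
      have h1 : ‖UnitAddTorus.mFourier (-k) z‖ ≤ 1 := by
        calc ‖UnitAddTorus.mFourier (-k) z‖ ≤ ‖UnitAddTorus.mFourier (-k)‖ :=
              (UnitAddTorus.mFourier (-k)).norm_coe_le_norm z
          _ = 1 := UnitAddTorus.mFourier_norm
      have h2 : ‖(s n).1 z‖ ≤ ‖u z‖ := by
        have ha := hz.2.1 n
        have hb := hz.2.2 n
        rw [Real.norm_eq_abs, Real.norm_eq_abs, abs_of_nonpos hb, abs_of_nonpos (ha.trans hb)]
        linarith
      calc _ ≤ 1 * ‖(s n).1 z‖ := mul_le_mul_of_nonneg_right h1 (norm_nonneg _)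
        _ ≤ ‖u z‖ := by rw [one_mul]; exact h2
    · filter_upwards [htend] with z hz
      exact ((Complex.continuous_ofReal.tendsto _).comp hz).const_mul _
  have hfc2 : ∀ k, Tendsto (fun n => fc (fun z => Fn ((s n).1 z)) k) atTop
      (𝓝 (fc (fun z => Fn (v z)) k)) := by
    intro k
    simp only [fc_eq]
    refine tendsto_integral_of_dominated_convergence (fun z => ‖u z‖) ?_ hui.norm ?_ ?_
    · intro n
      exact (integrable_mFourier_mul (hsF n) _).1
    · intro n
      filter_upwards [hall] with z hz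
      rw [norm_mul, Complex.norm_real]
      have h1 : ‖UnitAddTorus.mFourier (-k) z‖ ≤ 1 := by
        calc ‖UnitAddTorus.mFourier (-k) z‖ ≤ ‖UnitAddTorus.mFourier (-k)‖ :=
              (UnitAddTorus.mFourier (-k)).norm_coe_le_norm z
          _ = 1 := UnitAddTorus.mFourier_norm
      have h2 : ‖Fn ((s n).1 z)‖ ≤ ‖u z‖ := by
        have ha := hz.2.1 n
        have hb := hz.2.2 n
        have hc := abs_Fn_le hb
        rw [Real.norm_eq_abs, Real.norm_eq_abs]
        refine hc.trans ?_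
        rw [abs_of_nonpos hb, abs_of_nonpos (ha.trans hb)]
        linarith
      calc _ ≤ 1 * ‖Fn ((s n).1 z)‖ := mul_le_mul_of_nonneg_right h1 (norm_nonneg _)
        _ ≤ ‖u z‖ := by rw [one_mul]; exact h2
    · filter_upwards [htend] with z hz
      have h3 : Tendsto (fun n => Fn ((s n).1 z)) atTop (𝓝 (Fn (v z))) :=
        (continuous_Fn.tendsto _).comp hz
      exact ((Complex.continuous_ofReal.tendsto _).comp h3).const_mul _
  have hlimit : ∀ k, ((lam + sym α k : ℝ) : ℂ) * fc v k =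
      lam * fc (fun z => Fn (v z)) k - (4 * Real.pi : ℝ) := by
    intro k
    have h1 : Tendsto (fun n => ((lam + sym α k : ℝ) : ℂ) * fc (s (n + 1)).1 k) atTop
        (𝓝 (((lam + sym α k : ℝ) : ℂ) * fc v k)) :=
      ((hfc1 k).comp (tendsto_add_atTop_nat 1)).const_mul _
    have h2 : Tendsto (fun n => ((lam + sym α k : ℝ) : ℂ) * fc (s (n + 1)).1 k) atTop
        (𝓝 (lam * fc (fun z => Fn (v z)) k - (4 * Real.pi : ℝ))) := by
      simp only [hsk]
      exact ((hfc2 k).const_mul _).sub_const _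
    exact tendsto_nhds_unique h1 h2
  refine ⟨lam, w, v, hlam0, hw2, hv2, hv0, hw0, hwk, fun k => ?_⟩
  have h1 : fc (fun z => Fn (v z)) k =
      fc v k + fc (fun z => Real.exp (v z) * (1 - Real.exp (v z))) k := by
    have hI : Integrable (fun z => Real.exp (v z) * (1 - Real.exp (v z))) := by
      refine (hvF.sub hvi).congr (Eventually.of_forall (fun z => ?_))
      simp only [Fn, Pi.sub_apply]; ring
    rw [← fc_add hvi hI]
    rfl
  have h2 := hlimit k
  rw [h1] at h2
  push_cast at h2 ⊢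
  linear_combination h2

end Pool.Agent.H88
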