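import Mathlib
import Pool.Agent.H88.CSDefs
import Pool.Agent.H88.CSBridgeA
import Pool.Agent.H88.Existence

open MeasureTheory Set Filter Topology
open scoped ComplexConjugate ENNReal ContDiff

noncomputable section

namespace Pool.Agent.H88.CS

attribute [local instance] circleMS circleHaar circleProb

/-- The covering map of the torus `[0,r) × [0,1)`. -/
def proj (r : ℝ) (p : ℝ × ℝ) : T2 :=
  fun i => if i = 0 then ((p.1 / r : ℝ) : UnitAddCircle) else ((p.2 : ℝ) : UnitAddCircle)

theorem proj_zero_apply (r : ℝ) (p : ℝ × ℝ) : proj r p 0 = ((p.1 / r : ℝ) : UnitAddCircle) := rfl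

theorem proj_one_apply (r : ℝ) (p : ℝ × ℝ) : proj r p 1 = ((p.2 : ℝ) : UnitAddCircle) := rfl

theorem rep_coe_eq_fract (x : ℝ) : rep (x : UnitAddCircle) = Int.fract x := by
  have h := AddCircle.coe_equivIco_mk_apply (p := (1 : ℝ)) x
  unfold rep
  rw [div_one, mul_one] at h
  exact h

theorem proj_secr {r : ℝ} (hr : 0 < r) (z : T2) : proj r (secr r z) = z := by
  funext i
  have hi : i = 0 ∨ i = 1 := by fin_cases i <;> simp
  rcases hi with rfl | rfl
  · rw [proj_zero_apply]
    unfold secr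
    have : r * rep (z 0) / r = rep (z 0) := by field_simp
    rw [this, coe_rep]
  · rw [proj_one_apply]
    unfold secr
    exact coe_rep _

theorem periodic_secr_proj {r : ℝ} (hr : 0 < r) {φ : ℝ × ℝ → ℝ}
    (h : DoublyPeriodic (r, 0) (0, 1) φ) (p : ℝ × ℝ) : φ (secr r (proj r p)) = φ p := by
  have h1 : secr r (proj r p) = p + (-⌊p.1 / r⌋) • (r, (0 : ℝ)) + (-⌊p.2⌋) • ((0 : ℝ), (1 : ℝ)) := by
    unfold secr
    rw [proj_zero_apply, proj_one_apply, rep_coe_eq_fract, rep_coe_eq_fract, Prod.smul_mk,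
      Prod.smul_mk]
    ext
    · simp only [Prod.fst_add, zsmul_eq_mul, Int.cast_neg, mul_zero, add_zero, Int.fract]
      field_simp
      ring
    · simp only [Prod.snd_add, zsmul_eq_mul, Int.cast_neg, mul_zero, add_zero, Int.fract]
      ring
  have ha : Function.Periodic φ (r, (0 : ℝ)) := h.1
  have hb : Function.Periodic φ ((0 : ℝ), (1 : ℝ)) := h.2
  rw [h1, (hb.zsmul _) _, (ha.zsmul _) _]

theorem proj_add_a {r : ℝ} (hr : 0 < r) (p : ℝ × ℝ) : proj r (p + (r, 0)) = proj r p := by
  funext i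
  have hi : i = 0 ∨ i = 1 := by fin_cases i <;> simp
  rcases hi with rfl | rfl
  · rw [proj_zero_apply, proj_zero_apply]
    have : (p + (r, 0)).1 / r = p.1 / r + 1 := by
      simp only [Prod.fst_add]; field_simp
    rw [this, AddCircle.coe_add, AddCircle.coe_period, add_zero]
  · rw [proj_one_apply, proj_one_apply]; simp

theorem proj_add_b (r : ℝ) (p : ℝ × ℝ) : proj r (p + (0, 1)) = proj r p := by
  funext i
  have hi : i = 0 ∨ i = 1 := by fin_cases i <;> simp
  rcases hi with rfl | rfl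
  · rw [proj_zero_apply, proj_zero_apply]; simp
  · rw [proj_one_apply, proj_one_apply]
    have : (p + (0, 1)).2 = p.2 + 1 := by simp
    rw [this, AddCircle.coe_add, AddCircle.coe_period, add_zero]

/-- A function on the torus lifted to the plane is doubly periodic. -/
theorem doublyPeriodic_lift {r : ℝ} (hr : 0 < r) (g : T2 → ℝ) :
    DoublyPeriodic (r, 0) (0, 1) (fun p => g (proj r p)) :=
  ⟨fun z => by simp only [proj_add_a hr], fun z => by simp only [proj_add_b]⟩

theorem memLp_lift {r : ℝ} (hr : 0 < r) {g : T2 → ℝ} (hg : MemLp g 2 (volume : Measure T2)) :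
    MemLp (fun p => g (proj r p)) 2 (volume.restrict (cell (r, 0) (0, 1))) := by
  have h1 : MemLp (fun p => g (proj r p)) 2 (Measure.map (secr r) (volume : Measure T2)) := by
    rw [(measurableEmbedding_secr hr).memLp_map_measure_iff]
    have : (fun p => g (proj r p)) ∘ secr r = g := by
      funext z; simp only [Function.comp, proj_secr hr]
    rw [this]; exact hg
  rw [(measurePreserving_secr hr).map_eq] at h1
  have h2 := h1.smul_measure (c := ENNReal.ofReal r) ENNReal.ofReal_ne_top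
  rw [smul_smul, ← ENNReal.ofReal_mul hr.le, mul_inv_cancel₀ hr.ne', ENNReal.ofReal_one,
    one_smul] at h2
  exact h2

theorem integrableOn_lift {r : ℝ} (hr : 0 < r) {g : T2 → ℝ} (hg : Integrable g (volume : Measure T2)) :
    IntegrableOn (fun p => g (proj r p)) (cell (r, 0) (0, 1)) := by
  have h1 : Integrable (fun p => g (proj r p)) (Measure.map (secr r) (volume : Measure T2)) := by
    rw [(measurableEmbedding_secr hr).integrable_map_iff]
    have : (fun p => g (proj r p)) ∘ secr r = g := by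
      funext z; simp only [Function.comp, proj_secr hr]
    rw [this]; exact hg
  rw [(measurePreserving_secr hr).map_eq] at h1
  have h2 := h1.smul_measure (c := ENNReal.ofReal r) ENNReal.ofReal_ne_top
  rw [smul_smul, ← ENNReal.ofReal_mul hr.le, mul_inv_cancel₀ hr.ne', ENNReal.ofReal_one,
    one_smul] at h2
  exact h2

/-- Integral over the cell as an integral over the torus. -/
theorem integral_cell {r : ℝ} (hr : 0 < r) (F : ℝ × ℝ → ℝ) :
    ∫ p in cell (r, 0) (0, 1), F p = r * ∫ z : T2, F (secr r z) := by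
  rw [integral_secr hr F, smul_eq_mul, ← mul_assoc, mul_inv_cancel₀ hr.ne', one_mul]

theorem continuous_test_torus {r : ℝ} (hr : 0 < r) {φ : ℝ × ℝ → ℝ}
    (hc : Continuous φ) (h : DoublyPeriodic (r, 0) (0, 1) φ) :
    Continuous (fun z : T2 => φ (secr r z)) := by
  have hq : IsOpenQuotientMap (Pi.map (fun (_ : Fin 2) (x : ℝ) => (x : UnitAddCircle))) :=
    IsOpenQuotientMap.piMap (fun _ => QuotientAddGroup.isOpenQuotientMap_mk)
  have h2 : Continuous ((fun z : T2 => φ (secr r z)) ∘
      (Pi.map (fun (_ : Fin 2) (x : ℝ) => (x : UnitAddCircle)))) := by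
    have h3 : ((fun z : T2 => φ (secr r z)) ∘
      (Pi.map (fun (_ : Fin 2) (x : ℝ) => (x : UnitAddCircle)))) =
        fun x : Fin 2 → ℝ => φ (r * x 0, x 1) := by
      funext x
      have h4 := periodic_secr_proj hr h (r * x 0, x 1)
      rw [← h4]
      simp only [Function.comp]
      congr 2
      funext i
      have hi : i = 0 ∨ i = 1 := by fin_cases i <;> simp
      rcases hi with rfl | rfl
      · rw [proj_zero_apply]
        have : r * x 0 / r = x 0 := by field_simp
        simp only [Pi.map_apply, this]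
      · rw [proj_one_apply]; simp only [Pi.map_apply]
    rw [h3]
    fun_prop
  exact hq.isQuotientMap.continuous_iff.mpr h2

theorem memLp_test_torus {r : ℝ} (hr : 0 < r) {φ : ℝ × ℝ → ℝ}
    (hc : Continuous φ) (h : DoublyPeriodic (r, 0) (0, 1) φ) :
    MemLp (fun z : T2 => φ (secr r z)) 2 (volume : Measure T2) := by
  have hcont := continuous_test_torus hr hc h
  let f : C(T2, ℝ) := ⟨_, hcont⟩
  refine MemLp.of_bound hcont.aestronglyMeasurable ‖f‖ (Eventually.of_forall (fun z => ?_))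
  exact f.norm_coe_le_norm z

/-- The integral of a derivative of a test function vanishes. -/
theorem integral_dx_eq_zero {r : ℝ} (hr : 0 < r) {ψ : ℝ × ℝ → ℝ} (h : IsTest (r, 0) (0, 1) ψ) :
    ∫ z in cell (r, 0) (0, 1), dx ψ z = 0 := by
  have hdc := h.dx.continuous
  have hi : Integrable (dx ψ) ((volume.restrict (Ico (0 : ℝ) r)).prod (volume.restrict (Ico (0 : ℝ) 1))) := by
    rw [Measure.prod_restrict, ← Measure.volume_eq_prod]
    have hK : IntegrableOn (dx ψ) (Icc (0 : ℝ) r ×ˢ Icc (0 : ℝ) 1) :=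
      hdc.continuousOn.integrableOn_compact (isCompact_Icc.prod isCompact_Icc)
    exact hK.mono_set (prod_mono Ico_subset_Icc_self Ico_subset_Icc_self)
  rw [cell_eq hr, Measure.volume_eq_prod, ← Measure.prod_restrict, integral_prod_symm _ hi]
  have : ∀ y : ℝ, ∫ x in Ico (0 : ℝ) r, dx ψ (x, y) = 0 := by
    intro y
    rw [integral_Ico_eq_integral_Ioc, ← intervalIntegral.integral_of_le hr.le]
    have hd : ∀ x ∈ uIcc (0 : ℝ) r, HasDerivAt (fun x : ℝ => ψ (x, y)) (dx ψ (x, y)) x := by
      intro x _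
      have h1 : HasFDerivAt ψ (fderiv ℝ ψ (x, y)) (x, y) :=
        (h.1.differentiable (by norm_num) (x, y)).hasFDerivAt
      have h2 : HasDerivAt (fun x : ℝ => (x, y)) ((1 : ℝ), (0 : ℝ)) x :=
        (hasDerivAt_id x).prodMk (hasDerivAt_const x y)
      exact h1.comp_hasDerivAt x h2
    have hint : IntervalIntegrable (fun x => dx ψ (x, y)) volume 0 r := by
      apply Continuous.intervalIntegrable
      exact hdc.comp (by fun_prop)
    rw [intervalIntegral.integral_eq_sub_of_hasDerivAt hd hint]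
    have := h.2.1 (0, y)
    simp only [Prod.mk_add_mk, zero_add, add_zero] at this
    rw [this, sub_self]
  simp only [this, integral_zero]

theorem integral_dy_eq_zero {r : ℝ} (hr : 0 < r) {ψ : ℝ × ℝ → ℝ} (h : IsTest (r, 0) (0, 1) ψ) :
    ∫ z in cell (r, 0) (0, 1), dy ψ z = 0 := by
  have hdc := h.dy.continuous
  have hi : Integrable (dy ψ) ((volume.restrict (Ico (0 : ℝ) r)).prod (volume.restrict (Ico (0 : ℝ) 1))) := by
    rw [Measure.prod_restrict, ← Measure.volume_eq_prod]
    have hK : IntegrableOn (dy ψ) (Icc (0 : ℝ) r ×ˢ Icc (0 : ℝ) 1) :=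
      hdc.continuousOn.integrableOn_compact (isCompact_Icc.prod isCompact_Icc)
    exact hK.mono_set (prod_mono Ico_subset_Icc_self Ico_subset_Icc_self)
  rw [cell_eq hr, Measure.volume_eq_prod, ← Measure.prod_restrict, integral_prod _ hi]
  have : ∀ x : ℝ, ∫ y in Ico (0 : ℝ) 1, dy ψ (x, y) = 0 := by
    intro x
    rw [integral_Ico_eq_integral_Ioc, ← intervalIntegral.integral_of_le zero_le_one]
    have hd : ∀ y ∈ uIcc (0 : ℝ) 1, HasDerivAt (fun y : ℝ => ψ (x, y)) (dy ψ (x, y)) y := by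
      intro y _
      have h1 : HasFDerivAt ψ (fderiv ℝ ψ (x, y)) (x, y) :=
        (h.1.differentiable (by norm_num) (x, y)).hasFDerivAt
      have h2 : HasDerivAt (fun y : ℝ => (x, y)) ((0 : ℝ), (1 : ℝ)) y :=
        (hasDerivAt_const y x).prodMk (hasDerivAt_id y)
      exact h1.comp_hasDerivAt y h2
    have hint : IntervalIntegrable (fun y => dy ψ (x, y)) volume 0 1 := by
      apply Continuous.intervalIntegrable
      exact hdc.comp (by fun_prop)
    rw [intervalIntegral.integral_eq_sub_of_hasDerivAt hd hint]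
    have := h.2.2 (x, 0)
    simp only [Prod.mk_add_mk, zero_add, add_zero] at this
    rw [this, sub_self]
  simp only [this, integral_zero]

theorem IsTest.mul {a b : ℝ × ℝ} {φ ψ : ℝ × ℝ → ℝ} (h : IsTest a b φ) (h' : IsTest a b ψ) :
    IsTest a b (fun z => φ z * ψ z) :=
  ⟨h.1.mul h'.1, fun z => by simp only [h.2.1 z, h'.2.1 z], fun z => by simp only [h.2.2 z, h'.2.2 z]⟩

theorem IsTest.differentiableAt {a b : ℝ × ℝ} {φ : ℝ × ℝ → ℝ} (h : IsTest a b φ) (z : ℝ × ℝ) :
    DifferentiableAt ℝ φ z := h.1.differentiable (by norm_num) z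

theorem dx_mul {φ ψ : ℝ × ℝ → ℝ} {z : ℝ × ℝ} (h : DifferentiableAt ℝ φ z)
    (h' : DifferentiableAt ℝ ψ z) : dx (fun z => φ z * ψ z) z = dx φ z * ψ z + φ z * dx ψ z := by
  unfold dx
  rw [fderiv_fun_mul h h']
  simp
  ring

theorem dy_mul {φ ψ : ℝ × ℝ → ℝ} {z : ℝ × ℝ} (h : DifferentiableAt ℝ φ z)
    (h' : DifferentiableAt ℝ ψ z) : dy (fun z => φ z * ψ z) z = dy φ z * ψ z + φ z * dy ψ z := by
  unfold dy
  rw [fderiv_fun_mul h h']
  simp
  ring

theorem IsTest.integrableOn {r : ℝ} (hr : 0 < r) {φ : ℝ × ℝ → ℝ} (h : IsTest (r, 0) (0, 1) φ) :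
    IntegrableOn φ (cell (r, 0) (0, 1)) := by
  have : Fact (0 < r) := ⟨hr⟩
  have h1 : IntegrableOn (fun _ : ℝ × ℝ => (1 : ℝ)) (cell (r, 0) (0, 1)) := integrable_const _
  have := integrableOn_mul_cont hr h1 h.continuous
  simpa using this

/-- Integration by parts on the torus. -/
theorem ibp_dx {r : ℝ} (hr : 0 < r) {φ ψ : ℝ × ℝ → ℝ} (h : IsTest (r, 0) (0, 1) φ)
    (h' : IsTest (r, 0) (0, 1) ψ) :
    ∫ z in cell (r, 0) (0, 1), dx φ z * ψ z = -∫ z in cell (r, 0) (0, 1), φ z * dx ψ z := by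
  have h1 := integral_dx_eq_zero hr (h.mul h')
  have h2 : ∫ z in cell (r, 0) (0, 1), dx (fun z => φ z * ψ z) z =
      (∫ z in cell (r, 0) (0, 1), dx φ z * ψ z) + ∫ z in cell (r, 0) (0, 1), φ z * dx ψ z := by
    rw [← integral_add ((h.dx.mul h').integrableOn hr) ((h.mul h'.dx).integrableOn hr)]
    refine integral_congr_ae (Eventually.of_forall (fun z => ?_))
    exact dx_mul (h.differentiableAt z) (h'.differentiableAt z)
  rw [h2] at h1
  linarith

theorem ibp_dy {r : ℝ} (hr : 0 < r) {φ ψ : ℝ × ℝ → ℝ} (h : IsTest (r, 0) (0, 1) φ)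
    (h' : IsTest (r, 0) (0, 1) ψ) :
    ∫ z in cell (r, 0) (0, 1), dy φ z * ψ z = -∫ z in cell (r, 0) (0, 1), φ z * dy ψ z := by
  have h1 := integral_dy_eq_zero hr (h.mul h')
  have h2 : ∫ z in cell (r, 0) (0, 1), dy (fun z => φ z * ψ z) z =
      (∫ z in cell (r, 0) (0, 1), dy φ z * ψ z) + ∫ z in cell (r, 0) (0, 1), φ z * dy ψ z := by
    rw [← integral_add ((h.dy.mul h').integrableOn hr) ((h.mul h'.dy).integrableOn hr)]
    refine integral_congr_ae (Eventually.of_forall (fun z => ?_))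
    exact dy_mul (h.differentiableAt z) (h'.differentiableAt z)
  rw [h2] at h1
  linarith

/-- Fourier coefficients of the first partial derivative. -/
theorem fc_dx {r : ℝ} (hr : 0 < r) {φ : ℝ × ℝ → ℝ} (h : IsTest (r, 0) (0, 1) φ) (k : Fin 2 → ℤ) :
    fc (fun z => dx φ (secr r z)) k =
      ((2 * Real.pi * ((k 0 : ℝ) / r) : ℝ) : ℂ) * Complex.I * fc (fun z => φ (secr r z)) k := by
  rw [fc_secr hr (h.dx.integrableOn hr), fc_secr hr (h.integrableOn hr)]
  have hc := ibp_dx hr h (isTest_cos hr.ne' k)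
  have hs := ibp_dx hr h (isTest_sin hr.ne' k)
  rw [dx_cos] at hc
  rw [dx_sin] at hs
  set c : ℝ := 2 * Real.pi * ((k 0 : ℝ) / r) with hcdef
  have hc2 : ∫ z in cell (r, 0) (0, 1), φ z * (c * (-Real.sin (phase r k z))) =
      -(c * ∫ z in cell (r, 0) (0, 1), φ z * Real.sin (phase r k z)) := by
    rw [← integral_const_mul, ← integral_neg]
    refine integral_congr_ae (Eventually.of_forall (fun z => ?_))
    simp only; ring
  have hs2 : ∫ z in cell (r, 0) (0, 1), φ z * (c * Real.cos (phase r k z)) =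
      c * ∫ z in cell (r, 0) (0, 1), φ z * Real.cos (phase r k z) := by
    rw [← integral_const_mul]
    refine integral_congr_ae (Eventually.of_forall (fun z => ?_))
    simp only; ring
  rw [hc2, neg_neg] at hc
  rw [hs2] at hs
  rw [hc, hs]
  push_cast
  ring_nf
  rw [Complex.I_sq]
  ring

theorem fc_dy {r : ℝ} (hr : 0 < r) {φ : ℝ × ℝ → ℝ} (h : IsTest (r, 0) (0, 1) φ) (k : Fin 2 → ℤ) :
    fc (fun z => dy φ (secr r z)) k =
      ((2 * Real.pi * (k 1 : ℝ) : ℝ) : ℂ) * Complex.I * fc (fun z => φ (secr r z)) k := by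
  rw [fc_secr hr (h.dy.integrableOn hr), fc_secr hr (h.integrableOn hr)]
  have hc := ibp_dy hr h (isTest_cos hr.ne' k)
  have hs := ibp_dy hr h (isTest_sin hr.ne' k)
  rw [dy_cos] at hc
  rw [dy_sin] at hs
  set c : ℝ := 2 * Real.pi * (k 1 : ℝ) with hcdef
  have hc2 : ∫ z in cell (r, 0) (0, 1), φ z * (c * (-Real.sin (phase r k z))) =
      -(c * ∫ z in cell (r, 0) (0, 1), φ z * Real.sin (phase r k z)) := by
    rw [← integral_const_mul, ← integral_neg]
    refine integral_congr_ae (Eventually.of_forall (fun z => ?_))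
    simp only; ring
  have hs2 : ∫ z in cell (r, 0) (0, 1), φ z * (c * Real.cos (phase r k z)) =
      c * ∫ z in cell (r, 0) (0, 1), φ z * Real.cos (phase r k z) := by
    rw [← integral_const_mul]
    refine integral_congr_ae (Eventually.of_forall (fun z => ?_))
    simp only; ring
  rw [hc2, neg_neg] at hc
  rw [hs2] at hs
  rw [hc, hs]
  push_cast
  ring_nf
  rw [Complex.I_sq]
  ring

theorem fc_lap {r : ℝ} (hr : 0 < r) {φ : ℝ × ℝ → ℝ} (h : IsTest (r, 0) (0, 1) φ) (k : Fin 2 → ℤ) :
    fc (fun z => CS.lap φ (secr r z)) k =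
      -((sym (1 / r ^ 2) k : ℝ) : ℂ) * fc (fun z => φ (secr r z)) k := by
  have e : fc (fun z => CS.lap φ (secr r z)) k =
      fc (fun z => dx (dx φ) (secr r z)) k + fc (fun z => dy (dy φ) (secr r z)) k := by
    rw [← fc_add (integrable_secr hr (h.dx.dx.integrableOn hr))
      (integrable_secr hr (h.dy.dy.integrableOn hr))]
    rfl
  rw [e, fc_dx hr h.dx, fc_dy hr h.dy, fc_dx hr h, fc_dy hr h]
  unfold sym
  push_cast
  ring_nf
  rw [Complex.I_sq]
  ring

/-- Fourier inversion at the origin for a test function. -/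
theorem hasSum_fc_test {r : ℝ} (hr : 1 ≤ r) {φ : ℝ × ℝ → ℝ} (h : IsTest (r, 0) (0, 1) φ) :
    HasSum (fun k => fc (fun z => φ (secr r z)) k) (φ (0, 0) : ℂ) := by
  have hr0 : 0 < r := by linarith
  have hα : 0 < 1 / r ^ 2 := by positivity
  have hα1 : 1 / r ^ 2 ≤ 1 := by
    rw [div_le_one (by positivity)]; nlinarith
  have hcont := continuous_test_torus hr0 h.continuous h.2
  let f : C(T2, ℂ) := ⟨fun z => ((φ (secr r z) : ℝ) : ℂ), Complex.continuous_ofReal.comp hcont⟩
  have hψ2 : MemLp (fun z : T2 => φ (secr r z) - CS.lap φ (secr r z)) 2 (volume : Measure T2) :=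
    (memLp_test_torus hr0 h.continuous h.2).sub (memLp_test_torus hr0 h.lap.continuous h.lap.2)
  have hψ : ∀ k, fc (fun z : T2 => φ (secr r z) - CS.lap φ (secr r z)) k =
      ((1 + sym (1 / r ^ 2) k : ℝ) : ℂ) * fc (fun z => φ (secr r z)) k := by
    intro k
    rw [fc_sub (integrable_secr hr0 (h.integrableOn hr0))
      (integrable_secr hr0 (h.lap.integrableOn hr0)), fc_lap hr0 h]
    push_cast
    ring
  have hsum : Summable (fun k => fc (fun z => φ (secr r z)) k) := by
    refine Summable.of_norm ?_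
    have hs : Summable (fun k => ‖fc (fun z : T2 => φ (secr r z) - CS.lap φ (secr r z)) k‖ ^ 2 +
        (1 / (1 / r ^ 2) ^ 2) * wt k) := (hasSum_sq_fc hψ2).summable.add (summable_wt.mul_left _)
    refine Summable.of_nonneg_of_le (fun k => norm_nonneg _) (fun k => ?_) hs
    have hpos : 0 < 1 + sym (1 / r ^ 2) k := by
      have := sym_nonneg hα.le k; linarith
    have hw := inv_sq_le_wt' hα (one_add_le_add_sym' hα hα1 k)
    rw [hψ, norm_mul, Complex.norm_real, Real.norm_eq_abs, abs_of_pos hpos]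
    set x := ‖fc (fun z => φ (secr r z)) k‖
    set s := 1 + sym (1 / r ^ 2) k
    have h1 : x = (s * x) * (1 / s) := by field_simp
    have h2 : (s * x) * (1 / s) ≤ (s * x) ^ 2 + (1 / s) ^ 2 := by
      nlinarith [sq_nonneg (s * x - 1 / s), sq_nonneg (s * x), sq_nonneg (1 / s)]
    have h3 : (1 / s) ^ 2 = 1 / s ^ 2 := by rw [div_pow, one_pow]
    rw [h3] at h2
    linarith
  have key := UnitAddTorus.hasSum_mFourier_series_apply_of_summable (f := f) hsum 0
  have e1 : f 0 = (φ (0, 0) : ℂ) := by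
    simp only [f, ContinuousMap.coe_mk]
    congr 2
    unfold secr
    have : rep ((0 : T2) 0) = 0 := by
      have := rep_coe (x := 0) ⟨le_rfl, one_pos⟩
      simpa using this
    have h1 : rep ((0 : T2) 1) = 0 := by
      have := rep_coe (x := 0) ⟨le_rfl, one_pos⟩
      simpa using this
    rw [this, h1, mul_zero]
  rw [e1] at key
  refine key.congr_fun (fun k => ?_)
  rw [mFourier_apply_zero, smul_eq_mul, mul_one]
  rfl

end Pool.Agent.H88.CS
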