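import Mathlib
import Pool.Agent.H88.CSDefs
import Pool.Agent.H88.CSBridgeA
import Pool.Agent.H88.CSBridgeB
import Pool.Agent.H88.Existence

open MeasureTheory Set Filter Topology
open scoped ComplexConjugate ENNReal ContDiff

noncomputable section

namespace Pool.Agent.H88.CS

attribute [local instance] circleMS circleHaar circleProb

/-- Parseval against a test function. -/
theorem hasSum_test {r : ℝ} (hr : 0 < r) {g : T2 → ℝ} (hg : MemLp g 2 (volume : Measure T2))
    {φ : ℝ × ℝ → ℝ} (hφc : Continuous φ) (hφp : DoublyPeriodic (r, 0) (0, 1) φ) :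
    HasSum (fun k => conj (fc g k) * fc (fun z => φ (secr r z)) k)
      (((r⁻¹ * ∫ p in cell (r, 0) (0, 1), g (proj r p) * φ p : ℝ)) : ℂ) := by
  have h := hasSum_inner_fc hg (memLp_test_torus hr hφc hφp)
  have e : ∫ z : T2, g z * φ (secr r z) = r⁻¹ * ∫ p in cell (r, 0) (0, 1), g (proj r p) * φ p := by
    have := integral_secr hr (fun p => g (proj r p) * φ p)
    simp only [proj_secr hr, smul_eq_mul] at this
    exact this
  rw [← e]
  exact h

/-- Strongly measurable version of the existence theorem on the torus. -/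
theorem exists_solution_torus' {α : ℝ} (hα : 0 < α) (hα1 : α ≤ 1) :
    ∃ (lam : ℝ) (w v : T2 → ℝ), 0 < lam ∧ StronglyMeasurable w ∧ StronglyMeasurable v ∧
    MemLp w 2 (volume : Measure T2) ∧ MemLp v 2 (volume : Measure T2) ∧
    (∀ᵐ z ∂(volume : Measure T2), v z ≤ 0) ∧
    fc w 0 = 0 ∧ (∀ k, k ≠ 0 → ((sym α k : ℝ) : ℂ) * fc w k = -(4 * Real.pi : ℝ)) ∧
    ∀ k, ((sym α k : ℝ) : ℂ) * fc v k =
      lam * fc (fun z => Real.exp (v z) * (1 - Real.exp (v z))) k - (4 * Real.pi : ℝ) := by
  obtain ⟨lam, w, v, hlam, hw2, hv2, hv0, hw0, hwk, hvk⟩ := exists_solution_torus hα hα1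
  obtain ⟨w', hw'm, hw'⟩ := hw2.1
  obtain ⟨v', hv'm, hv'⟩ := hv2.1
  refine ⟨lam, w', v', hlam, hw'm, hv'm, hw2.ae_eq hw', hv2.ae_eq hv', ?_, ?_, ?_, ?_⟩
  · filter_upwards [hv0, hv'] with z h1 h2
    rwa [← h2]
  · rw [← fc_congr_ae hw', hw0]
  · intro k hk
    rw [← fc_congr_ae hw', hwk k hk]
  · intro k
    have h1 : (fun z => Real.exp (v z) * (1 - Real.exp (v z))) =ᵐ[volume]
        (fun z => Real.exp (v' z) * (1 - Real.exp (v' z))) := by
      filter_upwards [hv'] with z hz
      rw [hz]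
    rw [← fc_congr_ae hv', hvk k, fc_congr_ae h1]

/-- The data of a solution on the rectangular torus with total vortex mass equal to the length. -/
theorem exists_data {r : ℝ} (hr : 1 ≤ r) : ∃ (lam : ℝ) (W V G₁ G₂ : T2 → ℝ), 0 < lam ∧
    StronglyMeasurable W ∧ StronglyMeasurable V ∧ StronglyMeasurable G₁ ∧ StronglyMeasurable G₂ ∧
    MemLp W 2 (volume : Measure T2) ∧ MemLp V 2 (volume : Measure T2) ∧
    MemLp G₁ 2 (volume : Measure T2) ∧ MemLp G₂ 2 (volume : Measure T2) ∧
    Integrable (fun z => Real.exp (V z) * (Real.exp (V z) - 1)) (volume : Measure T2) ∧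
    (∀ φ, IsTest (r, 0) (0, 1) φ → ∫ p in cell (r, 0) (0, 1), W (proj r p) * CS.lap φ p =
      -(4 * Real.pi) * (∫ p in cell (r, 0) (0, 1), φ p) + 4 * Real.pi * r * φ (0, 0)) ∧
    (∀ φ, IsTest (r, 0) (0, 1) φ → ∫ p in cell (r, 0) (0, 1), (V (proj r p) - W (proj r p)) * dx φ p =
      -∫ p in cell (r, 0) (0, 1), G₁ (proj r p) * φ p) ∧
    (∀ φ, IsTest (r, 0) (0, 1) φ → ∫ p in cell (r, 0) (0, 1), (V (proj r p) - W (proj r p)) * dy φ p =
      -∫ p in cell (r, 0) (0, 1), G₂ (proj r p) * φ p) ∧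
    (∀ φ, IsTest (r, 0) (0, 1) φ → ∫ p in cell (r, 0) (0, 1), (G₁ (proj r p) * dx φ p + G₂ (proj r p) * dy φ p) =
      -∫ p in cell (r, 0) (0, 1), (lam * (Real.exp (V (proj r p)) * (Real.exp (V (proj r p)) - 1)) +
        4 * Real.pi) * φ p) := by
  have hr0 : 0 < r := by linarith
  have hα : 0 < 1 / r ^ 2 := by positivity
  have hα1 : 1 / r ^ 2 ≤ 1 := by
    rw [div_le_one (by positivity)]; nlinarith
  set α := 1 / r ^ 2 with hαdef
  obtain ⟨lam, W, V, hlam, hWm, hVm, hW2, hV2, hV0, hW0, hWk, hVk⟩ := exists_solution_torus' hα hα1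
  have hWi : Integrable W := hW2.integrable (by norm_num)
  have hVi : Integrable V := hV2.integrable (by norm_num)
  set f : T2 → ℝ := fun z => Real.exp (V z) * (1 - Real.exp (V z)) with hf
  have hfm : AEStronglyMeasurable f (volume : Measure T2) := by
    have hc : Continuous (fun t : ℝ => Real.exp t * (1 - Real.exp t)) := by fun_prop
    exact hc.comp_aestronglyMeasurable hV2.1
  have hf2 : MemLp f 2 (volume : Measure T2) := by
    refine MemLp.of_bound hfm (1 / 4) ?_
    filter_upwards [hV0] with z hz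
    have h1 : Real.exp (V z) ≤ 1 := Real.exp_le_one_iff.mpr hz
    have h2 := Real.exp_pos (V z)
    rw [Real.norm_eq_abs, abs_of_nonneg (mul_nonneg h2.le (by linarith))]
    nlinarith [sq_nonneg (Real.exp (V z) - 1 / 2)]
  have hfi : Integrable f := hf2.integrable (by norm_num)
  have hnegf : Integrable (fun z => Real.exp (V z) * (Real.exp (V z) - 1)) (volume : Measure T2) := by
    refine hfi.neg.congr (Eventually.of_forall (fun z => ?_))
    simp only [hf, Pi.neg_apply]; ring
  have hmass : (lam : ℂ) * fc f 0 = (4 * Real.pi : ℝ) := by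
    have := hVk 0
    have hs : sym α 0 = 0 := by simp [sym]
    rw [hs] at this
    simp only [Complex.ofReal_zero, zero_mul] at this
    linear_combination (-1) * this
  -- v = V - W
  have hv2 : MemLp (fun z => V z - W z) 2 (volume : Measure T2) := hV2.sub hW2
  set v : T2 → ℝ := fun z => V z - W z with hv
  have hvk : ∀ k, ((sym α k : ℝ) : ℂ) * fc v k = lam * fc f k - if k = 0 then ((4 * Real.pi : ℝ) : ℂ) else 0 := by
    intro k
    rw [hv, fc_sub hVi hWi, mul_sub, hVk]
    by_cases hk : k = 0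
    · rw [if_pos hk]
      have hs : sym α k = 0 := by rw [hk]; simp [sym]
      rw [hs]; simp
    · rw [if_neg hk, hWk k hk]
      simp only [sub_zero]
      ring_nf
  -- gradient
  have hgrad : ∀ (c : (Fin 2 → ℤ) → ℝ), (∀ k, c (-k) = -c k) → (∀ k, c k ^ 2 ≤ sym α k) →
      ∃ g : T2 → ℝ, StronglyMeasurable g ∧ MemLp g 2 (volume : Measure T2) ∧
        ∀ k, fc g k = ((c k : ℝ) : ℂ) * Complex.I * fc v k := by
    intro c hc1 hc2
    have hsum : Summable (fun k => ‖((c k : ℝ) : ℂ) * Complex.I * fc v k‖ ^ 2) := by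
      have hs : Summable (fun k => (1 / α) * lam ^ 2 * ‖fc f k‖ ^ 2) :=
        (hasSum_sq_fc hf2).summable.mul_left _
      refine Summable.of_nonneg_of_le (fun k => by positivity) (fun k => ?_) hs
      rw [norm_mul, norm_mul, Complex.norm_I, mul_one, Complex.norm_real, Real.norm_eq_abs, mul_pow,
        sq_abs]
      by_cases hk : k = 0
      · have hs0 : sym α k = 0 := by rw [hk]; simp [sym]
        have : c k ^ 2 = 0 := le_antisymm (by rw [← hs0]; exact hc2 k) (sq_nonneg _)
        rw [this, zero_mul]; positivity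
      · have hs1 := sym_pos' hα hα1 hk
        have h1 := hvk k
        rw [if_neg hk, sub_zero] at h1
        have h2 : sym α k * ‖fc v k‖ = lam * ‖fc f k‖ := by
          have := congrArg norm h1
          rw [norm_mul, norm_mul, Complex.norm_real, Complex.norm_real, Real.norm_eq_abs,
            Real.norm_eq_abs, abs_of_pos hs1, abs_of_pos hlam] at this
          exact this
        have h3 : α ≤ sym α k := by
          have := one_add_le_sym' hα hα1 hk
          nlinarith [mul_nonneg hα.le (sq_nonneg (k 0 : ℝ)), mul_nonneg hα.le (sq_nonneg (k 1 : ℝ))]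
        calc c k ^ 2 * ‖fc v k‖ ^ 2 ≤ sym α k * ‖fc v k‖ ^ 2 :=
              mul_le_mul_of_nonneg_right (hc2 k) (by positivity)
          _ = (1 / sym α k) * (sym α k * ‖fc v k‖) ^ 2 := by field_simp
          _ = (1 / sym α k) * (lam ^ 2 * ‖fc f k‖ ^ 2) := by rw [h2]; ring
          _ ≤ (1 / α) * (lam ^ 2 * ‖fc f k‖ ^ 2) := by
              refine mul_le_mul_of_nonneg_right ?_ (by positivity)
              exact one_div_le_one_div_of_le hα h3
          _ = _ := by ring
    obtain ⟨g, hgm, hg2, hg⟩ := exists_of_fc _ hsum (fun k => by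
      rw [hc1, fc_conj, map_mul, map_mul, Complex.conj_ofReal, Complex.conj_I]
      push_cast; ring)
    exact ⟨g, hgm, hg2, hg⟩
  obtain ⟨G₁, hG1m, hG12, hG1⟩ := hgrad (fun k => 2 * Real.pi * ((k 0 : ℝ) / r))
    (fun k => by simp; ring) (fun k => by
      unfold sym
      have : (2 * Real.pi * ((k 0 : ℝ) / r)) ^ 2 = 4 * Real.pi ^ 2 * (α * (k 0 : ℝ) ^ 2) := by
        rw [hαdef]; field_simp; ring
      rw [this]
      nlinarith [mul_nonneg (sq_nonneg Real.pi) (sq_nonneg (k 1 : ℝ))])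
  obtain ⟨G₂, hG2m, hG22, hG2⟩ := hgrad (fun k => 2 * Real.pi * (k 1 : ℝ))
    (fun k => by simp) (fun k => by
      unfold sym
      have : (2 * Real.pi * (k 1 : ℝ)) ^ 2 = 4 * Real.pi ^ 2 * ((k 1 : ℝ) ^ 2) := by ring
      rw [this]
      nlinarith [mul_nonneg (mul_nonneg hα.le (sq_nonneg Real.pi)) (sq_nonneg (k 0 : ℝ))])
  refine ⟨lam, W, V, G₁, G₂, hlam, hWm, hVm, hG1m, hG2m, hW2, hV2, hG12, hG22, hnegf, ?_, ?_, ?_, ?_⟩
  · -- background equation
    intro φ hφ
    have h1 := hasSum_test hr0 hW2 hφ.lap.continuous hφ.lap.2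
    have h2 := hasSum_fc_test hr hφ
    have h3 : HasSum (fun k : Fin 2 → ℤ => (if k = 0 then fc (fun z => φ (secr r z)) 0 else 0))
        (fc (fun z => φ (secr r z)) 0) := hasSum_ite_eq 0 _
    have h34 : HasSum (fun k => fc (fun z => φ (secr r z)) k -
        (if k = 0 then fc (fun z => φ (secr r z)) 0 else 0))
        ((φ (0, 0) : ℂ) - fc (fun z => φ (secr r z)) 0) := HasSum.sub h2 h3
    have h4 := h34.mul_left ((4 * Real.pi : ℝ) : ℂ)
    have h5 : ∀ k, conj (fc W k) * fc (fun z => CS.lap φ (secr r z)) k =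
        ((4 * Real.pi : ℝ) : ℂ) * (fc (fun z => φ (secr r z)) k -
          (if k = 0 then fc (fun z => φ (secr r z)) 0 else 0)) := by
      intro k
      rw [fc_lap hr0 hφ]
      by_cases hk : k = 0
      · rw [if_pos hk, hk, hW0]; simp
      · rw [if_neg hk, sub_zero]
        have h6 := congrArg conj (hWk k hk)
        rw [map_mul, map_neg, Complex.conj_ofReal, Complex.conj_ofReal] at h6
        linear_combination (-fc (fun z => φ (secr r z)) k) * h6
    rw [funext h5] at h1
    have h7 := h1.unique h4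
    have h8 : fc (fun z => φ (secr r z)) 0 = ((r⁻¹ * ∫ p in cell (r, 0) (0, 1), φ p : ℝ) : ℂ) := by
      rw [fc_zero_freq]
      congr 1
      rw [integral_secr hr0 φ, smul_eq_mul]
    rw [h8] at h7
    have h9 : r⁻¹ * (∫ p in cell (r, 0) (0, 1), W (proj r p) * CS.lap φ p) =
        4 * Real.pi * (φ (0, 0) - r⁻¹ * ∫ p in cell (r, 0) (0, 1), φ p) := by
      exact_mod_cast h7
    have h10 : ∫ p in cell (r, 0) (0, 1), W (proj r p) * CS.lap φ p =
        r * (r⁻¹ * (∫ p in cell (r, 0) (0, 1), W (proj r p) * CS.lap φ p)) := by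
      rw [← mul_assoc, mul_inv_cancel₀ hr0.ne', one_mul]
    rw [h10, h9]
    field_simp
    ring
  · intro φ hφ
    have h1 := hasSum_test hr0 hv2 hφ.dx.continuous hφ.dx.2
    have h2 := hasSum_test hr0 hG12 hφ.continuous hφ.2
    have h3 : ∀ k, conj (fc v k) * fc (fun z => dx φ (secr r z)) k =
        -(conj (fc G₁ k) * fc (fun z => φ (secr r z)) k) := by
      intro k
      rw [fc_dx hr0 hφ, hG1, map_mul, map_mul, Complex.conj_ofReal, Complex.conj_I]
      ring
    rw [funext h3] at h1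
    have h4 := h1.unique h2.neg
    have h5 : r⁻¹ * (∫ p in cell (r, 0) (0, 1), (V (proj r p) - W (proj r p)) * dx φ p) =
        -(r⁻¹ * ∫ p in cell (r, 0) (0, 1), G₁ (proj r p) * φ p) := by
      exact_mod_cast h4
    have hri : r⁻¹ ≠ 0 := inv_ne_zero hr0.ne'
    have h6 : r⁻¹ * (∫ p in cell (r, 0) (0, 1), (V (proj r p) - W (proj r p)) * dx φ p) =
        r⁻¹ * -(∫ p in cell (r, 0) (0, 1), G₁ (proj r p) * φ p) := by rw [h5]; ring
    exact mul_left_cancel₀ hri h6
  · intro φ hφ
    have h1 := hasSum_test hr0 hv2 hφ.dy.continuous hφ.dy.2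
    have h2 := hasSum_test hr0 hG22 hφ.continuous hφ.2
    have h3 : ∀ k, conj (fc v k) * fc (fun z => dy φ (secr r z)) k =
        -(conj (fc G₂ k) * fc (fun z => φ (secr r z)) k) := by
      intro k
      rw [fc_dy hr0 hφ, hG2, map_mul, map_mul, Complex.conj_ofReal, Complex.conj_I]
      ring
    rw [funext h3] at h1
    have h4 := h1.unique h2.neg
    have h5 : r⁻¹ * (∫ p in cell (r, 0) (0, 1), (V (proj r p) - W (proj r p)) * dy φ p) =
        -(r⁻¹ * ∫ p in cell (r, 0) (0, 1), G₂ (proj r p) * φ p) := by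
      exact_mod_cast h4
    have hri : r⁻¹ ≠ 0 := inv_ne_zero hr0.ne'
    have h6 : r⁻¹ * (∫ p in cell (r, 0) (0, 1), (V (proj r p) - W (proj r p)) * dy φ p) =
        r⁻¹ * -(∫ p in cell (r, 0) (0, 1), G₂ (proj r p) * φ p) := by rw [h5]; ring
    exact mul_left_cancel₀ hri h6
  · intro φ hφ
    have h1 := hasSum_test hr0 hG12 hφ.dx.continuous hφ.dx.2
    have h2 := hasSum_test hr0 hG22 hφ.dy.continuous hφ.dy.2
    have hR2 : MemLp (fun z => lam * f z - 4 * Real.pi) 2 (volume : Measure T2) :=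
      (hf2.const_mul lam).sub (memLp_const _)
    have h3 := hasSum_test hr0 hR2 hφ.continuous hφ.2
    have hRk : ∀ k, fc (fun z => lam * f z - 4 * Real.pi) k = ((sym α k : ℝ) : ℂ) * fc v k := by
      intro k
      rw [hvk, fc_sub (hfi.const_mul lam) (integrable_const _), fc_const_mul, fc_const]
    have h4 : ∀ k, conj (fc G₁ k) * fc (fun z => dx φ (secr r z)) k +
        conj (fc G₂ k) * fc (fun z => dy φ (secr r z)) k =
        conj (fc (fun z => lam * f z - 4 * Real.pi) k) * fc (fun z => φ (secr r z)) k := by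
      intro k
      rw [fc_dx hr0 hφ, fc_dy hr0 hφ, hG1, hG2, hRk]
      simp only [map_mul, Complex.conj_ofReal, Complex.conj_I]
      have e : sym α k = (2 * Real.pi * ((k 0 : ℝ) / r)) ^ 2 + (2 * Real.pi * (k 1 : ℝ)) ^ 2 := by
        unfold sym; rw [hαdef]; field_simp; ring
      rw [e]
      push_cast
      ring_nf
      rw [Complex.I_sq]
      ring
    have h5 := h1.add h2
    rw [funext h4] at h5
    have h6 := h5.unique h3
    have h7 : r⁻¹ * (∫ p in cell (r, 0) (0, 1), G₁ (proj r p) * dx φ p) +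
        r⁻¹ * (∫ p in cell (r, 0) (0, 1), G₂ (proj r p) * dy φ p) =
        r⁻¹ * ∫ p in cell (r, 0) (0, 1), (lam * f (proj r p) - 4 * Real.pi) * φ p := by
      exact_mod_cast h6
    have hi1 : IntegrableOn (fun p => G₁ (proj r p) * dx φ p) (cell (r, 0) (0, 1)) :=
      integrableOn_mul_cont hr0 (integrableOn_lift hr0 (hG12.integrable (by norm_num))) hφ.dx.continuous
    have hi2 : IntegrableOn (fun p => G₂ (proj r p) * dy φ p) (cell (r, 0) (0, 1)) :=
      integrableOn_mul_cont hr0 (integrableOn_lift hr0 (hG22.integrable (by norm_num))) hφ.dy.continuous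
    rw [integral_add hi1 hi2, ← integral_neg]
    have hri : r⁻¹ ≠ 0 := inv_ne_zero hr0.ne'
    have h8 : ∫ p in cell (r, 0) (0, 1), -((lam * (Real.exp (V (proj r p)) * (Real.exp (V (proj r p)) - 1)) +
        4 * Real.pi) * φ p) = ∫ p in cell (r, 0) (0, 1), (lam * f (proj r p) - 4 * Real.pi) * φ p := by
      refine integral_congr_ae (Eventually.of_forall (fun p => ?_))
      simp only [hf]; ring
    rw [h8]
    refine mul_left_cancel₀ hri ?_
    rw [mul_add]; exact h7

end Pool.Agent.H88.CS
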