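import Mathlib
import Pool.Agent.H88.CSDefs
import Pool.Agent.H88.CSBridgeA
import Pool.Agent.H88.CSBridgeB
import Pool.Agent.H88.CSExist

open MeasureTheory Set Filter Topology
open scoped ComplexConjugate ENNReal ContDiff

noncomputable section

namespace Pool.Agent.H88.CS

attribute [local instance] circleMS circleHaar circleProb

/-- Cutting a strip of integer length into unit cells. -/
theorem strip_cut (F : ℝ × ℝ → ℝ) (n : ℕ)
    (hF : ∀ j : ℕ, j < n → IntegrableOn (fun z => F (z + ((j : ℝ), 0))) (Ico (0 : ℝ) 1 ×ˢ Ico (0 : ℝ) 1)) :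
    IntegrableOn F (Ico (0 : ℝ) n ×ˢ Ico (0 : ℝ) 1) ∧
    ∫ z in Ico (0 : ℝ) n ×ˢ Ico (0 : ℝ) 1, F z =
      ∑ j ∈ Finset.range n, ∫ z in Ico (0 : ℝ) 1 ×ˢ Ico (0 : ℝ) 1, F (z + ((j : ℝ), 0)) := by
  induction n with
  | zero => simp
  | succ n ih =>
    obtain ⟨ih1, ih2⟩ := ih (fun j hj => hF j (by omega))
    have hU : (Ico (0 : ℝ) ((n + 1 : ℕ) : ℝ) ×ˢ Ico (0 : ℝ) 1 : Set (ℝ × ℝ)) =
        (Ico (0 : ℝ) n ×ˢ Ico (0 : ℝ) 1) ∪ (Ico (n : ℝ) (n + 1) ×ˢ Ico (0 : ℝ) 1) := by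
      rw [← union_prod, Ico_union_Ico_eq_Ico (by positivity) (by linarith)]
      push_cast; rfl
    have hdisj : Disjoint (Ico (0 : ℝ) n ×ˢ Ico (0 : ℝ) 1 : Set (ℝ × ℝ))
        (Ico (n : ℝ) (n + 1) ×ˢ Ico (0 : ℝ) 1) := by
      rw [Set.disjoint_left]
      rintro ⟨x, y⟩ ⟨hx, -⟩ ⟨hx', -⟩
      simp only [mem_Ico] at hx hx'
      linarith [hx.2, hx'.1]
    have hm2 : MeasurableSet (Ico (n : ℝ) (n + 1) ×ˢ Ico (0 : ℝ) 1 : Set (ℝ × ℝ)) :=
      measurableSet_Ico.prod measurableSet_Ico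
    have hmp : MeasurePreserving (fun z : ℝ × ℝ => z + ((n : ℝ), 0)) volume volume :=
      measurePreserving_add_right volume _
    have hme : MeasurableEmbedding (fun z : ℝ × ℝ => z + ((n : ℝ), 0)) :=
      measurableEmbedding_addRight _
    have hpre : (fun z : ℝ × ℝ => z + ((n : ℝ), 0)) ⁻¹' (Ico (n : ℝ) (n + 1) ×ˢ Ico (0 : ℝ) 1) =
        Ico (0 : ℝ) 1 ×ˢ Ico (0 : ℝ) 1 := by
      ext ⟨x, y⟩
      simp only [mem_preimage, Prod.mk_add_mk, add_zero, mem_prod, mem_Ico]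
      constructor
      · rintro ⟨⟨h1, h2⟩, h3⟩; exact ⟨⟨by linarith, by linarith⟩, h3⟩
      · rintro ⟨⟨h1, h2⟩, h3⟩; exact ⟨⟨by linarith, by linarith⟩, h3⟩
    have hint2 : IntegrableOn F (Ico (n : ℝ) (n + 1) ×ˢ Ico (0 : ℝ) 1) := by
      have := (hmp.integrableOn_comp_preimage hme (f := F)
        (s := Ico (n : ℝ) (n + 1) ×ˢ Ico (0 : ℝ) 1)).mp
      apply this
      rw [hpre]
      exact hF n (by omega)
    refine ⟨?_, ?_⟩
    · rw [hU]; exact ih1.union hint2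
    · rw [hU, setIntegral_union hdisj hm2 ih1 hint2, ih2, Finset.sum_range_succ,
        ← hmp.setIntegral_preimage_emb hme F, hpre]

theorem periodic_nat {φ : ℝ × ℝ → ℝ} (h : DoublyPeriodic (1, 0) (0, 1) φ) (j : ℕ) (z : ℝ × ℝ) :
    φ (z + ((j : ℝ), 0)) = φ z := by
  induction j with
  | zero =>
    have e : z + (((0 : ℕ) : ℝ), (0 : ℝ)) = z := by ext <;> simp
    rw [e]
  | succ j ih =>
    have : z + (((j + 1 : ℕ) : ℝ), (0 : ℝ)) = (z + ((j : ℝ), 0)) + (1, 0) := by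
      ext <;> simp; ring
    rw [this, h.1, ih]

theorem DoublyPeriodic.to_nat {φ : ℝ × ℝ → ℝ} (h : DoublyPeriodic (1, 0) (0, 1) φ) (n : ℕ) :
    DoublyPeriodic ((n : ℝ), 0) (0, 1) φ := ⟨periodic_nat h n, h.2⟩

theorem cell_nat {n : ℕ} (hn : 1 ≤ n) : cell ((n : ℝ), 0) (0, 1) = Ico (0 : ℝ) n ×ˢ Ico (0 : ℝ) 1 :=
  cell_eq (by exact_mod_cast hn)

theorem cell_one : cell (1, 0) (0, 1) = Ico (0 : ℝ) 1 ×ˢ Ico (0 : ℝ) 1 := cell_eq one_pos

/-- The sum of the translates of a test function. -/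
def fold (n : ℕ) (φ : ℝ × ℝ → ℝ) (z : ℝ × ℝ) : ℝ := ∑ j ∈ Finset.range n, φ (z + ((j : ℝ), 0))

theorem isTest_fold {n : ℕ} {φ : ℝ × ℝ → ℝ} (h : IsTest ((n : ℝ), 0) (0, 1) φ) :
    IsTest (1, 0) (0, 1) (fold n φ) := by
  refine ⟨?_, ?_, ?_⟩
  · unfold fold
    refine ContDiff.sum (fun j _ => ?_)
    exact h.1.comp (contDiff_id.add contDiff_const)
  · intro z
    unfold fold
    have h1 : ∀ j : ℕ, φ (z + (1, 0) + ((j : ℝ), 0)) = φ (z + (((j + 1 : ℕ) : ℝ), 0)) := by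
      intro j
      congr 1
      ext <;> simp; ring
    simp only [h1]
    have h2 := Finset.sum_range_succ (fun j : ℕ => φ (z + ((j : ℝ), 0))) n
    have h3 := Finset.sum_range_succ' (fun j : ℕ => φ (z + ((j : ℝ), 0))) n
    have h4 : φ (z + (((n : ℕ) : ℝ), 0)) = φ z := h.2.1 z
    have h5 : φ (z + (((0 : ℕ) : ℝ), 0)) = φ z := by
      have e : z + (((0 : ℕ) : ℝ), (0 : ℝ)) = z := by ext <;> simp
      rw [e]
    rw [h2, h4, h5] at h3
    linarith
  · intro z
    unfold fold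
    refine Finset.sum_congr rfl (fun j _ => ?_)
    have : z + (0, 1) + ((j : ℝ), 0) = (z + ((j : ℝ), 0)) + (0, 1) := by
      ext <;> simp
    rw [this, h.2.2]

theorem dx_shift (φ : ℝ × ℝ → ℝ) (c z : ℝ × ℝ) : dx (fun w => φ (w + c)) z = dx φ (z + c) := by
  unfold dx
  rw [fderiv_comp_add_right]

theorem dy_shift (φ : ℝ × ℝ → ℝ) (c z : ℝ × ℝ) : dy (fun w => φ (w + c)) z = dy φ (z + c) := by
  unfold dy
  rw [fderiv_comp_add_right]

theorem dx_fold {n : ℕ} {φ : ℝ × ℝ → ℝ} (h : Differentiable ℝ φ) :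
    dx (fold n φ) = fold n (dx φ) := by
  funext z
  unfold fold
  have h1 : dx (fun z => ∑ j ∈ Finset.range n, φ (z + ((j : ℝ), 0))) z =
      ∑ j ∈ Finset.range n, dx (fun w => φ (w + ((j : ℝ), 0))) z := by
    unfold dx
    rw [fderiv_fun_sum (fun j _ => by
      exact (h _).comp z ((differentiableAt_id).add_const _))]
    simp
  rw [h1]
  exact Finset.sum_congr rfl (fun j _ => dx_shift φ _ z)

theorem dy_fold {n : ℕ} {φ : ℝ × ℝ → ℝ} (h : Differentiable ℝ φ) :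
    dy (fold n φ) = fold n (dy φ) := by
  funext z
  unfold fold
  have h1 : dy (fun z => ∑ j ∈ Finset.range n, φ (z + ((j : ℝ), 0))) z =
      ∑ j ∈ Finset.range n, dy (fun w => φ (w + ((j : ℝ), 0))) z := by
    unfold dy
    rw [fderiv_fun_sum (fun j _ => by
      exact (h _).comp z ((differentiableAt_id).add_const _))]
    simp
  rw [h1]
  exact Finset.sum_congr rfl (fun j _ => dy_shift φ _ z)

theorem lap_fold {n : ℕ} {φ : ℝ × ℝ → ℝ} (h : IsTest ((n : ℝ), 0) (0, 1) φ) :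
    CS.lap (fold n φ) = fold n (CS.lap φ) := by
  have hd : Differentiable ℝ φ := fun z => h.differentiableAt z
  have hdx : Differentiable ℝ (dx φ) := fun z => h.dx.differentiableAt z
  have hdy : Differentiable ℝ (dy φ) := fun z => h.dy.differentiableAt z
  funext z
  unfold CS.lap
  rw [dx_fold hd, dy_fold hd, dx_fold hdx, dy_fold hdy]
  unfold fold
  rw [← Finset.sum_add_distrib]

/-- Unfolding an integral over the long cell to the unit cell. -/
theorem unfold_integral {n : ℕ} (hn : 1 ≤ n) {G φ : ℝ × ℝ → ℝ}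
    (hG : IntegrableOn G (cell (1, 0) (0, 1))) (hGp : DoublyPeriodic (1, 0) (0, 1) G)
    (hφ : Continuous φ) :
    IntegrableOn (fun z => G z * φ z) (cell ((n : ℝ), 0) (0, 1)) ∧
    ∫ z in cell ((n : ℝ), 0) (0, 1), G z * φ z = ∫ z in cell (1, 0) (0, 1), G z * fold n φ z := by
  have hi : ∀ j : ℕ, IntegrableOn (fun z => G z * φ (z + ((j : ℝ), 0))) (cell (1, 0) (0, 1)) :=
    fun j => integrableOn_mul_cont one_pos hG (by fun_prop)
  have h1 := strip_cut (fun z => G z * φ z) n (fun j _ => by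
    have := hi j
    rw [cell_one] at this
    simpa only [periodic_nat hGp j] using this)
  rw [← cell_nat hn, ← cell_one] at h1
  refine ⟨h1.1, ?_⟩
  rw [h1.2]
  unfold fold
  simp only [periodic_nat hGp, Finset.mul_sum]
  rw [integral_finsetSum _ (fun j _ => hi j)]

theorem integrableOn_nat {n : ℕ} (hn : 1 ≤ n) {G : ℝ × ℝ → ℝ}
    (hG : IntegrableOn G (cell (1, 0) (0, 1))) (hGp : DoublyPeriodic (1, 0) (0, 1) G) :
    IntegrableOn G (cell ((n : ℝ), 0) (0, 1)) := by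
  have := (unfold_integral hn hG hGp (φ := fun _ => 1) continuous_const).1
  simpa using this

/-- A square integrable function on the unit torus gives one on the long torus. -/
theorem exists_memLp_nat {n : ℕ} (hn : 1 ≤ n) {g : T2 → ℝ} (hgm : StronglyMeasurable g)
    (hg : MemLp g 2 (volume : Measure T2)) :
    MemLp (fun p => g (proj 1 p)) 2 (volume.restrict (cell ((n : ℝ), 0) (0, 1))) := by
  have hpm : Measurable (proj 1) := by
    refine measurable_pi_lambda _ (fun i => ?_)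
    have hi : i = 0 ∨ i = 1 := by fin_cases i <;> simp
    rcases hi with rfl | rfl
    · exact AddCircle.measurable_mk'.comp (measurable_fst.div_const 1)
    · exact AddCircle.measurable_mk'.comp measurable_snd
  have hm : AEStronglyMeasurable (fun p => g (proj 1 p)) (volume.restrict (cell ((n : ℝ), 0) (0, 1))) :=
    (hgm.measurable.comp hpm).aestronglyMeasurable
  rw [memLp_two_iff_integrable_sq hm]
  have h1 : IntegrableOn (fun p => g (proj 1 p) ^ 2) (cell (1, 0) (0, 1)) :=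
    integrableOn_lift one_pos (g := fun z => g z ^ 2) hg.integrable_sq
  exact integrableOn_nat hn h1 (doublyPeriodic_lift one_pos (fun z => g z ^ 2))

end Pool.Agent.H88.CS
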