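import Mathlib
import Pool.Agent.H88.Torus
import Pool.Agent.H88.Existence
import Pool.Agent.H88.Section
import Pool.Agent.H88.OneDim

open MeasureTheory Set Filter Topology
open scoped ComplexConjugate ENNReal

noncomputable section

namespace Pool.Agent.H88

attribute [local instance] circleMS circleHaar circleProb

/-- Landau-type inequality for a nonnegative function whose second derivative is bounded above. -/
theorem landau {φ H : ℝ → ℝ} {L β c : ℝ} (hL : 0 < L)
    (hlip : ∀ x y, x ≤ y → φ y - φ x ≤ L * (y - x))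
    (h0 : φ 0 ≤ β) (h1 : β ≤ φ 1) (hc : 0 ≤ c) (hH : ∀ x, HasDerivAt H (c * (φ x - β)) x)
    (hH0 : ∀ x ∈ Icc (0 : ℝ) 1, 0 ≤ H x) {s : ℝ} (hs : s ∈ Icc (0 : ℝ) 1) :
    c / (2 * L) * (φ s - β) ^ 2 ≤ H s := by
  rcases le_or_gt β (φ s) with hcase | hcase
  · set δ := φ s - β with hδ
    have hδ0 : 0 ≤ δ := by linarith
    set h := δ / L with hh
    have hh0 : 0 ≤ h := div_nonneg hδ0 hL.le
    have hLh : L * h = δ := by rw [hh]; field_simp
    have hhs : h ≤ s := by
      have := hlip 0 s hs.1
      rw [hh, div_le_iff₀ hL]; linarith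
    let P : ℝ → ℝ := fun x => c * (δ * (x - s) + L * (s - x) ^ 2 / 2)
    have hP : ∀ x, HasDerivAt P (c * (δ - L * (s - x))) x := by
      intro x
      have h1 : HasDerivAt (fun x : ℝ => δ * (x - s)) (δ * 1) x :=
        ((hasDerivAt_id x).sub_const s).const_mul δ
      have h2 : HasDerivAt (fun x : ℝ => s - x) (-1) x := (hasDerivAt_id x).const_sub s
      have h3 := ((h2.pow 2).const_mul L).div_const 2
      have h4 : HasDerivAt P (c * (δ * 1 + L * (((2 : ℕ) : ℝ) * (s - x) ^ (2 - 1) * (-1)) / 2)) x :=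
        (h1.add h3).const_mul c
      have e : c * (δ * 1 + L * (((2 : ℕ) : ℝ) * (s - x) ^ (2 - 1) * (-1)) / 2) =
          c * (δ - L * (s - x)) := by
        norm_num; ring_nf; tauto
      rwa [e] at h4
    have hmono : MonotoneOn (fun x => H x - P x) (Icc (s - h) s) := by
      refine monotoneOn_of_deriv_nonneg (convex_Icc _ _) ?_ ?_ ?_
      · exact (continuous_iff_continuousAt.mpr
          (fun x => ((hH x).sub (hP x)).continuousAt)).continuousOn
      · exact fun x _ => ((hH x).sub (hP x)).differentiableAt.differentiableWithinAt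
      · intro x hx
        rw [interior_Icc] at hx
        have hd : deriv (fun x => H x - P x) x = c * (φ x - β) - c * (δ - L * (s - x)) :=
          ((hH x).sub (hP x)).deriv
        rw [hd]
        have := hlip x s hx.2.le
        have h5 : 0 ≤ (φ x - β) - (δ - L * (s - x)) := by rw [hδ]; linarith
        nlinarith [mul_nonneg hc h5]
    have h5 := hmono (left_mem_Icc.mpr (by linarith)) (right_mem_Icc.mpr (by linarith))
      (by linarith : s - h ≤ s)
    simp only [P] at h5
    have h6 := hH0 (s - h) ⟨by linarith, by linarith [hs.2]⟩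
    have h7 : c / (2 * L) * δ ^ 2 = c * (δ * h - L * h ^ 2 / 2) := by
      rw [hh]; field_simp; ring
    rw [h7]
    have e1 : s - h - s = -h := by ring
    have e2 : s - (s - h) = h := by ring
    rw [e1, e2, sub_self] at h5
    simp only [mul_zero, ne_eq, OfNat.ofNat_ne_zero, not_false_eq_true, zero_pow, zero_div,
      add_zero, sub_zero] at h5
    nlinarith
  · set δ := β - φ s with hδ
    have hδ0 : 0 < δ := by linarith
    set h := δ / L with hh
    have hh0 : 0 < h := div_pos hδ0 hL
    have hLh : L * h = δ := by rw [hh]; field_simp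
    have hhs : h ≤ 1 - s := by
      have := hlip s 1 hs.2
      rw [hh, div_le_iff₀ hL]; linarith
    let P : ℝ → ℝ := fun x => c * (-δ * (x - s) + L * (x - s) ^ 2 / 2)
    have hP : ∀ x, HasDerivAt P (c * (-δ + L * (x - s))) x := by
      intro x
      have h1 : HasDerivAt (fun x : ℝ => -δ * (x - s)) (-δ * 1) x :=
        ((hasDerivAt_id x).sub_const s).const_mul (-δ)
      have h2 : HasDerivAt (fun x : ℝ => x - s) 1 x := (hasDerivAt_id x).sub_const s
      have h3 := ((h2.pow 2).const_mul L).div_const 2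
      have h4 : HasDerivAt P (c * (-δ * 1 + L * (((2 : ℕ) : ℝ) * (x - s) ^ (2 - 1) * 1) / 2)) x :=
        (h1.add h3).const_mul c
      have e : c * (-δ * 1 + L * (((2 : ℕ) : ℝ) * (x - s) ^ (2 - 1) * 1) / 2) =
          c * (-δ + L * (x - s)) := by
        norm_num; ring_nf; tauto
      rwa [e] at h4
    have hanti : AntitoneOn (fun x => H x - P x) (Icc s (s + h)) := by
      refine antitoneOn_of_deriv_nonpos (convex_Icc _ _) ?_ ?_ ?_
      · exact (continuous_iff_continuousAt.mpr
          (fun x => ((hH x).sub (hP x)).continuousAt)).continuousOn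
      · exact fun x _ => ((hH x).sub (hP x)).differentiableAt.differentiableWithinAt
      · intro x hx
        rw [interior_Icc] at hx
        have hd : deriv (fun x => H x - P x) x = c * (φ x - β) - c * (-δ + L * (x - s)) :=
          ((hH x).sub (hP x)).deriv
        rw [hd]
        have := hlip s x hx.1.le
        have h5 : 0 ≤ (-δ + L * (x - s)) - (φ x - β) := by rw [hδ]; linarith
        nlinarith [mul_nonneg hc h5]
    have h5 := hanti (left_mem_Icc.mpr (by linarith)) (right_mem_Icc.mpr (by linarith))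
      (by linarith : s ≤ s + h)
    simp only [P] at h5
    have h6 := hH0 (s + h) ⟨by linarith [hs.1], by linarith⟩
    have h7 : c / (2 * L) * (φ s - β) ^ 2 = c * (δ * h - L * h ^ 2 / 2) := by
      have : (φ s - β) ^ 2 = δ ^ 2 := by rw [hδ]; ring
      rw [this, hh]; field_simp; ring
    rw [h7]
    have e1 : s + h - s = h := by ring
    rw [e1, sub_self] at h5
    simp only [mul_zero, ne_eq, OfNat.ofNat_ne_zero, not_false_eq_true, zero_pow, zero_div,
      add_zero, sub_zero] at h5
    nlinarith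

/-- A continuous function of the first coordinate that is a.e. nonnegative on the torus is
nonnegative on `[0,1]`. -/
theorem nonneg_of_ae_s0 {H : ℝ → ℝ} (hH : Continuous H)
    (h : ∀ᵐ z ∂(volume : Measure T2), 0 ≤ H (s0 z)) : ∀ x ∈ Icc (0 : ℝ) 1, 0 ≤ H x := by
  intro x0 hx0
  by_contra hneg
  rw [not_le] at hneg
  have hU : IsOpen {x : ℝ | H x < 0} := isOpen_lt hH continuous_const
  have hne : ({x : ℝ | H x < 0} ∩ Ioo (0 : ℝ) 1).Nonempty := by
    rw [← closure_Ioo (zero_ne_one' ℝ)] at hx0
    exact (mem_closure_iff.mp hx0) _ hU hneg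
  have hpos : 0 < (volume : Measure ℝ) ({x : ℝ | H x < 0} ∩ Ioo (0 : ℝ) 1) :=
    (hU.inter isOpen_Ioo).measure_pos _ hne
  have hzero : (volume : Measure T2) (s0 ⁻¹' {x : ℝ | H x < 0}) = 0 := by
    rw [← nonpos_iff_eq_zero]
    have h2 : (volume : Measure T2) {z : T2 | ¬ (0 ≤ H (s0 z))} = 0 := ae_iff.mp h
    rw [← h2]
    refine measure_mono (fun z hz => ?_)
    exact not_le.mpr hz
  rw [measurePreserving_s0.measure_preimage hU.measurableSet.nullMeasurableSet,
    Measure.restrict_apply hU.measurableSet] at hzero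
  have hle : (volume : Measure ℝ) ({x : ℝ | H x < 0} ∩ Ioo (0 : ℝ) 1) ≤
      (volume : Measure ℝ) ({x : ℝ | H x < 0} ∩ Ico (0 : ℝ) 1) :=
    measure_mono (inter_subset_inter_right _ Ioo_subset_Ico_self)
  rw [hzero] at hle
  exact absurd hpos (not_lt.mpr hle)

/-- Mass of the set where the cumulative mass is within one of a given level. -/
theorem mass_level {lam β : ℝ} (hlam : 0 ≤ lam) {f : T2 → ℝ} (hf : Integrable f)
    (hf0 : 0 ≤ᵐ[volume] f) (hc : Continuous (cumul lam f)) :
    lam * ∫ z in {z : T2 | |cumul lam f (s0 z) - β| ≤ 1}, f z ≤ 2 := by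
  set C : Set ℝ := {x | x ∈ Icc (0 : ℝ) 1 ∧ |cumul lam f x - β| ≤ 1} with hC
  have hCc : IsCompact C := by
    have : C = Icc (0 : ℝ) 1 ∩ {x | |cumul lam f x - β| ≤ 1} := rfl
    rw [this]
    exact isCompact_Icc.inter_right (isClosed_le (by fun_prop) continuous_const)
  rcases C.eq_empty_or_nonempty with hempty | hne
  · have : {z : T2 | |cumul lam f (s0 z) - β| ≤ 1} = ∅ := by
      ext z
      simp only [mem_ofPred_eq, mem_empty_iff_false, iff_false]
      intro hz
      have : s0 z ∈ C := ⟨Ico_subset_Icc_self (s0_mem z), hz⟩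
      rw [hempty] at this
      exact this
    rw [this]; simp
  · have ha := hCc.sInf_mem hne
    have hb := hCc.sSup_mem hne
    set a := sInf C
    set b := sSup C
    have hab : a ≤ b := csInf_le hCc.bddBelow hb
    have hsub : {z : T2 | |cumul lam f (s0 z) - β| ≤ 1} ⊆ {z : T2 | a ≤ s0 z ∧ s0 z ≤ b} := by
      intro z hz
      have hzC : s0 z ∈ C := ⟨Ico_subset_Icc_self (s0_mem z), hz⟩
      exact ⟨csInf_le hCc.bddBelow hzC, le_csSup hCc.bddAbove hzC⟩
    have hnull : (volume : Measure T2) (s0 ⁻¹' {b}) = 0 := by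
      rw [measurePreserving_s0.measure_preimage (measurableSet_singleton b).nullMeasurableSet]
      exact le_antisymm ((Measure.restrict_apply_le _ _).trans (by simp)) (zero_le)
    have hae : ({z : T2 | a ≤ s0 z ∧ s0 z ≤ b} : Set T2) =ᵐ[volume] {z : T2 | a ≤ s0 z ∧ s0 z < b} := by
      have : ∀ᵐ z ∂(volume : Measure T2), s0 z ≠ b := by
        rw [ae_iff]
        have e : {z : T2 | ¬ s0 z ≠ b} = s0 ⁻¹' {b} := by
          ext z; simp
        rw [e]; exact hnull
      filter_upwards [this] with z hz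
      apply propext
      change (a ≤ s0 z ∧ s0 z ≤ b) ↔ (a ≤ s0 z ∧ s0 z < b)
      constructor
      · rintro ⟨h1, h2⟩; exact ⟨h1, lt_of_le_of_ne h2 hz⟩
      · rintro ⟨h1, h2⟩; exact ⟨h1, h2.le⟩
    have h1 : ∫ z in {z : T2 | |cumul lam f (s0 z) - β| ≤ 1}, f z ≤
        ∫ z in {z : T2 | a ≤ s0 z ∧ s0 z < b}, f z := by
      rw [← setIntegral_congr_set hae]
      exact setIntegral_mono_set hf.integrableOn (ae_restrict_of_ae hf0) (LE.le.eventuallyLE hsub)
    have h2 := cumul_sub_eq (lam := lam) hf hab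
    have h3 := abs_le.mp ha.2
    have h4 := abs_le.mp hb.2
    calc lam * ∫ z in {z : T2 | |cumul lam f (s0 z) - β| ≤ 1}, f z
        ≤ lam * ∫ z in {z : T2 | a ≤ s0 z ∧ s0 z < b}, f z := mul_le_mul_of_nonneg_left h1 hlam
      _ = cumul lam f b - cumul lam f a := h2.symm
      _ ≤ 2 := by linarith [h3.1, h4.2]

/-- The average over the second coordinate, defined through its Fourier coefficients. -/
theorem exists_average {g : T2 → ℝ} (hg : MemLp g 2 (volume : Measure T2)) (hg0 : 0 ≤ᵐ[volume] g) :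
    ∃ b : T2 → ℝ, MemLp b 2 (volume : Measure T2) ∧ 0 ≤ᵐ[volume] b ∧
      ∀ k, fc b k = if k 1 = 0 then fc g k else 0 := by
  have hgi : Integrable g := hg.integrable (by norm_num)
  have hsum : Summable (fun k : Fin 2 → ℤ => ‖if k 1 = 0 then fc g k else 0‖ ^ 2) := by
    refine Summable.of_nonneg_of_le (fun k => by positivity) (fun k => ?_) (hasSum_sq_fc hg).summable
    split_ifs
    · exact le_rfl
    · simp
  obtain ⟨b, hbm, hb2, hb⟩ := exists_of_fc (fun k : Fin 2 → ℤ => if k 1 = 0 then fc g k else 0) hsum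
    (fun k => by
      simp only [Pi.neg_apply, neg_eq_zero]
      split_ifs
      · exact fc_conj g k
      · simp)
  have hbi : Integrable b := hb2.integrable (by norm_num)
  refine ⟨b, hb2, ?_, hb⟩
  refine ae_nonneg_of_forall_trig hbi (fun c hc => ?_)
  set c0 : (Fin 2 → ℤ) →₀ ℂ := c.filter (fun k => k 1 = 0) with hc0
  have hsub : c0.support ⊆ c.support := by
    rw [hc0, Finsupp.support_filter]; exact Finset.filter_subset _ _
  have e1 : ∫ z, b z * (trig c z).re = ∫ z, g z * (trig c0 z).re := by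
    rw [integral_mul_trig_re hbi, integral_mul_trig_re hgi]
    congr 1
    rw [Finsupp.sum_of_support_subset c0 hsub _ (by simp), Finsupp.sum]
    refine Finset.sum_congr rfl (fun k _ => ?_)
    rw [hb, hc0, Finsupp.filter_apply]
    simp only [Pi.neg_apply, neg_eq_zero]
    split_ifs <;> simp
  rw [e1]
  have hpos : ∀ z, 0 ≤ (trig c0 z).re := by
    intro z
    have e2 : trig c0 z = ∫ τ in (0 : ℝ)..1, trig c (z + Pi.single 1 (τ : UnitAddCircle)) := by
      have e3 : ∀ τ : ℝ, trig c (z + Pi.single 1 (τ : UnitAddCircle)) =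
          ∑ k ∈ c.support, (c k * UnitAddTorus.mFourier k z) *
            Complex.exp ((2 * Real.pi * Complex.I * (k 1)) * τ) := by
        intro τ
        rw [trig_eq_sum c c.support subset_rfl]
        refine Finset.sum_congr rfl (fun k _ => ?_)
        rw [mFourier_shift]; ring
      simp_rw [e3]
      rw [intervalIntegral.integral_finsetSum (fun k _ => by
        apply Continuous.intervalIntegrable; fun_prop)]
      rw [trig_eq_sum c0 c.support hsub]
      refine Finset.sum_congr rfl (fun k _ => ?_)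
      rw [intervalIntegral.integral_const_mul, hc0, Finsupp.filter_apply]
      by_cases hk : k 1 = 0
      · simp [hk]
      · rw [if_neg hk, integral_exp_unit]
        · simp
        · have h1 : (k 1 : ℂ) ≠ 0 := by exact_mod_cast hk
          have hpi : (Real.pi : ℂ) ≠ 0 := by exact_mod_cast Real.pi_ne_zero
          simp [h1, hpi, Complex.I_ne_zero]
        · rw [Complex.exp_eq_one_iff]
          exact ⟨k 1, by ring⟩
    have hcont : Continuous (fun τ : ℝ => trig c (z + Pi.single 1 (τ : UnitAddCircle))) := by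
      refine (continuous_trig c).comp ?_
      refine continuous_const.add ?_
      exact (continuous_single 1).comp (AddCircle.continuous_mk' 1)
    have e4 : (trig c0 z).re = ∫ τ in (0 : ℝ)..1, (trig c (z + Pi.single 1 (τ : UnitAddCircle))).re := by
      rw [e2]
      have := Complex.reCLM.intervalIntegral_comp_comm (hcont.intervalIntegrable (μ := volume) 0 1)
      simp only [Complex.reCLM_apply] at this
      rw [this]
    rw [e4]
    exact intervalIntegral.integral_nonneg zero_le_one (fun τ _ => hc _)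
  refine integral_nonneg_of_ae ?_
  filter_upwards [hg0] with z hz
  exact mul_nonneg hz (hpos z)

/-- Pointwise bound used away from the region where the slope is small. -/
theorem exp_neg_le_of_average {v b : ℝ} (hb : 0 < b) :
    Real.exp (-v) ≤ (8 + 4 * (v - b) ^ 2) / b ^ 2 ∨ v < 0 := by
  rcases lt_or_ge v 0 with hv | hv
  · exact Or.inr hv
  left
  rw [le_div_iff₀ (by positivity)]
  rcases le_or_gt (b / 2) v with h | h
  · have h1 : Real.exp (-v) ≤ Real.exp (-(b / 2)) := Real.exp_le_exp.mpr (by linarith)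
    have h2 : b ^ 2 / 8 ≤ Real.exp (b / 2) := by
      have := Real.quadratic_le_exp_of_nonneg (by linarith : 0 ≤ b / 2)
      nlinarith
    have h3 : Real.exp (-(b / 2)) * Real.exp (b / 2) = 1 := by rw [← Real.exp_add]; simp
    have h4 : Real.exp (-(b / 2)) * b ^ 2 ≤ 8 := by
      have := Real.exp_pos (-(b / 2))
      nlinarith
    have h5 : Real.exp (-v) * b ^ 2 ≤ Real.exp (-(b / 2)) * b ^ 2 :=
      mul_le_mul_of_nonneg_right h1 (by positivity)
    nlinarith [sq_nonneg (v - b)]
  · have h1 : Real.exp (-v) ≤ 1 := Real.exp_le_one_iff.mpr (by linarith)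
    have h2 : b ^ 2 ≤ 4 * (v - b) ^ 2 := by nlinarith
    have h3 : Real.exp (-v) * b ^ 2 ≤ 1 * b ^ 2 := mul_le_mul_of_nonneg_right h1 (by positivity)
    linarith

/-- The sum of the lattice weights. -/
def Zc : ℝ := ∑' k, wt k

theorem Zc_nonneg : 0 ≤ Zc := tsum_nonneg (fun k => (wt_pos k).le)

theorem key_estimate {n : ℕ} (hn : 1 ≤ n) {lam : ℝ} (hlam : 0 < lam) {u : T2 → ℝ}
    (hui : Integrable u (volume : Measure T2))
    (hfi : Integrable (fun z => Real.exp (u z) * (1 - Real.exp (u z))) (volume : Measure T2))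
    (hrel : ∀ k, ((sym (1 / (n : ℝ) ^ 2) k : ℝ) : ℂ) * fc u k =
      lam * fc (fun z => Real.exp (u z) * (1 - Real.exp (u z))) k - (4 * Real.pi : ℝ)) :
    4 * Real.pi ≤ 2 + lam ^ 3 / (n : ℝ) ^ 4 * (2 + lam ^ 2 / 8 + (n : ℝ) ^ 2 * Zc) := by
  have hn1 : (1 : ℝ) ≤ n := by exact_mod_cast hn
  have hn0 : (0 : ℝ) < n := by linarith
  set N : ℝ := (n : ℝ) ^ 2 with hN
  have hN1 : 1 ≤ N := by rw [hN]; nlinarith
  have hN0 : 0 < N := by linarith
  set α : ℝ := 1 / N with hα
  have hα0 : 0 ≤ α := by positivity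
  have hpi := Real.pi_pos
  set f : T2 → ℝ := fun z => Real.exp (u z) * (1 - Real.exp (u z)) with hf
  -- sign of u
  have hFi : Integrable (fun z => Fn (u z)) (volume : Measure T2) := by
    refine (hui.add hfi).congr (Eventually.of_forall (fun z => ?_))
    simp only [Fn, hf, Pi.add_apply]
  have hfcF : ∀ k, fc (fun z => Fn (u z)) k = fc u k + fc f k := by
    intro k
    rw [← fc_add hui hfi]
    rfl
  have hu0 : ∀ᵐ z ∂(volume : Measure T2), u z ≤ 0 := by
    have h1 : 0 ≤ᵐ[volume] (fun z => -u z) := by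
      refine pos_of_resolvent (α := α) (K := lam) hα0 hlam hui.neg
        (h := fun z => -(lam * Fn (u z))) (hFi.const_mul lam).neg ?_ (a := 4 * Real.pi)
        (by positivity) (fun k => ?_)
      · refine ae_of_all _ (fun z => ?_)
        have := Fn_nonpos (u z)
        simp only [Pi.zero_apply]
        nlinarith
      · rw [fc_neg, fc_neg, fc_const_mul, hfcF]
        have := hrel k
        push_cast at this ⊢
        linear_combination (-1) * this
    filter_upwards [h1] with z hz
    have hz' : 0 ≤ -u z := hz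
    linarith
  have hf0 : 0 ≤ᵐ[volume] f := by
    filter_upwards [hu0] with z hz
    have h1 : Real.exp (u z) ≤ 1 := Real.exp_le_one_iff.mpr hz
    have h2 := Real.exp_pos (u z)
    exact mul_nonneg h2.le (by linarith)
  have hf1 : ∀ᵐ z ∂(volume : Measure T2), f z ≤ 1 / 4 := by
    refine ae_of_all _ (fun z => ?_)
    simp only [hf]
    nlinarith [sq_nonneg (Real.exp (u z) - 1 / 2)]
  have hf2 : MemLp f 2 (volume : Measure T2) := by
    refine MemLp.of_bound hfi.1 (1 / 4) ?_
    filter_upwards [hf0, hf1] with z h1 h2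
    have h1' : 0 ≤ f z := h1
    rw [Real.norm_eq_abs, abs_of_nonneg h1']; exact h2
  have hmass : (lam : ℂ) * fc f 0 = (4 * Real.pi : ℝ) := by
    have := hrel 0
    have hs : sym (1 / N) 0 = 0 := by simp [sym]
    rw [hs] at this
    simp only [Complex.ofReal_zero, zero_mul] at this
    linear_combination (-1) * this
  have hmassR : lam * ∫ z, f z = 4 * Real.pi := by
    rw [fc_zero_freq] at hmass
    exact_mod_cast hmass
  -- coefficient bounds
  have hcoef : ∀ k, k ≠ 0 → ‖fc u k‖ ^ 2 ≤ (2 * lam ^ 2 * ‖fc f k‖ ^ 2 + 32 * Real.pi ^ 2) / sym α k ^ 2 := by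
    intro k hk
    have hs : 0 < sym α k := by
      have h1 := one_le_of_ne_zero hk
      unfold sym
      have h2 : 0 < α * (k 0 : ℝ) ^ 2 + (k 1 : ℝ) ^ 2 := by
        have h3 : α * ((k 0 : ℝ) ^ 2 + (k 1 : ℝ) ^ 2) ≤ α * (k 0 : ℝ) ^ 2 + (k 1 : ℝ) ^ 2 := by
          have : α ≤ 1 := by rw [hα, div_le_one hN0]; exact hN1
          nlinarith [sq_nonneg (k 1 : ℝ)]
        have h4 : 0 < α := by positivity
        nlinarith
      positivity
    rw [le_div_iff₀ (by positivity)]
    have h1 : ‖fc u k‖ ^ 2 * sym α k ^ 2 = ‖(lam : ℂ) * fc f k - (4 * Real.pi : ℝ)‖ ^ 2 := by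
      rw [← hrel k, norm_mul, Complex.norm_real, Real.norm_eq_abs, abs_of_pos hs, mul_pow]
      ring
    rw [h1]
    have h2 : ‖(lam : ℂ) * fc f k - (4 * Real.pi : ℝ)‖ ≤ lam * ‖fc f k‖ + 4 * Real.pi := by
      refine (norm_sub_le _ _).trans ?_
      rw [norm_mul, Complex.norm_real, Complex.norm_real, Real.norm_eq_abs, Real.norm_eq_abs,
        abs_of_pos hlam, abs_of_pos (by positivity)]
    have h3 := pow_le_pow_left₀ (norm_nonneg _) h2 2
    nlinarith [sq_nonneg (lam * ‖fc f k‖ - 4 * Real.pi)]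
  have hu2 : MemLp u 2 (volume : Measure T2) := by
    have hsum : Summable (fun k => ‖fc u k‖ ^ 2) := by
      have hs1 : Summable (fun k => N ^ 2 * (2 * lam ^ 2 * ‖fc f k‖ ^ 2 + 32 * Real.pi ^ 2 * wt k) +
          (if k = 0 then ‖fc u k‖ ^ 2 else 0)) := by
        refine Summable.add ?_ ?_
        · exact ((((hasSum_sq_fc hf2).summable.mul_left (2 * lam ^ 2))).add
            (summable_wt.mul_left (32 * Real.pi ^ 2))).mul_left _
        · exact summable_of_hasFiniteSupport ((Set.finite_singleton (0 : Fin 2 → ℤ)).subset (by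
            intro k hk
            by_contra h
            simp only [mem_singleton_iff] at h
            simp [h] at hk))
      refine Summable.of_nonneg_of_le (fun k => by positivity) (fun k => ?_) hs1
      by_cases hk : k = 0
      · rw [if_pos hk]
        have := (wt_pos k).le
        have : 0 ≤ N ^ 2 * (2 * lam ^ 2 * ‖fc f k‖ ^ 2 + 32 * Real.pi ^ 2 * wt k) := by positivity
        linarith
      · rw [if_neg hk, add_zero]
        refine (hcoef k hk).trans ?_
        have hs : sym 1 k ≤ N * sym α k := by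
          unfold sym
          have h2 : N * (4 * Real.pi ^ 2 * (α * (k 0 : ℝ) ^ 2 + (k 1 : ℝ) ^ 2)) =
              4 * Real.pi ^ 2 * ((k 0 : ℝ) ^ 2 + N * (k 1 : ℝ) ^ 2) := by
            rw [hα]; field_simp
          rw [h2]
          have h3 : (1 : ℝ) * (k 0 : ℝ) ^ 2 + (k 1 : ℝ) ^ 2 ≤ (k 0 : ℝ) ^ 2 + N * (k 1 : ℝ) ^ 2 := by
            nlinarith [sq_nonneg (k 1 : ℝ)]
          exact mul_le_mul_of_nonneg_left h3 (by positivity)
        have hs1 := sym_pos hk
        have hsα : 0 < sym α k := by
          by_contra hcon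
          rw [not_lt] at hcon
          nlinarith
        have hw := inv_sq_le_wt (one_add_le_sym hk)
        have h4 : 1 / sym α k ^ 2 ≤ N ^ 2 * (1 / sym 1 k ^ 2) := by
          rw [mul_one_div, div_le_div_iff₀ (by positivity) (by positivity), one_mul]
          have := mul_self_le_mul_self hs1.le hs
          nlinarith
        have h5 : 1 / sym 1 k ^ 2 ≤ 1 := hw.trans (wt_le_one k)
        rw [div_eq_mul_one_div]
        calc (2 * lam ^ 2 * ‖fc f k‖ ^ 2 + 32 * Real.pi ^ 2) * (1 / sym α k ^ 2)
            ≤ (2 * lam ^ 2 * ‖fc f k‖ ^ 2 + 32 * Real.pi ^ 2) * (N ^ 2 * (1 / sym 1 k ^ 2)) :=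
              mul_le_mul_of_nonneg_left h4 (by positivity)
          _ = N ^ 2 * (2 * lam ^ 2 * ‖fc f k‖ ^ 2 * (1 / sym 1 k ^ 2) +
              32 * Real.pi ^ 2 * (1 / sym 1 k ^ 2)) := by ring
          _ ≤ N ^ 2 * (2 * lam ^ 2 * ‖fc f k‖ ^ 2 * 1 + 32 * Real.pi ^ 2 * wt k) := by
              refine mul_le_mul_of_nonneg_left (add_le_add ?_ ?_) (by positivity)
              · exact mul_le_mul_of_nonneg_left h5 (by positivity)
              · exact mul_le_mul_of_nonneg_left hw (by positivity)
          _ = _ := by ring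
    obtain ⟨u', hu'm, hu'2, hu'⟩ := exists_of_fc (fun k => fc u k) hsum (fun k => fc_conj u k)
    have := ae_eq_of_fc_eq hui (hu'2.integrable (by norm_num)) (fun k => (hu' k).symm)
    exact hu'2.ae_eq this.symm
  -- the average
  have hV2 : MemLp (fun z => -u z) 2 (volume : Measure T2) := hu2.neg
  have hV0 : 0 ≤ᵐ[volume] (fun z => -u z) := by
    filter_upwards [hu0] with z hz
    simp only [Pi.zero_apply]; linarith
  obtain ⟨b, hb2, hb0, hb⟩ := exists_average hV2 hV0
  have hbi : Integrable b := hb2.integrable (by norm_num)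
  have hVi : Integrable (fun z => -u z) (volume : Measure T2) := hui.neg
  have hmono := cumul_mono hlam.le hfi hf0
  have hcont : Continuous (cumul lam f) := cumul_continuous hlam.le hfi hf0 hf1
  set Φ := cumul2 lam f with hΦ
  set β := Φ 1 with hβ
  have hΦd : ∀ x, HasDerivAt Φ (cumul lam f x) x := hasDerivAt_cumul2 hcont
  have hΦc : Continuous Φ := continuous_iff_continuousAt.mpr (fun x => (hΦd x).continuousAt)
  have hcomp : Continuous (fun x : ℝ => Φ x - β * x) := by fun_prop
  have hΨi : Integrable (fun z : T2 => Φ (s0 z) - β * s0 z) := by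
    have hm : AEStronglyMeasurable (fun z : T2 => Φ (s0 z) - β * s0 z) volume :=
      (hcomp.measurable.comp measurePreserving_s0.measurable).aestronglyMeasurable
    obtain ⟨C, hC⟩ := isCompact_Icc.exists_bound_of_continuousOn (s := Icc (0 : ℝ) 1)
      hcomp.continuousOn
    exact Integrable.of_bound hm C (ae_of_all _ (fun z => hC _ (Ico_subset_Icc_self (s0_mem z))))
  set A : ℝ := (∫ z, b z) - N * ∫ z : T2, (Φ (s0 z) - β * s0 z) with hA
  have hAi : Integrable (fun _ : T2 => A) := integrable_const _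
  have hNΨi : Integrable (fun z : T2 => N * (Φ (s0 z) - β * s0 z)) := hΨi.const_mul N
  have hbH : b =ᵐ[volume] (fun z => A + N * (Φ (s0 z) - β * s0 z)) := by
    refine ae_eq_of_fc_eq hbi (hAi.add hNΨi) (fun k => ?_)
    by_cases hk1 : k 1 = 0
    · by_cases hk0 : k 0 = 0
      · have hk : k = 0 := by
          funext i
          have hi : i = 0 ∨ i = 1 := by fin_cases i <;> simp
          rcases hi with rfl | rfl
          · exact hk0
          · exact hk1
        rw [hk, fc_zero_freq, fc_zero_freq]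
        congr 1
        rw [integral_add hAi hNΨi, integral_const_mul, integral_const, hA]
        simp
      · rw [hb, if_pos hk1, fc_neg, fc_add hAi hNΨi, fc_const_mul, fc_const]
        have hkne : k ≠ 0 := by
          intro h; rw [h] at hk0; exact hk0 rfl
        rw [if_neg hkne, zero_add, fc_cumul2 hfi hcont hk1 hk0, hmass]
        have h1 := hrel k
        have hs : sym α k = (2 * Real.pi * (k 0)) ^ 2 / N := by
          unfold sym
          rw [hk1, hα]
          push_cast
          field_simp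
          ring
        rw [hs] at h1
        have hk0' : (k 0 : ℂ) ≠ 0 := by exact_mod_cast hk0
        have hpi' : (Real.pi : ℂ) ≠ 0 := by exact_mod_cast Real.pi_ne_zero
        have hN' : (N : ℂ) ≠ 0 := by exact_mod_cast hN0.ne'
        have h2 : (2 * Real.pi * (k 0) : ℂ) ^ 2 ≠ 0 := by
          apply pow_ne_zero; simp [hk0', hpi']
        have h3 : fc u k = (N : ℂ) / (2 * Real.pi * (k 0)) ^ 2 * (lam * fc f k - (4 * Real.pi : ℝ)) := by
          rw [← h1]
          push_cast
          field_simp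
        rw [h3]
        push_cast
        field_simp
        ring
    · rw [hb, if_neg hk1]
      have := fc_s0 (γ := fun x => A + N * (Φ x - β * x)) k
      rw [if_neg hk1] at this
      exact this.symm
  have hHd : ∀ x, HasDerivAt (fun x => A + N * (Φ x - β * x)) (N * (cumul lam f x - β)) x := by
    intro x
    have h1 : HasDerivAt (fun x : ℝ => Φ x - β * x) (cumul lam f x - β * 1) x :=
      (hΦd x).sub ((hasDerivAt_id x).const_mul β)
    rw [mul_one] at h1
    exact (h1.const_mul N).const_add A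
  have hHc : Continuous (fun x : ℝ => A + N * (Φ x - β * x)) :=
    continuous_iff_continuousAt.mpr (fun x => (hHd x).continuousAt)
  have hH0 : ∀ x ∈ Icc (0 : ℝ) 1, 0 ≤ A + N * (Φ x - β * x) := by
    refine nonneg_of_ae_s0 hHc ?_
    filter_upwards [hb0, hbH] with z h1 h2
    rw [← h2]; exact h1
  have hβ0 : cumul lam f 0 ≤ β := by
    rw [cumul_zero, hβ, hΦ]
    exact intervalIntegral.integral_nonneg zero_le_one (fun x hx => by
      have := hmono hx.1
      rwa [cumul_zero] at this)
  have hβ1 : β ≤ cumul lam f 1 := by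
    rw [hβ, hΦ]
    unfold cumul2
    calc ∫ t in (0 : ℝ)..1, cumul lam f t ≤ ∫ t in (0 : ℝ)..1, cumul lam f 1 := by
          refine intervalIntegral.integral_mono_on zero_le_one (hcont.intervalIntegrable _ _)
            intervalIntegrable_const (fun x hx => hmono hx.2)
      _ = cumul lam f 1 := by simp
  have hL : 0 < lam / 4 := by linarith
  have hlandau : ∀ s ∈ Icc (0 : ℝ) 1, N / (2 * (lam / 4)) * (cumul lam f s - β) ^ 2 ≤
      A + N * (Φ s - β * s) := by
    intro s hs
    exact landau hL (fun x y hxy => cumul_lip hlam.le hfi hf1 hxy) hβ0 hβ1 hN0.le hHd hH0 hs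
  -- oscillation bound
  have hD2 : MemLp (fun z => -u z - b z) 2 (volume : Measure T2) := hV2.sub hb2
  have hfsq : ∫ z, f z ^ 2 ≤ 1 / 16 := by
    calc ∫ z, f z ^ 2 ≤ ∫ z : T2, (1 / 16 : ℝ) := by
          refine integral_mono_ae hf2.integrable_sq (integrable_const _) ?_
          filter_upwards [hf0, hf1] with z h1 h2
          have h1' : 0 ≤ f z := h1
          nlinarith
      _ = 1 / 16 := by simp
  have hDint : ∫ z, (-u z - b z) ^ 2 ≤ lam ^ 2 / 8 + N * Zc := by
    have h1 := hasSum_sq_fc hD2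
    have h2 := hasSum_sq_fc hf2
    have h3 : HasSum (fun k => 2 * lam ^ 2 * ‖fc f k‖ ^ 2 + N * wt k)
        (2 * lam ^ 2 * (∫ z, f z ^ 2) + N * Zc) :=
      (h2.mul_left _).add (summable_wt.hasSum.mul_left _)
    have h4 : ∫ z, (-u z - b z) ^ 2 ≤ 2 * lam ^ 2 * (∫ z, f z ^ 2) + N * Zc := by
      refine hasSum_le (fun k => ?_) h1 h3
      rw [fc_sub hVi hbi, hb]
      by_cases hk1 : k 1 = 0
      · rw [if_pos hk1, sub_self, norm_zero]
        have hw0 := (wt_pos k).le
        have h00 : (0 : ℝ) ^ 2 = 0 := by norm_num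
        rw [h00]
        positivity
      · rw [if_neg hk1, sub_zero, fc_neg, norm_neg]
        have hkne : k ≠ 0 := by
          intro h; rw [h] at hk1; exact hk1 rfl
        refine (hcoef k hkne).trans ?_
        have hk1' : (1 : ℝ) ≤ (k 1 : ℝ) ^ 2 := by
          have h5 : (1 : ℤ) ≤ (k 1) ^ 2 := by
            have := Int.one_le_abs hk1
            nlinarith [sq_abs (k 1)]
          exact_mod_cast h5
        have hpi3 := Real.pi_gt_three
        have hpi2 : 9 ≤ Real.pi ^ 2 := by nlinarith
        set X : ℝ := α * (k 0 : ℝ) ^ 2 + (k 1 : ℝ) ^ 2 with hX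
        have hX1 : (k 1 : ℝ) ^ 2 ≤ X := by
          rw [hX]; have : 0 ≤ α * (k 0 : ℝ) ^ 2 := by positivity
          linarith
        have hX2 : (1 + (k 0 : ℝ) ^ 2) / N ≤ X := by
          rw [hX, div_le_iff₀ hN0]
          have h6 : (α * (k 0 : ℝ) ^ 2 + (k 1 : ℝ) ^ 2) * N = (k 0 : ℝ) ^ 2 + N * (k 1 : ℝ) ^ 2 := by
            rw [hα]; field_simp
          rw [h6]; nlinarith
        have hXpos : 0 < X := by linarith
        have hsX : sym α k = 4 * Real.pi ^ 2 * X := rfl
        rw [hsX, add_div]
        refine add_le_add ?_ ?_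
        · rw [div_le_iff₀ (by positivity)]
          have h7 : 1 ≤ (4 * Real.pi ^ 2 * X) ^ 2 := by
            have : 1 ≤ 4 * Real.pi ^ 2 * X := by nlinarith
            nlinarith
          have h8 : 0 ≤ 2 * lam ^ 2 * ‖fc f k‖ ^ 2 := by positivity
          nlinarith
        · rw [div_le_iff₀ (by positivity)]
          have h9 : (1 + (k 0 : ℝ) ^ 2) / N * ((1 + (k 1 : ℝ) ^ 2) / 2) ≤ X * X := by
            refine mul_le_mul hX2 (by linarith) (by positivity) hXpos.le
          have h10 : wt k * ((1 + (k 0 : ℝ) ^ 2) * (1 + (k 1 : ℝ) ^ 2)) = 1 := by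
            unfold wt; field_simp
          have h11 : 1 / 2 ≤ N * wt k * (X * X) := by
            have h12 := mul_le_mul_of_nonneg_left h9 (mul_nonneg hN0.le (wt_pos k).le)
            have h13 : N * wt k * ((1 + (k 0 : ℝ) ^ 2) / N * ((1 + (k 1 : ℝ) ^ 2) / 2)) =
                (wt k * ((1 + (k 0 : ℝ) ^ 2) * (1 + (k 1 : ℝ) ^ 2))) / 2 := by
              field_simp
            rw [h13, h10] at h12
            exact h12
          have h14 : N * wt k * (4 * Real.pi ^ 2 * X) ^ 2 =
              16 * Real.pi ^ 2 * Real.pi ^ 2 * (N * wt k * (X * X)) := by ring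
          rw [h14]
          have h15 : 16 * Real.pi ^ 2 * 9 * (1 / 2) ≤
              16 * Real.pi ^ 2 * Real.pi ^ 2 * (N * wt k * (X * X)) := by
            refine mul_le_mul (mul_le_mul_of_nonneg_left hpi2 (by positivity)) h11 (by norm_num)
              (by positivity)
          linarith [sq_nonneg Real.pi]
    have h5 : 2 * lam ^ 2 * (∫ z, f z ^ 2) ≤ 2 * lam ^ 2 * (1 / 16) :=
      mul_le_mul_of_nonneg_left hfsq (by positivity)
    linarith
  -- final splitting
  set S : Set T2 := {z : T2 | |cumul lam f (s0 z) - β| ≤ 1} with hS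
  have hSm : MeasurableSet S :=
    measurableSet_le (by
      have : Measurable (fun x : ℝ => |cumul lam f x - β|) := by
        have : Continuous (fun x : ℝ => |cumul lam f x - β|) := by fun_prop
        exact this.measurable
      exact this.comp measurePreserving_s0.measurable) measurable_const
  have hmS := mass_level (β := β) hlam.le hfi hf0 hcont
  have hsplit : lam * ∫ z, f z = lam * (∫ z in S, f z) + lam * ∫ z in Sᶜ, f z := by
    rw [← mul_add, integral_add_compl hSm hfi]
  have hcompl : ∫ z in Sᶜ, f z ≤ lam ^ 2 / (4 * N ^ 2) * (8 + 4 * (lam ^ 2 / 8 + N * Zc)) := by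
    have hGi : Integrable (fun z => lam ^ 2 / (4 * N ^ 2) * (8 + 4 * (-u z - b z) ^ 2))
        (volume : Measure T2) :=
      ((integrable_const (8 : ℝ)).add (hD2.integrable_sq.const_mul 4)).const_mul _
    calc ∫ z in Sᶜ, f z ≤ ∫ z in Sᶜ, lam ^ 2 / (4 * N ^ 2) * (8 + 4 * (-u z - b z) ^ 2) := by
          refine setIntegral_mono_on_ae hfi.integrableOn hGi.integrableOn hSm.compl ?_
          filter_upwards [hbH, hu0] with z h1 h2 hzS
          have hzS' : 1 < |cumul lam f (s0 z) - β| := not_le.mp hzS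
          have h3 := hlandau (s0 z) (Ico_subset_Icc_self (s0_mem z))
          rw [← h1] at h3
          have h4 : 1 ≤ (cumul lam f (s0 z) - β) ^ 2 := by
            rw [← sq_abs]; nlinarith
          have h5 : 2 * N / lam ≤ b z := by
            have e : N / (2 * (lam / 4)) = 2 * N / lam := by field_simp; ring
            rw [e] at h3
            have h6 : 0 < 2 * N / lam := by positivity
            nlinarith
          have h6 : 0 < 2 * N / lam := by positivity
          have hbpos : 0 < b z := by linarith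
          have h7 : f z ≤ Real.exp (u z) := by
            simp only [hf]
            have := Real.exp_pos (u z)
            nlinarith
          have h8 : Real.exp (u z) ≤ (8 + 4 * (-u z - b z) ^ 2) / (b z) ^ 2 := by
            rcases exp_neg_le_of_average (v := -u z) hbpos with h9 | h9
            · rwa [neg_neg] at h9
            · linarith
          refine (h7.trans h8).trans ?_
          rw [div_eq_mul_one_div, mul_comm]
          refine mul_le_mul_of_nonneg_right ?_ (by positivity)
          rw [div_le_div_iff₀ (by positivity) (by positivity), one_mul]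
          have h10 : 2 * N ≤ b z * lam := by rwa [div_le_iff₀ hlam] at h5
          have h11 := mul_self_le_mul_self (by positivity : (0 : ℝ) ≤ 2 * N) h10
          nlinarith
      _ ≤ ∫ z, lam ^ 2 / (4 * N ^ 2) * (8 + 4 * (-u z - b z) ^ 2) := by
          refine setIntegral_le_integral hGi (ae_of_all _ (fun z => ?_))
          simp only [Pi.zero_apply]; positivity
      _ = lam ^ 2 / (4 * N ^ 2) * (8 + 4 * ∫ z, (-u z - b z) ^ 2) := by
          rw [integral_const_mul, integral_add (integrable_const _) (hD2.integrable_sq.const_mul 4),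
            integral_const_mul, integral_const]
          simp
      _ ≤ _ := by
          refine mul_le_mul_of_nonneg_left ?_ (by positivity)
          linarith
  rw [← hmassR, hsplit]
  have h20 : lam * ∫ z in Sᶜ, f z ≤ lam * (lam ^ 2 / (4 * N ^ 2) * (8 + 4 * (lam ^ 2 / 8 + N * Zc))) :=
    mul_le_mul_of_nonneg_left hcompl hlam.le
  have h21 : lam * (lam ^ 2 / (4 * N ^ 2) * (8 + 4 * (lam ^ 2 / 8 + N * Zc))) =
      lam ^ 3 / (n : ℝ) ^ 4 * (2 + lam ^ 2 / 8 + N * Zc) := by
    have : (n : ℝ) ^ 4 = N ^ 2 := by rw [hN]; ring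
    rw [this]
    field_simp
    ring
  rw [h21] at h20
  linarith

/-- There is no weak solution for `n` coincident vortices on the long torus when the coupling
parameter stays bounded and `n` is large. -/
theorem no_solution_torus (Λ : ℝ) : ∃ n₀ : ℕ, 1 ≤ n₀ ∧ ∀ n : ℕ, n₀ ≤ n → ∀ lam : ℝ, 0 < lam → lam ≤ Λ →
    ∀ u : T2 → ℝ, Integrable u (volume : Measure T2) →
    Integrable (fun z => Real.exp (u z) * (1 - Real.exp (u z))) (volume : Measure T2) →
    (∀ k, ((sym (1 / (n : ℝ) ^ 2) k : ℝ) : ℂ) * fc u k =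
      lam * fc (fun z => Real.exp (u z) * (1 - Real.exp (u z))) k - (4 * Real.pi : ℝ)) → False := by
  obtain ⟨n₁, hn₁⟩ := exists_nat_ge (Λ ^ 3 * (2 + Λ ^ 2 / 8 + Zc))
  refine ⟨n₁ + 1, by omega, fun n hn lam hlam hlamΛ u hui hfi hrel => ?_⟩
  have hn1 : 1 ≤ n := by omega
  have hkey := key_estimate hn1 hlam hui hfi hrel
  have hnR : (1 : ℝ) ≤ n := by exact_mod_cast hn1
  have hn₁R : (n₁ : ℝ) ≤ n := by
    have : n₁ ≤ n := by omega
    exact_mod_cast this
  have hΛ : 0 < Λ := by linarith
  have hZ := Zc_nonneg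
  have h1 : lam ^ 3 / (n : ℝ) ^ 4 * (2 + lam ^ 2 / 8 + (n : ℝ) ^ 2 * Zc) ≤
      Λ ^ 3 * (2 + Λ ^ 2 / 8 + Zc) / (n : ℝ) ^ 2 := by
    have h2 : (2 + lam ^ 2 / 8 + (n : ℝ) ^ 2 * Zc) ≤ (n : ℝ) ^ 2 * (2 + Λ ^ 2 / 8 + Zc) := by
      have h3 : lam ^ 2 ≤ Λ ^ 2 := pow_le_pow_left₀ hlam.le hlamΛ 2
      have h4 : (1 : ℝ) ≤ (n : ℝ) ^ 2 := by nlinarith
      nlinarith [sq_nonneg Λ]
    have h5 : lam ^ 3 ≤ Λ ^ 3 := pow_le_pow_left₀ hlam.le hlamΛ 3
    rw [div_mul_eq_mul_div, div_le_div_iff₀ (by positivity) (by positivity)]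
    have h6 : lam ^ 3 * (2 + lam ^ 2 / 8 + (n : ℝ) ^ 2 * Zc) ≤
        Λ ^ 3 * ((n : ℝ) ^ 2 * (2 + Λ ^ 2 / 8 + Zc)) :=
      mul_le_mul h5 h2 (by positivity) (by positivity)
    calc lam ^ 3 * (2 + lam ^ 2 / 8 + (n : ℝ) ^ 2 * Zc) * (n : ℝ) ^ 2
        ≤ Λ ^ 3 * ((n : ℝ) ^ 2 * (2 + Λ ^ 2 / 8 + Zc)) * (n : ℝ) ^ 2 :=
          mul_le_mul_of_nonneg_right h6 (by positivity)
      _ = _ := by ring
  have h2 : Λ ^ 3 * (2 + Λ ^ 2 / 8 + Zc) / (n : ℝ) ^ 2 ≤ 1 := by
    rw [div_le_one (by positivity)]
    nlinarith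
  have := Real.pi_gt_three
  linarith

end Pool.Agent.H88
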