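import Mathlib
import Pool.Agent.H88.CSDefs
import Pool.Agent.H88.CSBridgeA
import Pool.Agent.H88.CSBridgeB
import Pool.Agent.H88.CSExist
import Pool.Agent.H88.CSUnfold
import Pool.Agent.H88.Nonexistence

open MeasureTheory Set Filter Topology
open scoped ComplexConjugate ENNReal ContDiff

noncomputable section

namespace Pool.Agent.H88.CS

attribute [local instance] circleMS circleHaar circleProb

theorem four_div_sq {lam : ℝ} (hlam : 0 < lam) : 4 / (2 / Real.sqrt lam) ^ 2 = lam := by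
  rw [div_pow, Real.sq_sqrt hlam.le]
  field_simp
  norm_num

/-- A solution with all vortices at the origin on the long torus exists for some coupling. -/
theorem exists_coincident {n : ℕ} (hn : 1 ≤ n) : ∃ κ : ℝ, 0 < κ ∧
    ∃ u, IsSolution ((n : ℝ), 0) (0, 1) (fun _ : Fin n => ((0 : ℝ), (0 : ℝ))) κ u := by
  have hr : (1 : ℝ) ≤ n := by exact_mod_cast hn
  have hr0 : (0 : ℝ) < n := by linarith
  obtain ⟨lam, W, V, G₁, G₂, hlam, hWm, hVm, hG1m, hG2m, hW, hV, hG1, hG2, hi, h1, h2, h3, h4⟩ :=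
    exists_data hr
  refine ⟨2 / Real.sqrt lam, by positivity, fun p => V (proj n p), fun p => W (proj n p),
    fun p => V (proj n p) - W (proj n p), fun p => G₁ (proj n p), fun p => G₂ (proj n p), ?_, ?_, ?_,
    ?_, ?_⟩
  · refine ⟨doublyPeriodic_lift hr0 W, integrableOn_lift hr0 (hW.integrable (by norm_num)), ?_⟩
    intro φ hφ
    rw [h1 φ hφ, area_eq hr0]
    simp only [Finset.sum_const, Finset.card_univ, Fintype.card_fin, nsmul_eq_mul]
    field_simp
  · have hv : MemLp (fun z => V z - W z) 2 (volume : Measure T2) := hV.sub hW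
    exact ⟨doublyPeriodic_lift hr0 (fun z => V z - W z), doublyPeriodic_lift hr0 G₁,
      doublyPeriodic_lift hr0 G₂, memLp_lift hr0 hv, memLp_lift hr0 hG1, memLp_lift hr0 hG2, h2, h3⟩
  · intro z; ring
  · exact integrableOn_lift hr0 (g := fun z => Real.exp (V z) * (Real.exp (V z) - 1)) hi
  · intro φ hφ
    rw [h4 φ hφ, four_div_sq hlam, area_eq hr0]
    have : 4 * Real.pi * (n : ℝ) / n = 4 * Real.pi := by field_simp
    rw [this]

theorem sum_fin_eq (n : ℕ) (φ : ℝ × ℝ → ℝ) :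
    ∑ j : Fin n, φ (((j : ℕ) : ℝ), 0) = fold n φ (0, 0) := by
  unfold fold
  rw [Finset.sum_range]
  refine Finset.sum_congr rfl (fun j _ => ?_)
  congr 1
  ext <;> simp

/-- Solutions with the vortices at `(0,0), (1,0), ..., (n-1,0)` exist for a coupling which does not
depend on `n`. -/
theorem exists_spread : ∃ κ : ℝ, 0 < κ ∧ ∀ n : ℕ, 1 ≤ n →
    ∃ u, IsSolution ((n : ℝ), 0) (0, 1) (fun j : Fin n => (((j : ℕ) : ℝ), (0 : ℝ))) κ u := by
  obtain ⟨lam, W, V, G₁, G₂, hlam, hWm, hVm, hG1m, hG2m, hW, hV, hG1, hG2, hi, h1, h2, h3, h4⟩ :=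
    exists_data (r := 1) le_rfl
  refine ⟨2 / Real.sqrt lam, by positivity, fun n hn => ?_⟩
  have hr : (1 : ℝ) ≤ n := by exact_mod_cast hn
  have hr0 : (0 : ℝ) < n := by linarith
  have hv : MemLp (fun z => V z - W z) 2 (volume : Measure T2) := hV.sub hW
  have hvm : StronglyMeasurable (fun z => V z - W z) := hVm.sub hWm
  have hWi := hW.integrable (q := 2) (by norm_num)
  have hvi : Integrable (fun z => V z - W z) (volume : Measure T2) := hv.integrable (by norm_num)
  have hG1i : Integrable G₁ (volume : Measure T2) := hG1.integrable (by norm_num)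
  have hG2i : Integrable G₂ (volume : Measure T2) := hG2.integrable (by norm_num)
  have pW := doublyPeriodic_lift one_pos W
  have pv := doublyPeriodic_lift one_pos (fun z => V z - W z)
  have pG1 := doublyPeriodic_lift one_pos G₁
  have pG2 := doublyPeriodic_lift one_pos G₂
  refine ⟨fun p => V (proj 1 p), fun p => W (proj 1 p),
    fun p => V (proj 1 p) - W (proj 1 p), fun p => G₁ (proj 1 p), fun p => G₂ (proj 1 p), ?_, ?_, ?_,
    ?_, ?_⟩
  · refine ⟨pW.to_nat n, integrableOn_nat hn (integrableOn_lift one_pos hWi) pW, ?_⟩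
    intro φ hφ
    have hφ' := isTest_fold hφ
    rw [(unfold_integral hn (integrableOn_lift one_pos hWi) pW hφ.lap.continuous).2,
      ← lap_fold hφ, h1 _ hφ', sum_fin_eq, area_eq hr0]
    have h5 : ∫ p in cell ((n : ℝ), 0) (0, 1), φ p = ∫ p in cell (1, 0) (0, 1), fold n φ p := by
      have : Fact ((0 : ℝ) < 1) := ⟨one_pos⟩
      have h6 := (unfold_integral hn (G := fun _ => 1) (integrable_const _)
        ⟨fun _ => rfl, fun _ => rfl⟩ hφ.continuous).2
      simpa using h6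
    rw [h5]
    field_simp
  · refine ⟨pv.to_nat n, pG1.to_nat n, pG2.to_nat n, exists_memLp_nat hn hvm hv,
      exists_memLp_nat hn hG1m hG1, exists_memLp_nat hn hG2m hG2, ?_, ?_⟩
    · intro φ hφ
      have hφ' := isTest_fold hφ
      rw [(unfold_integral hn (integrableOn_lift one_pos hvi) pv hφ.dx.continuous).2,
        (unfold_integral hn (integrableOn_lift one_pos hG1i) pG1 hφ.continuous).2,
        ← dx_fold (fun z => hφ.differentiableAt z)]
      exact h2 _ hφ'
    · intro φ hφ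
      have hφ' := isTest_fold hφ
      rw [(unfold_integral hn (integrableOn_lift one_pos hvi) pv hφ.dy.continuous).2,
        (unfold_integral hn (integrableOn_lift one_pos hG2i) pG2 hφ.continuous).2,
        ← dy_fold (fun z => hφ.differentiableAt z)]
      exact h3 _ hφ'
  · intro z; ring
  · exact integrableOn_nat hn (integrableOn_lift one_pos
      (g := fun z => Real.exp (V z) * (Real.exp (V z) - 1)) hi)
      (doublyPeriodic_lift one_pos (fun z => Real.exp (V z) * (Real.exp (V z) - 1)))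
  · intro φ hφ
    have hφ' := isTest_fold hφ
    have u1 := unfold_integral hn (integrableOn_lift one_pos hG1i) pG1 hφ.dx.continuous
    have u2 := unfold_integral hn (integrableOn_lift one_pos hG2i) pG2 hφ.dy.continuous
    have hRi : Integrable (fun z => lam * (Real.exp (V z) * (Real.exp (V z) - 1)) + 4 * Real.pi)
        (volume : Measure T2) := (hi.const_mul lam).add (integrable_const _)
    have u3 := unfold_integral hn (integrableOn_lift one_pos hRi)
      (doublyPeriodic_lift one_pos (fun z => lam * (Real.exp (V z) * (Real.exp (V z) - 1)) + 4 * Real.pi))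
      hφ.continuous
    have h5 := h4 _ hφ'
    rw [dx_fold (fun z => hφ.differentiableAt z), dy_fold (fun z => hφ.differentiableAt z)] at h5
    have hc1 : Continuous (fold n (dx φ)) := by
      rw [← dx_fold (fun z => hφ.differentiableAt z)]; exact hφ'.dx.continuous
    have hc2 : Continuous (fold n (dy φ)) := by
      rw [← dy_fold (fun z => hφ.differentiableAt z)]; exact hφ'.dy.continuous
    rw [integral_add (integrableOn_mul_cont one_pos (integrableOn_lift one_pos hG1i) hc1)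
      (integrableOn_mul_cont one_pos (integrableOn_lift one_pos hG2i) hc2), ← u1.2, ← u2.2,
      ← integral_add u1.1 u2.1, ← u3.2] at h5
    rw [h5, four_div_sq hlam, area_eq hr0]
    have : 4 * Real.pi * (n : ℝ) / n = 4 * Real.pi := by field_simp
    rw [this]

/-- No solution with all vortices at the origin on the long torus, for large `n`. -/
theorem no_coincident (Λ : ℝ) : ∃ n₀ : ℕ, 1 ≤ n₀ ∧ ∀ n : ℕ, n₀ ≤ n → ∀ κ : ℝ, 0 < κ →
    4 / κ ^ 2 ≤ Λ → ∀ u, ¬ IsSolution ((n : ℝ), 0) (0, 1) (fun _ : Fin n => ((0 : ℝ), (0 : ℝ))) κ u := by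
  obtain ⟨n₀, hn₀, h⟩ := no_solution_torus Λ
  refine ⟨n₀, hn₀, fun n hn κ hκ hΛ u hu => ?_⟩
  have hn1 : 1 ≤ n := by omega
  have hr0 : (0 : ℝ) < n := by exact_mod_cast hn1
  obtain ⟨hui, hfi, hrel⟩ := hu.fourier hr0
  refine h n hn (4 / κ ^ 2) (by positivity) hΛ _ hui hfi (fun k => ?_)
  have h1 := hrel k
  have h2 : (4 * Real.pi * (n : ℝ) / n : ℝ) = 4 * Real.pi := by field_simp
  rw [h2] at h1
  exact h1

/-- The classical upper bound `κ² ≤ |Ω| / (4 π N)` on rectangular tori. -/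
theorem kappa_sq_le {r : ℝ} (hr : 0 < r) {N : ℕ} (hN : 1 ≤ N) {p : Fin N → ℝ × ℝ} {κ : ℝ}
    (hκ : 0 < κ) {u : ℝ × ℝ → ℝ} (h : IsSolution (r, 0) (0, 1) p κ u) :
    κ ^ 2 ≤ r / (4 * Real.pi * N) := by
  obtain ⟨hui, hGi, hd⟩ := h.distrib hr
  have htest : IsTest (r, 0) (0, 1) (fun _ => (1 : ℝ)) :=
    ⟨contDiff_const, fun _ => rfl, fun _ => rfl⟩
  have h1 := hd _ htest
  have hlap : ∀ z, CS.lap (fun _ : ℝ × ℝ => (1 : ℝ)) z = 0 := by
    intro z
    have e1 : dx (fun _ : ℝ × ℝ => (1 : ℝ)) = fun _ => 0 := by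
      funext w; unfold dx; simp
    have e2 : dy (fun _ : ℝ × ℝ => (1 : ℝ)) = fun _ => 0 := by
      funext w; unfold dy; simp
    unfold CS.lap
    rw [e1, e2]; unfold dx dy; simp
  simp only [hlap, mul_zero, integral_zero, mul_one, Finset.sum_const, Finset.card_univ,
    Fintype.card_fin, nsmul_eq_mul] at h1
  have hfin : Fact (0 < r) := ⟨hr⟩
  have h2 : -(r / 4) ≤ ∫ z in cell (r, 0) (0, 1), Real.exp (u z) * (Real.exp (u z) - 1) := by
    have h3 : ∫ z in cell (r, 0) (0, 1), (-(1 / 4) : ℝ) = -(r / 4) := by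
      rw [setIntegral_const, smul_eq_mul]
      have : (volume : Measure (ℝ × ℝ)).real (cell (r, 0) (0, 1)) = r := area_eq hr
      rw [this]; ring
    rw [← h3]
    refine integral_mono (integrable_const _) hGi (fun z => ?_)
    simp only
    nlinarith [sq_nonneg (Real.exp (u z) - 1 / 2)]
  have hN' : (1 : ℝ) ≤ N := by exact_mod_cast hN
  have hpi := Real.pi_pos
  have hk2 : 0 < 4 / κ ^ 2 := by positivity
  have h4 : 4 * Real.pi * N ≤ 4 / κ ^ 2 * (r / 4) := by nlinarith
  rw [le_div_iff₀ (by positivity)]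
  have h5 : 4 / κ ^ 2 * (r / 4) = r / κ ^ 2 := by field_simp
  rw [h5, le_div_iff₀ (by positivity)] at h4
  linarith

theorem bddAbove_coupling {r : ℝ} (hr : 0 < r) {N : ℕ} (hN : 1 ≤ N) (p : Fin N → ℝ × ℝ) :
    BddAbove {κ : ℝ | 0 < κ ∧ ∃ u, IsSolution (r, 0) (0, 1) p κ u} := by
  refine ⟨Real.sqrt (r / (4 * Real.pi * N)), ?_⟩
  rintro κ ⟨hκ, u, hu⟩
  exact Real.le_sqrt_of_sq_le (kappa_sq_le hr hN hκ hu)

/-- Main statement: the critical coupling for `n` coincident vortices on `[0,n) × [0,1)` is, for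
large `n`, smaller than any fixed fraction of the critical coupling for `n` equally spaced ones. -/
theorem main : ∀ C : ℝ, ∃ n₀ : ℕ, ∀ n : ℕ, n₀ ≤ n →
    0 < criticalCoupling ((n : ℝ), 0) (0, 1) (fun _ : Fin n => ((0 : ℝ), (0 : ℝ))) ∧
    C * criticalCoupling ((n : ℝ), 0) (0, 1) (fun _ : Fin n => ((0 : ℝ), (0 : ℝ))) <
      criticalCoupling ((n : ℝ), 0) (0, 1) (fun j : Fin n => (((j : ℕ) : ℝ), (0 : ℝ))) := by
  intro C
  obtain ⟨κ₀, hκ₀, hspread⟩ := exists_spread
  set C' := max C 1 with hC'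
  have hC'1 : 1 ≤ C' := le_max_right _ _
  have hCC' : C ≤ C' := le_max_left _ _
  have hC'0 : 0 < C' := by linarith
  set δ := κ₀ / (2 * C') with hδ
  have hδ0 : 0 < δ := by positivity
  obtain ⟨n₀, hn₀, hno⟩ := no_coincident (4 / δ ^ 2)
  refine ⟨n₀, fun n hn => ?_⟩
  have hn1 : 1 ≤ n := by omega
  have hr0 : (0 : ℝ) < n := by exact_mod_cast hn1
  obtain ⟨κ₁, hκ₁, u₁, hu₁⟩ := exists_coincident hn1
  obtain ⟨u₂, hu₂⟩ := hspread n hn1
  have hbd1 := bddAbove_coupling hr0 hn1 (fun _ : Fin n => ((0 : ℝ), (0 : ℝ)))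
  have hbd2 := bddAbove_coupling hr0 hn1 (fun j : Fin n => (((j : ℕ) : ℝ), (0 : ℝ)))
  have hpos : 0 < criticalCoupling ((n : ℝ), 0) (0, 1) (fun _ : Fin n => ((0 : ℝ), (0 : ℝ))) :=
    lt_of_lt_of_le hκ₁ (le_csSup hbd1 ⟨hκ₁, u₁, hu₁⟩)
  have hle : criticalCoupling ((n : ℝ), 0) (0, 1) (fun _ : Fin n => ((0 : ℝ), (0 : ℝ))) ≤ δ := by
    refine csSup_le ⟨κ₁, hκ₁, u₁, hu₁⟩ ?_
    rintro κ ⟨hκ, u, hu⟩
    by_contra hcon
    rw [not_le] at hcon
    refine hno n hn κ hκ ?_ u hu
    apply div_le_div_of_nonneg_left (by norm_num) (by positivity)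
    exact pow_le_pow_left₀ hδ0.le hcon.le 2
  have hge : κ₀ ≤ criticalCoupling ((n : ℝ), 0) (0, 1) (fun j : Fin n => (((j : ℕ) : ℝ), (0 : ℝ))) :=
    le_csSup hbd2 ⟨hκ₀, u₂, hu₂⟩
  refine ⟨hpos, ?_⟩
  calc C * criticalCoupling ((n : ℝ), 0) (0, 1) (fun _ : Fin n => ((0 : ℝ), (0 : ℝ)))
      ≤ C' * criticalCoupling ((n : ℝ), 0) (0, 1) (fun _ : Fin n => ((0 : ℝ), (0 : ℝ))) :=
        mul_le_mul_of_nonneg_right hCC' hpos.le
    _ ≤ C' * δ := mul_le_mul_of_nonneg_left hle hC'0.le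
    _ = κ₀ / 2 := by rw [hδ]; field_simp
    _ < κ₀ := by linarith
    _ ≤ _ := hge

end Pool.Agent.H88.CS
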